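import Pool.Agent.KCL.Box

/-!
# The generalised inner product on boxes
-/

set_option autoImplicit false
set_option linter.unusedSectionVars false

namespace Pool.Agent.KCL

open Finset

variable {κ : Type} [Fintype κ] [DecidableEq κ] {r : ℕ}

/-- Sums of products over the rows. -/
lemma sum_rows {I β : Type} [Fintype I] [DecidableEq I] [Fintype β] (r : ℕ)
    (g : (I → β) → ℝ) :
    ∑ y : I → Fin r → β, ∏ j, g (fun i => y i j) = (∑ u, g u) ^ r := by
  classical
  let e : (I → Fin r → β) ≃ (Fin r → I → β) :=
    { toFun := fun y j i => y i j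
      invFun := fun y i j => y j i
      left_inv := fun _ => rfl
      right_inv := fun _ => rfl }
  have h1 : ∑ y : I → Fin r → β, ∏ j, g (fun i => y i j) =
      ∑ Y : Fin r → I → β, ∏ j, g (Y j) := by
    rw [← Equiv.sum_comp e fun Y => ∏ j, g (Y j)]
    rfl
  rw [h1, Finset.sum_pow', Fintype.piFinset_univ]

/-- Sums of products over the rows, for boxes. -/
lemma sum_rows_box (r : ℕ) (g : (κ → Bool → Bool) → ℝ) :
    ∑ z : κ → Bool → Fin r → Bool, ∏ j, g (fun i c => z i c j) = (∑ u, g u) ^ r := by
  classical
  let e : (κ → Bool → Fin r → Bool) ≃ (Fin r → κ → Bool → Bool) :=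
    { toFun := fun y j i c => y i c j
      invFun := fun y i c j => y j i c
      left_inv := fun _ => rfl
      right_inv := fun _ => rfl }
  have h1 : ∑ z : κ → Bool → Fin r → Bool, ∏ j, g (fun i c => z i c j) =
      ∑ Y : Fin r → κ → Bool → Bool, ∏ j, g (Y j) := by
    rw [← Equiv.sum_comp e fun Y => ∏ j, g (Y j)]
    rfl
  rw [h1, Finset.sum_pow', Fintype.piFinset_univ]

/-- `1` or `-1` according to the parity of the number of rows in which all bits are `1`. -/
def gip (y : κ → Fin r → Bool) : ℝ := ∏ j, if ∀ i, y i j = true then (-1 : ℝ) else 1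

lemma gip_eq (y : κ → Fin r → Bool) :
    gip y = (-1) ^ (univ.filter fun j => ∀ i, y i j = true).card := by
  unfold gip
  rw [Finset.prod_ite, Finset.prod_const, Finset.prod_const_one, mul_one]

/-- The number of rows in which all bits are `1`. -/
def rowsAll (y : κ → Fin r → Bool) : ℕ := (univ.filter fun j => ∀ i, y i j = true).card

lemma gip_rows (y : κ → Fin r → Bool) : gip y = (-1) ^ rowsAll y := gip_eq y

lemma gip_pm (y : κ → Fin r → Bool) : gip y = 1 ∨ gip y = -1 := by
  rw [gip_eq]
  exact neg_one_pow_eq_or ℝ _

lemma gip_eq_one (y : κ → Fin r → Bool) :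
    gip y = 1 ↔ ¬ Odd (univ.filter fun j => ∀ i, y i j = true).card := by
  rw [gip_eq, Nat.not_odd_iff_even]
  constructor
  · intro h
    by_contra hcon
    rw [Nat.not_even_iff_odd] at hcon
    rw [hcon.neg_one_pow] at h
    norm_num at h
  · intro h
    exact h.neg_one_pow

/-- The product over a box of dimension `|κ|` of bits. -/
lemma prod_vertices (v : κ → Bool → Bool) :
    ∏ ω : κ → Bool, (if ∀ i, v i (ω i) = true then (-1 : ℝ) else 1) =
      if ∀ i, v i false ≠ v i true then -1 else 1 := by
  classical
  rw [Finset.prod_ite, Finset.prod_const, Finset.prod_const_one, mul_one]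
  have h1 : (univ.filter fun ω : κ → Bool => ∀ i, v i (ω i) = true) =
      Fintype.piFinset fun i => univ.filter fun c => v i c = true := by
    ext ω
    simp
  rw [h1, Fintype.card_piFinset]
  by_cases h : ∀ i, v i false ≠ v i true
  · rw [if_pos h]
    have h2 : ∀ i, (univ.filter fun c => v i c = true).card = 1 := by
      intro i
      have := h i
      rw [Finset.card_eq_one]
      cases h3 : v i true
      · refine ⟨false, ?_⟩
        ext c
        cases c <;> simp_all
      · refine ⟨true, ?_⟩
        ext c
        cases c <;> simp_all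
    simp only [h2, Finset.prod_const_one, pow_one]
  · rw [if_neg h]
    push Not at h
    obtain ⟨i, hi⟩ := h
    refine Even.neg_one_pow ?_
    rw [← Finset.mul_prod_erase univ _ (Finset.mem_univ i)]
    refine Even.mul_right ?_ _
    cases h3 : v i true
    · have : (univ.filter fun c => v i c = true) = ∅ := by
        ext c
        cases c <;> simp_all
      rw [this]
      simp
    · have : (univ.filter fun c => v i c = true) = univ := by
        ext c
        cases c <;> simp_all
      rw [this]
      exact ⟨1, by simp⟩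

/-- The product of `gip` over a box. -/
lemma prod_gip (z : κ → Bool → Fin r → Bool) :
    ∏ ω : κ → Bool, gip (vtx z ω) =
      ∏ j, if ∀ i, z i false j ≠ z i true j then (-1 : ℝ) else 1 := by
  unfold gip
  rw [Finset.prod_comm]
  refine Finset.prod_congr rfl fun j _ => ?_
  exact prod_vertices fun i c => z i c j

/-- The average of `gip`. -/
lemma sum_gip : ∑ y : κ → Fin r → Bool, gip y = ((2 : ℝ) ^ Fintype.card κ - 2) ^ r := by
  classical
  unfold gip
  rw [sum_rows r fun u => if ∀ i, u i = true then (-1 : ℝ) else 1]
  congr 1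
  have h1 : ∀ u : κ → Bool, (if ∀ i, u i = true then (-1 : ℝ) else 1) =
      1 - if u = (fun _ => true) then 2 else 0 := by
    intro u
    by_cases h : ∀ i, u i = true
    · rw [if_pos h, if_pos (funext h)]
      norm_num
    · rw [if_neg h, if_neg (fun h2 => h fun i => congrFun h2 i)]
      norm_num
  simp only [h1]
  rw [Finset.sum_sub_distrib, Finset.sum_const, Finset.card_univ, Finset.sum_ite_eq']
  simp

/-- The set of odd points is large. -/
lemma odd_large (hr : 2 ^ Fintype.card κ ≤ r) (hκ : 1 ≤ Fintype.card κ) :
    (1 / 4 : ℝ) * Fintype.card (κ → Fin r → Bool) ≤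
      (univ.filter fun y : κ → Fin r → Bool =>
        Odd (univ.filter fun j => ∀ i, y i j = true).card).card := by
  classical
  set N : ℝ := (Fintype.card (κ → Fin r → Bool) : ℝ) with hN
  set O : Finset (κ → Fin r → Bool) := univ.filter fun y : κ → Fin r → Bool =>
        Odd (univ.filter fun j => ∀ i, y i j = true).card with hO
  have hNeq : N = ((2 : ℝ) ^ Fintype.card κ) ^ r := by
    rw [hN, Fintype.card_fun, Fintype.card_fun, Fintype.card_bool, Fintype.card_fin]
    push_cast
    rw [← pow_mul, ← pow_mul, mul_comm]
  -- the sum of `gip` is `N - 2 |O|`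
  have h1 : ∑ y : κ → Fin r → Bool, gip y = N - 2 * O.card := by
    have h2 : ∀ y : κ → Fin r → Bool, gip y = 1 - 2 * if y ∈ O then 1 else 0 := by
      intro y
      by_cases hy : Odd (univ.filter fun j => ∀ i, y i j = true).card
      · have h3 : y ∈ O := by simp only [hO, Finset.mem_filter, Finset.mem_univ, true_and]; exact hy
        rw [if_pos h3, gip_eq, hy.neg_one_pow]
        norm_num
      · have h3 : y ∉ O := by
          simp only [hO, Finset.mem_filter, Finset.mem_univ, true_and]; exact hy
        rw [if_neg h3, (gip_eq_one y).mpr hy]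
        norm_num
    simp only [h2]
    rw [Finset.sum_sub_distrib, ← Finset.mul_sum, Finset.sum_const, Finset.card_univ,
      Finset.sum_ite_mem, Finset.univ_inter, Finset.sum_const, hN]
    simp
  have hM : (2 : ℝ) ≤ 2 ^ Fintype.card κ := by
    calc (2 : ℝ) = 2 ^ 1 := by norm_num
      _ ≤ 2 ^ Fintype.card κ := pow_le_pow_right₀ (by norm_num) hκ
  have h2 : ((2 : ℝ) ^ Fintype.card κ - 2) ^ r ≤ (1 / 2) * N := by
    set M : ℝ := (2 : ℝ) ^ Fintype.card κ with hMdef
    have hM0 : 0 < M := by positivity
    have h3 : M - 2 = M * (1 - 2 / M) := by field_simp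
    have h4 : (1 - 2 / M) ≤ Real.exp (-(2 / M)) := by
      have := Real.add_one_le_exp (-(2 / M))
      linarith
    have h5 : 0 ≤ 1 - 2 / M := by
      rw [sub_nonneg, div_le_one hM0]
      exact hM
    have h6 : (1 - 2 / M) ^ r ≤ 1 / 2 := by
      calc (1 - 2 / M) ^ r ≤ Real.exp (-(2 / M)) ^ r := pow_le_pow_left₀ h5 h4 r
        _ = Real.exp (-(r * (2 / M))) := by
          rw [← Real.exp_nat_mul]
          congr 1
          ring
        _ ≤ Real.exp (-2) := by
          refine Real.exp_le_exp.mpr ?_
          have h7 : M ≤ r := by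
            rw [hMdef]
            exact_mod_cast hr
          have h8 : 2 ≤ r * (2 / M) := by
            rw [mul_div_assoc', le_div_iff₀ hM0]
            linarith
          linarith
        _ ≤ 1 / 2 := by
          rw [Real.exp_neg, ← one_div]
          refine one_div_le_one_div_of_le (by norm_num) ?_
          have := Real.add_one_le_exp (2 : ℝ)
          linarith
    rw [h3, mul_pow, hNeq]
    calc M ^ r * (1 - 2 / M) ^ r ≤ M ^ r * (1 / 2) :=
          mul_le_mul_of_nonneg_left h6 (by positivity)
      _ = 1 / 2 * M ^ r := by ring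
  rw [sum_gip] at h1
  linarith

end Pool.Agent.KCL
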