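import Pool.Agent.KCL.Box

/-!
# Sets that are closed under completing boxes
-/

set_option autoImplicit false
set_option linter.unusedSectionVars false

namespace Pool.Agent.KCL

open Finset

section general

variable {κ α : Type} [Fintype κ] [DecidableEq κ] [Fintype α] [Nonempty α]

/-- The Gowers-Cauchy-Schwarz inequality, for factors that do not depend on some coordinates. -/
theorem gcs_indep (g : (κ → Bool) → (κ → α) → ℝ) (hg : ∀ ω y, |g ω y| ≤ 1)
    (hind : ∀ ω x x', (∀ i, ω i = false → x i = x' i) → g ω x = g ω x') :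
    |(∑ x, ∏ ω, g ω x) / Fintype.card (κ → α)| ^ 2 ^ Fintype.card κ ≤
      |BI fun _ : κ → Bool => g fun _ => false| := by
  have h := gcs g hg fun _ => false
  have h2 : BI g = (∑ x, ∏ ω, g ω x) / Fintype.card (κ → α) := by
    rw [← sum_vtx (fun _ => false) fun x => ∏ ω, g ω x]
    unfold BI
    congr 1
    refine Finset.sum_congr rfl fun z _ => Finset.prod_congr rfl fun ω _ => ?_
    refine hind ω _ _ fun i hi => ?_
    unfold vtx
    rw [hi]
  rw [h2] at h
  exact h

omit [Nonempty α] in
/-- Averaging over one coordinate. -/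
lemma sum_coord (i : κ) (f : (κ → α) → ℝ) :
    ∑ x, ∑ u, f (Function.update x i u) = Fintype.card α * ∑ x, f x := by
  classical
  let e : ((κ → α) × α) ≃ ((κ → α) × α) :=
    { toFun := fun q => (Function.update q.1 i q.2, q.1 i)
      invFun := fun q => (Function.update q.1 i q.2, q.1 i)
      left_inv := fun q => by simp
      right_inv := fun q => by simp }
  have h1 : ∑ x, ∑ u, f (Function.update x i u) = ∑ p : (κ → α) × α, f (e p).1 := by
    rw [Fintype.sum_prod_type]
    rfl
  rw [h1, Equiv.sum_comp e fun p => f p.1, Fintype.sum_prod_type]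
  simp only [Finset.sum_const, Finset.card_univ, nsmul_eq_mul]
  rw [← Finset.mul_sum]

/-- `S` is closed under completing boxes: if all vertices of a box but one are in `S`, then the
last vertex is in `S`. -/
def BoxClosed (S : (κ → α) → Prop) : Prop :=
  ∀ z : κ → Bool → α, (∀ ω, (∃ i, ω i = true) → S (vtx z ω)) → S (vtx z fun _ => false)

end general

variable {q : ℕ} {α : Type}

/-- The vertex `ω` of the box with base point `x` and other entries `y`. -/
def mix (ω : Fin q → Bool) (x y : Fin q → α) : Fin q → α := fun i => if ω i = true then y i else x i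

/-- The first `i` directions of the box with base point `x` and other entries `y` are in `S`. -/
def InS (S : (Fin q → α) → Prop) (i : ℕ) (x y : Fin q → α) : Prop :=
  ∀ ω : Fin q → Bool, (∀ j : Fin q, i ≤ j.1 → ω j = false) → S (mix ω x y)

lemma inS_update_right (S : (Fin q → α) → Prop) (i : ℕ) (x y : Fin q → α) (j : Fin q)
    (hj : i ≤ j.1) (u : α) : InS S i x (Function.update y j u) ↔ InS S i x y := by
  have h : ∀ ω : Fin q → Bool, (∀ j : Fin q, i ≤ j.1 → ω j = false) →
      mix ω x (Function.update y j u) = mix ω x y := by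
    intro ω hω
    funext l
    unfold mix
    by_cases hl : l = j
    · subst hl
      rw [hω l hj]
      simp
    · rw [Function.update_of_ne hl]
  constructor
  · intro H ω hω
    rw [← h ω hω]
    exact H ω hω
  · intro H ω hω
    rw [h ω hω]
    exact H ω hω

lemma inS_succ (S : (Fin q → α) → Prop) (i : Fin q) (x y : Fin q → α) :
    InS S (i.1 + 1) x y ↔ InS S i.1 x y ∧ InS S i.1 (Function.update x i (y i)) y := by
  constructor
  · intro H
    refine ⟨fun ω hω => H ω fun j hj => hω j (by omega), fun ω hω => ?_⟩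
    have h1 := H (Function.update ω i true) (by
      intro j hj
      have hji : j ≠ i := by
        rintro rfl
        omega
      rw [Function.update_of_ne hji]
      exact hω j (by omega))
    have h2 : mix (Function.update ω i true) x y = mix ω (Function.update x i (y i)) y := by
      funext l
      unfold mix
      by_cases hl : l = i
      · subst hl
        simp
      · rw [Function.update_of_ne hl, Function.update_of_ne hl]
    rw [← h2]
    exact h1
  · rintro ⟨H1, H2⟩ ω hω
    by_cases hi : ω i = true
    · have h1 := H2 (Function.update ω i false) (by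
        intro j hj
        by_cases hji : j = i
        · subst hji
          simp
        · rw [Function.update_of_ne hji]
          refine hω j ?_
          have : j.1 ≠ i.1 := fun h => hji (Fin.ext h)
          omega)
      have h2 : mix (Function.update ω i false) (Function.update x i (y i)) y = mix ω x y := by
        funext l
        unfold mix
        by_cases hl : l = i
        · subst hl
          simp [hi]
        · rw [Function.update_of_ne hl, Function.update_of_ne hl]
      rw [← h2]
      exact h1
    · refine H1 ω fun j hj => ?_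
      by_cases hji : j = i
      · rw [hji]
        simpa using hi
      · refine hω j ?_
        have : j.1 ≠ i.1 := fun h => hji (Fin.ext h)
        omega

variable [Fintype α] [Nonempty α]

open Classical in
/-- The density of the admissible values in direction `i`. -/
noncomputable def dens (S : (Fin q → α) → Prop) (i : Fin q) (x y : Fin q → α) : ℝ :=
  (∑ u, if InS S i.1 (Function.update x i u) y then (1 : ℝ) else 0) / Fintype.card α

lemma dens_nonneg (S : (Fin q → α) → Prop) (i : Fin q) (x y : Fin q → α) :
    0 ≤ dens S i x y := by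
  unfold dens
  positivity

lemma dens_congr (S : (Fin q → α) → Prop) (i : Fin q) (x x' y : Fin q → α)
    (h : ∀ j, j ≠ i → x j = x' j) : dens S i x y = dens S i x' y := by
  have : ∀ u, Function.update x i u = Function.update x' i u := by
    intro u
    funext j
    by_cases hj : j = i
    · subst hj
      simp
    · rw [Function.update_of_ne hj, Function.update_of_ne hj]
      exact h j hj
  unfold dens
  congr 1
  refine Finset.sum_congr rfl fun u _ => ?_
  rw [this u]

lemma dens_update_right (S : (Fin q → α) → Prop) (i : Fin q) (x y : Fin q → α) (j : Fin q)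
    (hj : i.1 ≤ j.1) (u : α) : dens S i x (Function.update y j u) = dens S i x y := by
  unfold dens
  congr 1
  refine Finset.sum_congr rfl fun v _ => ?_
  by_cases h : InS S i.1 (Function.update x i v) y
  · rw [if_pos h, if_pos ((inS_update_right S i.1 _ y j hj u).mpr h)]
  · rw [if_neg h, if_neg (fun h2 => h ((inS_update_right S i.1 _ y j hj u).mp h2))]

open Classical in
/-- The truncated inverse density. -/
noncomputable def wei (S : (Fin q → α) → Prop) (τ : ℝ) (i : Fin q) (x y : Fin q → α) : ℝ :=
  if τ ^ 2 ^ i.1 ≤ dens S i x y then (dens S i x y)⁻¹ else 0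

/-- The product of the truncated inverse densities of the first `i` directions. -/
noncomputable def weis (S : (Fin q → α) → Prop) (τ : ℝ) (i : ℕ) (x y : Fin q → α) : ℝ :=
  ∏ j : Fin q, if j.1 < i then wei S τ j x y else 1

lemma wei_nonneg (S : (Fin q → α) → Prop) (τ : ℝ) (i : Fin q) (x y : Fin q → α) :
    0 ≤ wei S τ i x y := by
  unfold wei
  split_ifs
  · exact inv_nonneg.mpr (dens_nonneg S i x y)
  · exact le_refl _

lemma wei_le (S : (Fin q → α) → Prop) (τ : ℝ) (hτ : 0 < τ) (i : Fin q) (x y : Fin q → α) :
    τ ^ 2 ^ i.1 * wei S τ i x y ≤ 1 := by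
  have h0 : 0 < τ ^ 2 ^ i.1 := by positivity
  unfold wei
  split_ifs with h
  · have h1 : 0 < dens S i x y := lt_of_lt_of_le h0 h
    rw [← div_eq_mul_inv, div_le_one h1]
    exact h
  · simp

lemma weis_succ (S : (Fin q → α) → Prop) (τ : ℝ) (i : Fin q) (x y : Fin q → α) :
    weis S τ (i.1 + 1) x y = weis S τ i.1 x y * wei S τ i x y := by
  unfold weis
  rw [← Finset.mul_prod_erase univ _ (Finset.mem_univ i),
    ← Finset.mul_prod_erase univ (fun j : Fin q => if j.1 < i.1 then wei S τ j x y else 1)
      (Finset.mem_univ i), if_pos (Nat.lt_succ_self _), if_neg (lt_irrefl _), one_mul, mul_comm]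
  congr 1
  refine Finset.prod_congr rfl fun j hj => ?_
  have h1 : j.1 ≠ i.1 := fun h => (Finset.ne_of_mem_erase hj) (Fin.ext h)
  by_cases h2 : j.1 < i.1
  · rw [if_pos h2, if_pos (by omega)]
  · rw [if_neg h2, if_neg (by omega)]

lemma weis_nonneg (S : (Fin q → α) → Prop) (τ : ℝ) (i : ℕ) (x y : Fin q → α) :
    0 ≤ weis S τ i x y := by
  unfold weis
  refine Finset.prod_nonneg fun j _ => ?_
  split_ifs
  · exact wei_nonneg S τ j x y
  · norm_num

lemma weis_zero (S : (Fin q → α) → Prop) (τ : ℝ) (x y : Fin q → α) : weis S τ 0 x y = 1 := by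
  unfold weis
  simp

lemma weis_le (S : (Fin q → α) → Prop) (τ : ℝ) (hτ : 0 < τ) (i : ℕ) (hi : i ≤ q)
    (x y : Fin q → α) : τ ^ (2 ^ i - 1) * weis S τ i x y ≤ 1 := by
  induction i with
  | zero => simp [weis_zero]
  | succ i ih =>
    have h1 := weis_succ S τ ⟨i, hi⟩ x y
    have h2 := wei_le S τ hτ ⟨i, hi⟩ x y
    have h3 := ih (by omega)
    simp only at h1 h2
    rw [h1]
    have e1 : 2 ^ (i + 1) - 1 = (2 ^ i - 1) + 2 ^ i := by
      have : 1 ≤ 2 ^ i := Nat.one_le_two_pow
      rw [pow_succ]
      omega
    rw [e1, pow_add]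
    calc τ ^ (2 ^ i - 1) * τ ^ 2 ^ i * (weis S τ i x y * wei S τ ⟨i, hi⟩ x y)
        = (τ ^ (2 ^ i - 1) * weis S τ i x y) * (τ ^ 2 ^ i * wei S τ ⟨i, hi⟩ x y) := by ring
      _ ≤ 1 * 1 := by
          refine mul_le_mul h3 h2 ?_ (by norm_num)
          exact mul_nonneg (by positivity) (wei_nonneg S τ _ x y)
      _ = 1 := one_mul 1

lemma wei_update_right (S : (Fin q → α) → Prop) (τ : ℝ) (i : Fin q) (x y : Fin q → α) (j : Fin q)
    (hj : i.1 ≤ j.1) (u : α) : wei S τ i x (Function.update y j u) = wei S τ i x y := by
  unfold wei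
  rw [dens_update_right S i x y j hj u]

lemma weis_update_right (S : (Fin q → α) → Prop) (τ : ℝ) (i : ℕ) (x y : Fin q → α) (j : Fin q)
    (hj : i ≤ j.1) (u : α) : weis S τ i x (Function.update y j u) = weis S τ i x y := by
  unfold weis
  refine Finset.prod_congr rfl fun l _ => ?_
  by_cases hl : l.1 < i
  · rw [if_pos hl, if_pos hl, wei_update_right S τ l x y j (by omega) u]
  · rw [if_neg hl, if_neg hl]

open Classical in
/-- The sums that interpolate. -/
noncomputable def psi (S : (Fin q → α) → Prop) (τ : ℝ) (F : (Fin q → α) → ℝ) (i : ℕ) : ℝ :=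
  ∑ x, ∑ y, F x * (weis S τ i x y * if InS S i x y then 1 else 0)

open Classical in
/-- One step costs little. -/
lemma psi_step (S : (Fin q → α) → Prop) (τ : ℝ) (hτ : 0 < τ) (F : (Fin q → α) → ℝ)
    (hF : ∀ x, |F x| ≤ 1) (i : Fin q) :
    |psi S τ F i.1 - psi S τ F (i.1 + 1)| ≤ τ * Fintype.card (Fin q → α) ^ 2 := by
  have hα : (0 : ℝ) < Fintype.card α := by exact_mod_cast Fintype.card_pos
  set A : ℝ := (Fintype.card α : ℝ) with hA
  set N : ℝ := (Fintype.card (Fin q → α) : ℝ) with hN
  have hN0 : 0 ≤ N := Nat.cast_nonneg _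
  have hτi : 0 < τ ^ 2 ^ i.1 := by positivity
  -- the next sum
  have h1 : psi S τ F (i.1 + 1) = ∑ x, ∑ y, F x * (weis S τ i.1 x y *
      if InS S i.1 x y ∧ τ ^ 2 ^ i.1 ≤ dens S i x y then 1 else 0) := by
    unfold psi
    refine Finset.sum_congr rfl fun x _ => ?_
    have e1 := sum_coord i fun y : Fin q → α => F x * (weis S τ (i.1 + 1) x y *
      if InS S (i.1 + 1) x y then 1 else 0)
    have e2 : ∀ y : Fin q → α, ∑ u, F x * (weis S τ (i.1 + 1) x (Function.update y i u) *
        if InS S (i.1 + 1) x (Function.update y i u) then 1 else 0) =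
        A * (F x * (weis S τ i.1 x y *
          if InS S i.1 x y ∧ τ ^ 2 ^ i.1 ≤ dens S i x y then 1 else 0)) := by
      intro y
      have e3 : ∀ u, F x * (weis S τ (i.1 + 1) x (Function.update y i u) *
          if InS S (i.1 + 1) x (Function.update y i u) then 1 else 0) =
          (F x * (weis S τ i.1 x y * wei S τ i x y) * if InS S i.1 x y then 1 else 0) *
            if InS S i.1 (Function.update x i u) y then 1 else 0 := by
        intro u
        rw [weis_succ, weis_update_right S τ i.1 x y i le_rfl u,
          wei_update_right S τ i x y i le_rfl u, inS_succ, Function.update_self,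
          inS_update_right S i.1 x y i le_rfl u, inS_update_right S i.1 _ y i le_rfl u]
        by_cases c1 : InS S i.1 x y
        · by_cases c2 : InS S i.1 (Function.update x i u) y
          · simp only [c1, c2, and_self, if_true]
            ring
          · simp only [c1, c2, and_false, if_true, if_false, mul_zero]
        · simp only [c1, false_and, if_false, mul_zero, zero_mul]
      rw [Finset.sum_congr rfl fun u _ => e3 u, ← Finset.mul_sum]
      have e4 : (∑ u, if InS S i.1 (Function.update x i u) y then (1 : ℝ) else 0) =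
          A * dens S i x y := by
        unfold dens
        rw [mul_div_cancel₀ _ hα.ne']
      rw [e4]
      by_cases c1 : InS S i.1 x y
      · by_cases c2 : τ ^ 2 ^ i.1 ≤ dens S i x y
        · have c3 : dens S i x y ≠ 0 := (lt_of_lt_of_le hτi c2).ne'
          have c4 : wei S τ i x y = (dens S i x y)⁻¹ := by
            unfold wei
            rw [if_pos c2]
          simp only [c1, c2, and_self, if_true, c4]
          field_simp
        · have c4 : wei S τ i x y = 0 := by
            unfold wei
            rw [if_neg c2]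
          simp only [c1, c2, and_false, if_false, c4]
          ring
      · simp only [c1, false_and, if_false]
        ring
    rw [Finset.sum_congr rfl fun y _ => e2 y, ← Finset.mul_sum] at e1
    exact (mul_left_cancel₀ hα.ne' e1).symm
  -- the difference
  have h2 : psi S τ F i.1 - psi S τ F (i.1 + 1) = ∑ x, ∑ y, F x * (weis S τ i.1 x y *
      if InS S i.1 x y ∧ dens S i x y < τ ^ 2 ^ i.1 then 1 else 0) := by
    rw [h1]
    unfold psi
    rw [← Finset.sum_sub_distrib]
    refine Finset.sum_congr rfl fun x _ => ?_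
    rw [← Finset.sum_sub_distrib]
    refine Finset.sum_congr rfl fun y _ => ?_
    by_cases c1 : InS S i.1 x y
    · by_cases c2 : τ ^ 2 ^ i.1 ≤ dens S i x y
      · have c3 : ¬ dens S i x y < τ ^ 2 ^ i.1 := not_lt.mpr c2
        simp only [c1, c2, c3, and_self, and_false, if_true, if_false]
        ring
      · have c3 : dens S i x y < τ ^ 2 ^ i.1 := not_le.mp c2
        simp only [c1, c2, c3, and_self, and_false, if_true, if_false]
        ring
    · simp only [c1, false_and, if_false]
      ring
  rw [h2]
  -- the bound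
  have h3 : |∑ x, ∑ y, F x * (weis S τ i.1 x y *
      if InS S i.1 x y ∧ dens S i x y < τ ^ 2 ^ i.1 then 1 else 0)| ≤
      ∑ x, ∑ y, weis S τ i.1 x y *
        (if InS S i.1 x y ∧ dens S i x y < τ ^ 2 ^ i.1 then 1 else 0) := by
    refine (Finset.abs_sum_le_sum_abs _ _).trans (Finset.sum_le_sum fun x _ => ?_)
    refine (Finset.abs_sum_le_sum_abs _ _).trans (Finset.sum_le_sum fun y _ => ?_)
    have c1 : 0 ≤ weis S τ i.1 x y *
        (if InS S i.1 x y ∧ dens S i x y < τ ^ 2 ^ i.1 then 1 else 0) :=
      mul_nonneg (weis_nonneg S τ i.1 x y) (by positivity)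
    rw [abs_mul, abs_of_nonneg c1]
    calc |F x| * (weis S τ i.1 x y *
        (if InS S i.1 x y ∧ dens S i x y < τ ^ 2 ^ i.1 then 1 else 0)) ≤
        1 * (weis S τ i.1 x y *
        (if InS S i.1 x y ∧ dens S i x y < τ ^ 2 ^ i.1 then 1 else 0)) :=
          mul_le_mul_of_nonneg_right (hF x) c1
      _ = _ := one_mul _
  refine h3.trans ?_
  have hτi' : 0 < τ ^ (2 ^ i.1 - 1) := by positivity
  -- multiply by the power of `τ`
  have h4 : τ ^ (2 ^ i.1 - 1) * ∑ x, ∑ y, weis S τ i.1 x y *
        (if InS S i.1 x y ∧ dens S i x y < τ ^ 2 ^ i.1 then 1 else 0) ≤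
      ∑ y : Fin q → α, ∑ x, (if InS S i.1 x y ∧ dens S i x y < τ ^ 2 ^ i.1 then (1 : ℝ) else 0) := by
    rw [Finset.mul_sum, Finset.sum_comm (γ := Fin q → α)]
    refine Finset.sum_le_sum fun x _ => ?_
    rw [Finset.mul_sum]
    refine Finset.sum_le_sum fun y _ => ?_
    rw [← mul_assoc]
    have c1 : (0 : ℝ) ≤ (if InS S i.1 x y ∧ dens S i x y < τ ^ 2 ^ i.1 then 1 else 0) := by
      positivity
    calc τ ^ (2 ^ i.1 - 1) * weis S τ i.1 x y *
        (if InS S i.1 x y ∧ dens S i x y < τ ^ 2 ^ i.1 then 1 else 0) ≤
        1 * (if InS S i.1 x y ∧ dens S i x y < τ ^ 2 ^ i.1 then 1 else 0) :=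
          mul_le_mul_of_nonneg_right (weis_le S τ hτ i.1 i.2.le x y) c1
      _ = _ := one_mul _
  have h5 : ∀ y : Fin q → α,
      ∑ x, (if InS S i.1 x y ∧ dens S i x y < τ ^ 2 ^ i.1 then (1 : ℝ) else 0) ≤
        N * τ ^ 2 ^ i.1 := by
    intro y
    have e1 := sum_coord i fun x : Fin q → α =>
      (if InS S i.1 x y ∧ dens S i x y < τ ^ 2 ^ i.1 then (1 : ℝ) else 0)
    have e2 : ∀ x : Fin q → α, (∑ u, if InS S i.1 (Function.update x i u) y ∧
        dens S i (Function.update x i u) y < τ ^ 2 ^ i.1 then (1 : ℝ) else 0) ≤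
        A * τ ^ 2 ^ i.1 := by
      intro x
      have e3 : ∀ u, dens S i (Function.update x i u) y = dens S i x y := fun u =>
        dens_congr S i _ _ y fun j hj => Function.update_of_ne hj _ _
      simp only [e3]
      by_cases c2 : dens S i x y < τ ^ 2 ^ i.1
      · have e4 : (∑ u, if InS S i.1 (Function.update x i u) y then (1 : ℝ) else 0) =
            A * dens S i x y := by
          unfold dens
          rw [mul_div_cancel₀ _ hα.ne']
        simp only [c2, and_true]
        rw [e4]
        exact mul_le_mul_of_nonneg_left c2.le hα.le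
      · simp only [c2, and_false, if_false, Finset.sum_const_zero]
        positivity
    have e5 : A * ∑ x : Fin q → α,
        (if InS S i.1 x y ∧ dens S i x y < τ ^ 2 ^ i.1 then (1 : ℝ) else 0) ≤
        A * (N * τ ^ 2 ^ i.1) := by
      rw [hA, ← e1]
      refine (Finset.sum_le_sum fun x _ => e2 x).trans (le_of_eq ?_)
      rw [Finset.sum_const, Finset.card_univ, nsmul_eq_mul]
      ring
    exact le_of_mul_le_mul_left e5 hα
  have h6 : τ ^ (2 ^ i.1 - 1) * ∑ x, ∑ y, weis S τ i.1 x y *
        (if InS S i.1 x y ∧ dens S i x y < τ ^ 2 ^ i.1 then 1 else 0) ≤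
      τ ^ (2 ^ i.1 - 1) * (τ * N ^ 2) := by
    refine h4.trans ((Finset.sum_le_sum fun y _ => h5 y).trans (le_of_eq ?_))
    rw [Finset.sum_const, Finset.card_univ, nsmul_eq_mul]
    have e1 : τ ^ 2 ^ i.1 = τ ^ (2 ^ i.1 - 1) * τ := by
      rw [← pow_succ]
      congr 1
      have : 1 ≤ 2 ^ i.1 := Nat.one_le_two_pow
      omega
    rw [e1]
    ring
  exact le_of_mul_le_mul_left h6 hτi'

/-- The unit vertices. -/
def uni (j : Fin q) : Fin q → Bool := fun i => decide (i = j)

omit [Fintype α] [Nonempty α] in
lemma inS_full (S : (Fin q → α) → Prop) (hS : BoxClosed S) (x y : Fin q → α) :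
    InS S q x y ↔ ∀ ω : Fin q → Bool, ω ≠ (fun _ => false) → S (mix ω x y) := by
  constructor
  · intro H ω _
    exact H ω fun j hj => absurd j.2 (not_lt.mpr hj)
  · intro H ω _
    by_cases hω : ω = fun _ => false
    · have h1 := hS (fun i b => if b = true then y i else x i) (by
        rintro ω' ⟨i, hi⟩
        refine H ω' ?_
        rintro rfl
        exact Bool.noConfusion hi)
      rw [hω]
      exact h1
    · exact H ω hω

open Classical in
/-- The last sum is small. -/
lemma psi_final (S : (Fin q → α) → Prop) (hS : BoxClosed S) (τ : ℝ) (hτ : 0 < τ)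
    (F : (Fin q → α) → ℝ) (hF : ∀ x, |F x| ≤ 1) (β : ℝ) (hβ0 : 0 ≤ β)
    (hβ : |BI fun _ : Fin q → Bool => F| ≤ β ^ 2 ^ q) :
    τ ^ (2 ^ q - 1) * |psi S τ F q| ≤ β * Fintype.card (Fin q → α) ^ 2 := by
  have hNpos : (0 : ℝ) < Fintype.card (Fin q → α) := by exact_mod_cast Fintype.card_pos
  set N : ℝ := (Fintype.card (Fin q → α) : ℝ) with hN
  -- the factors
  let a : (Fin q → α) → (Fin q → Bool) → (Fin q → α) → ℝ := fun y ω x =>
    ∏ j : Fin q, if ω = uni j then τ ^ 2 ^ j.1 * wei S τ j x y else 1
  let g : (Fin q → α) → (Fin q → Bool) → (Fin q → α) → ℝ := fun y ω x =>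
    (if ω = (fun _ => false) then F x else if S (mix ω x y) then 1 else 0) * a y ω x
  have ha0 : ∀ y ω x, 0 ≤ a y ω x := by
    intro y ω x
    refine Finset.prod_nonneg fun j _ => ?_
    by_cases h : ω = uni j
    · rw [if_pos h]
      exact mul_nonneg (by positivity) (wei_nonneg S τ j x y)
    · rw [if_neg h]
      norm_num
  have ha1 : ∀ y ω x, a y ω x ≤ 1 := by
    intro y ω x
    refine Finset.prod_le_one (fun j _ => ?_) fun j _ => ?_
    · by_cases h : ω = uni j
      · rw [if_pos h]
        exact mul_nonneg (by positivity) (wei_nonneg S τ j x y)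
      · rw [if_neg h]
        norm_num
    · by_cases h : ω = uni j
      · rw [if_pos h]
        exact wei_le S τ hτ j x y
      · rw [if_neg h]
  have hg : ∀ y ω x, |g y ω x| ≤ 1 := by
    intro y ω x
    have h1 : |(if ω = (fun _ => false) then F x else if S (mix ω x y) then 1 else 0)| ≤ 1 := by
      split_ifs
      · exact hF x
      · simp
      · simp
    show |_ * a y ω x| ≤ 1
    rw [abs_mul, abs_of_nonneg (ha0 y ω x)]
    calc _ ≤ 1 * 1 := mul_le_mul h1 (ha1 y ω x) (ha0 y ω x) (by norm_num)
      _ = 1 := one_mul 1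
  have hind : ∀ y ω x x', (∀ i, ω i = false → x i = x' i) → g y ω x = g y ω x' := by
    intro y ω x x' h
    have h1 : a y ω x = a y ω x' := by
      refine Finset.prod_congr rfl fun j _ => ?_
      by_cases hj : ω = uni j
      · rw [if_pos hj, if_pos hj]
        unfold wei
        rw [dens_congr S j x x' y fun l hl => h l (by
          rw [hj]
          exact decide_eq_false hl)]
      · rw [if_neg hj, if_neg hj]
    show _ * a y ω x = _ * a y ω x'
    rw [h1]
    by_cases hω : ω = fun _ => false
    · have : x = x' := funext fun i => h i (by rw [hω])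
      rw [this]
    · rw [if_neg hω, if_neg hω]
      have : mix ω x y = mix ω x' y := by
        funext i
        unfold mix
        by_cases hi : ω i = true
        · rw [if_pos hi, if_pos hi]
        · rw [if_neg hi, if_neg hi]
          exact h i (by simpa using hi)
      rw [this]
  -- the product
  have hprod : ∀ x y : Fin q → α, ∏ ω, g y ω x = τ ^ (2 ^ q - 1) *
      (F x * (weis S τ q x y * if InS S q x y then 1 else 0)) := by
    intro x y
    have e1 : ∏ ω, a y ω x = τ ^ (2 ^ q - 1) * weis S τ q x y := by
      show ∏ ω, ∏ j : Fin q, (if ω = uni j then τ ^ 2 ^ j.1 * wei S τ j x y else 1) = _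
      rw [Finset.prod_comm]
      have e2 : ∀ j : Fin q, ∏ ω : Fin q → Bool,
          (if ω = uni j then τ ^ 2 ^ j.1 * wei S τ j x y else 1) =
          τ ^ 2 ^ j.1 * wei S τ j x y := by
        intro j
        rw [Finset.prod_ite_eq', if_pos (Finset.mem_univ _)]
      rw [Finset.prod_congr rfl fun j _ => e2 j, Finset.prod_mul_distrib,
        Finset.prod_pow_eq_pow_sum]
      have e3 : ∑ j : Fin q, 2 ^ j.1 = 2 ^ q - 1 := by
        rw [Fin.sum_univ_eq_sum_range (fun i => 2 ^ i) q, Nat.geomSum_eq (by norm_num)]
        simp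
      rw [e3]
      unfold weis
      congr 1
      refine Finset.prod_congr rfl fun j _ => ?_
      rw [if_pos j.2]
    have e4 : ∏ ω : Fin q → Bool,
        (if ω = (fun _ => false) then F x else if S (mix ω x y) then 1 else 0) =
        F x * if InS S q x y then 1 else 0 := by
      rw [← Finset.mul_prod_erase univ _ (Finset.mem_univ fun _ : Fin q => false), if_pos rfl]
      congr 1
      by_cases hin : InS S q x y
      · rw [if_pos hin]
        refine Finset.prod_eq_one fun ω hω => ?_
        have hne := Finset.ne_of_mem_erase hω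
        rw [if_neg hne, if_pos ((inS_full S hS x y).mp hin ω hne)]
      · rw [if_neg hin]
        rw [inS_full S hS] at hin
        push Not at hin
        obtain ⟨ω, hne, hω⟩ := hin
        refine Finset.prod_eq_zero (Finset.mem_erase.mpr ⟨hne, Finset.mem_univ ω⟩) ?_
        rw [if_neg hne, if_neg hω]
    show ∏ ω, (_ * a y ω x) = _
    rw [Finset.prod_mul_distrib, e1, e4]
    ring
  -- the bound for fixed `y`
  have hy : ∀ y, |∑ x, ∏ ω, g y ω x| ≤ β * N := by
    intro y
    have h1 := gcs_indep (g y) (hg y) (hind y)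
    have h2 : g y (fun _ => false) = F := by
      funext x
      show (if (fun _ : Fin q => false) = (fun _ => false) then F x else _) *
        a y (fun _ => false) x = F x
      rw [if_pos rfl]
      have : a y (fun _ => false) x = 1 := by
        refine Finset.prod_eq_one fun j _ => ?_
        rw [if_neg]
        intro h
        have := congrFun h j
        simp [uni] at this
      rw [this, mul_one]
    rw [h2, Fintype.card_fin] at h1
    have h3 : |(∑ x, ∏ ω, g y ω x) / N| ≤ β :=
      le_of_pow_le_pow_left₀ (by positivity) hβ0 (h1.trans hβ)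
    rw [abs_div, abs_of_pos hNpos, div_le_iff₀ hNpos] at h3
    exact h3
  have hτp : 0 < τ ^ (2 ^ q - 1) := by positivity
  have h1 : τ ^ (2 ^ q - 1) * psi S τ F q = ∑ y, ∑ x, ∏ ω, g y ω x := by
    rw [Finset.sum_comm]
    unfold psi
    rw [Finset.mul_sum]
    refine Finset.sum_congr rfl fun x _ => ?_
    rw [Finset.mul_sum]
    refine Finset.sum_congr rfl fun y _ => ?_
    rw [hprod]
  calc τ ^ (2 ^ q - 1) * |psi S τ F q| = |τ ^ (2 ^ q - 1) * psi S τ F q| := by
        rw [abs_mul, abs_of_pos hτp]
    _ = |∑ y, ∑ x, ∏ ω, g y ω x| := by rw [h1]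
    _ ≤ ∑ y, |∑ x, ∏ ω, g y ω x| := Finset.abs_sum_le_sum_abs _ _
    _ ≤ ∑ _y : Fin q → α, β * N := Finset.sum_le_sum fun y _ => hy y
    _ = β * N ^ 2 := by
        rw [Finset.sum_const, Finset.card_univ, nsmul_eq_mul]
        ring

open Classical in
/-- **Closed sets do not correlate with functions of small box norm.** -/
theorem closed_corr (S : (Fin q → α) → Prop) (hS : BoxClosed S) (τ : ℝ) (hτ : 0 < τ)
    (F : (Fin q → α) → ℝ) (hF : ∀ x, |F x| ≤ 1)
    (hβ : |BI fun _ : Fin q → Bool => F| ≤ (τ ^ 2 ^ q) ^ 2 ^ q) :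
    |∑ x, if S x then F x else 0| ≤ (q + 1) * τ * Fintype.card (Fin q → α) := by
  have hNpos : (0 : ℝ) < Fintype.card (Fin q → α) := by exact_mod_cast Fintype.card_pos
  set N : ℝ := (Fintype.card (Fin q → α) : ℝ) with hN
  -- the first sum
  have h0 : psi S τ F 0 = N * ∑ x, if S x then F x else 0 := by
    unfold psi
    rw [Finset.mul_sum]
    refine Finset.sum_congr rfl fun x _ => ?_
    have e1 : ∀ y : Fin q → α, F x * (weis S τ 0 x y * if InS S 0 x y then 1 else 0) =
        if S x then F x else 0 := by
      intro y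
      have e2 : InS S 0 x y ↔ S x := by
        constructor
        · intro H
          exact H (fun _ => false) fun _ _ => rfl
        · intro H ω hω
          have : mix ω x y = x := by
            funext i
            unfold mix
            rw [hω i (Nat.zero_le _)]
            rfl
          rw [this]
          exact H
      rw [weis_zero, one_mul]
      by_cases hx : S x
      · rw [if_pos (e2.mpr hx), if_pos hx, mul_one]
      · rw [if_neg (fun h => hx (e2.mp h)), if_neg hx, mul_zero]
    rw [Finset.sum_congr rfl fun y _ => e1 y, Finset.sum_const, Finset.card_univ, nsmul_eq_mul]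
  -- the last sum
  have hlast : |psi S τ F q| ≤ τ * N ^ 2 := by
    have h1 := psi_final S hS τ hτ F hF (τ ^ 2 ^ q) (by positivity) hβ
    have hτp : 0 < τ ^ (2 ^ q - 1) := by positivity
    have e1 : τ ^ 2 ^ q = τ ^ (2 ^ q - 1) * τ := by
      rw [← pow_succ]
      congr 1
      have : 1 ≤ 2 ^ q := Nat.one_le_two_pow
      omega
    rw [e1, mul_assoc] at h1
    exact le_of_mul_le_mul_left h1 hτp
  -- the steps
  have hsteps : ∀ i : ℕ, i ≤ q → |psi S τ F 0 - psi S τ F i| ≤ i * (τ * N ^ 2) := by
    intro i
    induction i with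
    | zero => intro _; simp
    | succ i ih =>
      intro hi
      have h1 := ih (by omega)
      have h2 := psi_step S τ hτ F hF ⟨i, hi⟩
      simp only at h2
      rw [← hN] at h2
      have h3 : psi S τ F 0 - psi S τ F (i + 1) =
          (psi S τ F 0 - psi S τ F i) + (psi S τ F i - psi S τ F (i + 1)) := by ring
      rw [h3]
      refine (abs_add_le _ _).trans ?_
      push_cast
      linarith
  have h1 := hsteps q le_rfl
  have h2 : |psi S τ F 0| ≤ (q + 1) * τ * N * N := by
    have h3 : psi S τ F 0 = (psi S τ F 0 - psi S τ F q) + psi S τ F q := by ring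
    rw [h3]
    refine (abs_add_le _ _).trans ?_
    calc |psi S τ F 0 - psi S τ F q| + |psi S τ F q| ≤ q * (τ * N ^ 2) + τ * N ^ 2 :=
          add_le_add h1 hlast
      _ = (q + 1) * τ * N * N := by ring
  rw [h0, abs_mul, abs_of_pos hNpos] at h2
  have h3 : N * |∑ x, if S x then F x else 0| ≤ N * ((q + 1) * τ * N) := by linarith
  exact le_of_mul_le_mul_left h3 hNpos

end Pool.Agent.KCL
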