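import Pool.Agent.KCL.Defs
import Pool.Agent.KCL.ClosedCorr
import Pool.Agent.Helper32.QS.Density
import Pool.Agent.SW.Restr

/-!
# Tests of functions with shallow decision trees are closed
-/

set_option autoImplicit false
set_option linter.unusedSectionVars false

namespace Pool.Agent.KCL

open Finset Pool.Agent.Helper32.QS Pool.Agent.SW

/-! ## degrees -/

section degree

variable {V : Type} [Fintype V] [DecidableEq V] {R : Type} [CommRing R]

/-- The function `f` on the Boolean cube has degree at most `d` over `R`. -/
def LDR (R : Type) [CommRing R] (d : ℕ) (f : (V → Bool) → R) : Prop :=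
  (fun z : Finset V => f fun i => decide (i ∈ z)) ∈ lowDeg R V d

lemma LDR.mono {d d' : ℕ} {f : (V → Bool) → R} (h : LDR R d f) (hd : d ≤ d') : LDR R d' f :=
  lowDeg_mono hd h

lemma ldr_const (d : ℕ) (c : R) : LDR R d fun _ : V → Bool => c :=
  const_mem_lowDeg d c

lemma LDR.mul {d d' : ℕ} {f g : (V → Bool) → R} (hf : LDR R d f) (hg : LDR R d' g) :
    LDR R (d + d') fun x => f x * g x :=
  mul_mem_lowDeg hf hg

lemma LDR.add {d : ℕ} {f g : (V → Bool) → R} (hf : LDR R d f) (hg : LDR R d g) :
    LDR R d fun x => f x + g x :=
  Submodule.add_mem _ hf hg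

lemma LDR.smul {d : ℕ} {f : (V → Bool) → R} (c : R) (hf : LDR R d f) :
    LDR R d fun x => c * f x :=
  Submodule.smul_mem _ c hf

lemma LDR.prod {U : Type} {r : ℕ} (S : Finset U) (f : U → (V → Bool) → R)
    (hf : ∀ u ∈ S, LDR R r (f u)) : LDR R (S.card * r) fun x => ∏ u ∈ S, f u x := by
  have h := prod_mem_lowDeg (R := R) (V := V) S (fun u z => f u fun i => decide (i ∈ z)) hf
  unfold LDR
  have h2 : (∏ u ∈ S, fun z : Finset V => f u fun i => decide (i ∈ z)) =
      fun z : Finset V => ∏ u ∈ S, f u fun i => decide (i ∈ z) := by
    funext z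
    rw [Finset.prod_apply]
  rw [← h2]
  exact h

lemma LDR.sum {U : Type} {d : ℕ} (S : Finset U) (f : U → (V → Bool) → R)
    (hf : ∀ u ∈ S, LDR R d (f u)) : LDR R d fun x => ∑ u ∈ S, f u x := by
  have h := sum_mem_lowDeg (R := R) (V := V) S (fun u z => f u fun i => decide (i ∈ z)) hf
  unfold LDR
  have h2 : (∑ u ∈ S, fun z : Finset V => f u fun i => decide (i ∈ z)) =
      fun z : Finset V => ∑ u ∈ S, f u fun i => decide (i ∈ z) := by
    funext z
    rw [Finset.sum_apply]
  rw [← h2]
  exact h

lemma ldr_var (i : V) : LDR R 1 fun x : V → Bool => if x i = true then (1 : R) else 0 := by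
  unfold LDR
  have h := mem_lit (R := R) i
  have h2 : (fun z : Finset V => if (fun j => decide (j ∈ z)) i = true then (1 : R) else 0) =
      fun z : Finset V => if i ∈ z then (1 : R) else 0 := by
    funext z
    by_cases hz : i ∈ z
    · simp [hz]
    · simp [hz]
  rw [h2]
  exact h

/-- The indicator of a function with a decision tree of depth `T` has degree at most `T`. -/
lemma ldr_dt {T : ℕ} : ∀ {f : (V → Bool) → Bool}, DTle T f →
    LDR R T fun x => if f x = true then (1 : R) else 0 := by
  induction T with
  | zero =>
    rintro f ⟨b, hb⟩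
    have : (fun x => if f x = true then (1 : R) else 0) = fun _ => if b = true then 1 else 0 := by
      funext x
      rw [hb x]
    rw [this]
    exact ldr_const _ _
  | succ T ih =>
    rintro f (⟨b, hb⟩ | ⟨i, hi⟩)
    · have : (fun x => if f x = true then (1 : R) else 0) = fun _ => if b = true then 1 else 0 := by
        funext x
        rw [hb x]
      rw [this]
      exact ldr_const _ _
    · have h1 := ih (hi true)
      have h0 := ih (hi false)
      have hv := ldr_var (R := R) i
      have h2 : (fun x => if f x = true then (1 : R) else 0) = fun x =>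
          (if x i = true then (1 : R) else 0) *
            (if f (Function.update x i true) = true then 1 else 0) +
          ((if f (Function.update x i false) = true then (1 : R) else 0) +
            (-1) * ((if x i = true then (1 : R) else 0) *
              (if f (Function.update x i false) = true then 1 else 0))) := by
        funext x
        cases hx : x i
        · have : Function.update x i false = x := by rw [← hx, Function.update_eq_self]
          rw [this]
          simp
        · have : Function.update x i true = x := by rw [← hx, Function.update_eq_self]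
          rw [this]
          by_cases hf : f (Function.update x i false) = true <;> simp [hf]
      rw [h2]
      have e1 := hv.mul h1
      have e2 := (hv.mul h0).smul (-1)
      have e3 := h0.mono (show T ≤ 1 + T by omega)
      have := e1.add (e3.add e2)
      rwa [add_comm 1 T] at this

/-- Polynomials in functions of low degree. -/
lemma ldr_polyEval {U : Type} [Fintype U] {r : ℕ} (h : U → (V → Bool) → Bool)
    (hh : ∀ u, LDR R r fun x => if h u x = true then (1 : R) else 0) (D : ℕ)
    (c : Finset U → R) : LDR R (D * r) fun x => polyEval D c fun u => h u x := by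
  classical
  unfold polyEval
  refine LDR.sum univ _ fun S _ => ?_
  by_cases hS : S.card ≤ D
  · have h1 := (LDR.prod S (fun u x => if h u x = true then (1 : R) else 0)
      fun u _ => hh u).smul (c S)
    refine (congrArg (LDR R (D * r)) (funext fun x => ?_)).mp
      (h1.mono (Nat.mul_le_mul_right r hS))
    by_cases h3 : ∀ u ∈ S, h u x = true
    · rw [if_pos ⟨hS, h3⟩, Finset.prod_eq_one fun u hu => if_pos (h3 u hu), mul_one]
    · rw [if_neg fun h4 => h3 h4.2]
      push Not at h3
      obtain ⟨u, hu, hux⟩ := h3
      rw [Finset.prod_eq_zero hu (if_neg hux), mul_zero]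
  · refine (congrArg (LDR R (D * r)) (funext fun x => ?_)).mp (ldr_const (D * r) (0 : R))
    rw [if_neg fun h4 => hS h4.1]

end degree

/-! ## closed sets -/

section closed

variable {V : Type} [Fintype V] [DecidableEq V] {q : ℕ}

/-- `H` is closed under completing cubes. -/
def CubeClosed (q : ℕ) (H : (V → Bool) → Prop) : Prop :=
  ∀ (x : V → Bool) (B : Fin q → Finset V), (∀ k l, k ≠ l → Disjoint (B k) (B l)) →
    (∀ K : Finset (Fin q), K.Nonempty → H (Helper32.QS.flip x (K.biUnion B))) → H x

/-- Alternating sums over cubes of functions of small degree vanish. -/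
lemma alt_cube {d : ℕ} {F : (V → Bool) → ℤ} (hF : LDR ℤ d F) (hd : d < q) (x : V → Bool)
    (B : Fin q → Finset V) (hB : ∀ k l, k ≠ l → Disjoint (B k) (B l)) :
    ∑ K : Finset (Fin q), (-1 : ℤ) ^ K.card * F (Helper32.QS.flip x (K.biUnion B)) = 0 := by
  classical
  set A : Finset V := univ.filter fun i => x i = true with hA
  have hfl : ∀ K : Finset (Fin q), (fun i => decide (i ∈ blk A B K)) =
      Helper32.QS.flip x (K.biUnion B) := by
    intro K
    funext i
    simp only [blk, Helper32.QS.flip, mem_symmDiff, hA, Finset.mem_filter, Finset.mem_univ, true_and]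
    by_cases h : i ∈ K.biUnion B <;> cases hx : x i <;> simp [h]
  have h1 := blk_mem_lowDeg A B hB hF
  have h2 := alt_sum_eq_zero h1 (univ : Finset (Fin q)) (by
    rw [Finset.card_univ, Fintype.card_fin]
    exact hd)
  rw [Finset.powerset_univ] at h2
  simp only [hfl] at h2
  exact h2

/-- Group tests are closed. -/
lemma closed_group {U G : Type} [Fintype U] [AddCommGroup G] {r e : ℕ} (h : U → (V → Bool) → Bool)
    (hh : ∀ u, LDR ℤ r fun x => if h u x = true then (1 : ℤ) else 0) (c : Finset U → G)
    (hq : e * r < q) : CubeClosed q fun x => polyEval e c (fun u => h u x) = 0 := by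
  classical
  intro x B hB hK
  -- the alternating sum vanishes
  have h1 : ∑ K : Finset (Fin q), ((-1 : ℤ) ^ K.card) •
      polyEval e c (fun u => h u (Helper32.QS.flip x (K.biUnion B))) = 0 := by
    unfold polyEval
    simp only [Finset.smul_sum]
    rw [Finset.sum_comm]
    refine Finset.sum_eq_zero fun S _ => ?_
    by_cases hS : S.card ≤ e
    · have h2 := alt_cube (q := q) ((LDR.prod S (fun u x => if h u x = true then (1 : ℤ) else 0)
        fun u _ => hh u)) (lt_of_le_of_lt (Nat.mul_le_mul_right r hS) hq) x B hB
      have h3 : (0 : G) = ∑ K : Finset (Fin q), ((-1 : ℤ) ^ K.card * ∏ u ∈ S,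
            if h u (Helper32.QS.flip x (K.biUnion B)) = true then (1 : ℤ) else 0) • c S := by
        rw [← Finset.sum_smul, h2, zero_smul]
      refine Eq.trans (Finset.sum_congr rfl fun K _ => ?_) h3.symm
      · by_cases h4 : ∀ u ∈ S, h u (Helper32.QS.flip x (K.biUnion B)) = true
        · rw [if_pos ⟨hS, h4⟩, Finset.prod_eq_one fun u hu => if_pos (h4 u hu), mul_one]
        · rw [if_neg fun h5 => h4 h5.2]
          push Not at h4
          obtain ⟨u, hu, hux⟩ := h4
          rw [Finset.prod_eq_zero hu (if_neg hux), mul_zero, smul_zero, zero_smul]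
    · refine Finset.sum_eq_zero fun K _ => ?_
      rw [if_neg fun h5 => hS h5.1, smul_zero]
  rw [Finset.sum_eq_single ∅] at h1
  · simpa using h1
  · intro K _ hne
    have := hK K (Finset.nonempty_iff_ne_empty.mpr hne)
    rw [this, smul_zero]
  · intro h2
    exact absurd (Finset.mem_univ _) h2

/-- Arbitrary functions of few polynomials modulo `m` are closed. -/
lemma closed_local {U : Type} [Fintype U] {m w D r : ℕ} (hm : m ≠ 0)
    (h : U → (V → Bool) → Bool)
    (hh : ∀ u, LDR (ZMod m) r fun x => if h u x = true then (1 : ZMod m) else 0)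
    (g : (U → Bool) → Bool) (hg : DegLocal m w D g)
    (hq : ZB (w * (m * (D * r))) (D * r) m.primeFactorsList.length ≤ q) :
    CubeClosed q fun x => g (fun u => h u x) = true := by
  obtain ⟨c, A, hcA⟩ := hg
  intro x B hB hK
  have hiso := noIso_of_LD (m := m) (d := D * r) (w := w) hm (D := q)
    (fun (s : Fin w) (x : V → Bool) => polyEval D (c s) fun u => h u x)
    (fun s => ldr_polyEval h hh D (c s)) hq
  obtain ⟨K, hKne, hKeq⟩ := hiso x B hB
  have h1 : g (fun u => h u (Helper32.QS.flip x (K.biUnion B))) = true := hK K hKne
  show g (fun u => h u x) = true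
  rw [hcA] at h1 ⊢
  rw [← h1]
  exact congrArg A hKeq.symm

/-- Conjunctions of tests are closed. -/
lemma closed_tests {U : Type} [Fintype U] {m w D e r : ℕ} (hm : m ≠ 0)
    (h : U → (V → Bool) → Bool) (hh : ∀ u, DTle r (h u))
    (P : (U → Bool) → Bool) (hP : AndOfTests m w D e P)
    (hq : ZB (w * (m * (D * r))) (D * r) m.primeFactorsList.length ≤ q) (hq' : e * r < q) :
    CubeClosed q fun x => P (fun u => h u x) = true := by
  obtain ⟨𝒞, h𝒞, hP⟩ := hP
  intro x B hB hK
  show P _ = true
  rw [hP]
  intro g hg
  have hK' : ∀ K : Finset (Fin q), K.Nonempty →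
      g (fun u => h u (Helper32.QS.flip x (K.biUnion B))) = true := by
    intro K hKne
    exact (hP _).mp (hK K hKne) g hg
  rcases h𝒞 g hg with h1 | ⟨G, _, c, hc⟩
  · exact closed_local hm h (fun u => ldr_dt (hh u)) g h1 hq x B hB hK'
  · rw [hc]
    refine closed_group h (fun u => ldr_dt (hh u)) c hq' x B hB fun K hKne => ?_
    exact (hc _).mp (hK' K hKne)

/-! ## boxes -/

variable {J : Type}

/-- Variables given by the parties, and constant variables. -/
def emb (own : V → Option (Fin q × J)) (cst : V → Bool) (y : Fin q → J → Bool) : V → Bool :=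
  fun v => match own v with
  | some p => y p.1 p.2
  | none => cst v

/-- Closed sets are closed under completing boxes. -/
lemma boxClosed_emb (own : V → Option (Fin q × J)) (cst : V → Bool) (H : (V → Bool) → Prop)
    (hH : CubeClosed q H) : BoxClosed fun y => H (emb own cst y) := by
  classical
  intro z hz
  -- the blocks
  let B : Fin q → Finset V := fun l => univ.filter fun v =>
    ∃ j, own v = some (l, j) ∧ z l false j ≠ z l true j
  have hBmem : ∀ l v, v ∈ B l ↔ ∃ j, own v = some (l, j) ∧ z l false j ≠ z l true j := by
    intro l v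
    simp only [B, Finset.mem_filter, Finset.mem_univ, true_and]
  have hflip : ∀ K : Finset (Fin q), Helper32.QS.flip (emb own cst (vtx z fun _ => false)) (K.biUnion B) =
      emb own cst (vtx z fun i => decide (i ∈ K)) := by
    intro K
    funext v
    rcases hown : own v with _ | ⟨i, j⟩
    · have h1 : v ∉ K.biUnion B := by
        rw [Finset.mem_biUnion]
        rintro ⟨l, -, hl⟩
        rw [hBmem] at hl
        obtain ⟨j, hj, -⟩ := hl
        rw [hown] at hj
        exact Option.noConfusion rfl (heq_of_eq hj)
      rw [flip_apply_of_notMem _ h1]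
      simp only [emb, hown]
    · have e1 : emb own cst (vtx z fun _ => false) v = z i false j := by
        simp only [emb, hown, vtx]
      have e2 : emb own cst (vtx z fun i => decide (i ∈ K)) v = z i (decide (i ∈ K)) j := by
        simp only [emb, hown, vtx]
      rw [e2]
      have hmem : v ∈ K.biUnion B ↔ i ∈ K ∧ z i false j ≠ z i true j := by
        rw [Finset.mem_biUnion]
        constructor
        · rintro ⟨l, hl, hv⟩
          rw [hBmem] at hv
          obtain ⟨j', hj', hne⟩ := hv
          rw [hown] at hj'
          have h3 := Option.some.inj hj'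
          have h4 : i = l := congrArg Prod.fst h3
          have h5 : j = j' := congrArg Prod.snd h3
          subst h4
          subst h5
          exact ⟨hl, hne⟩
        · rintro ⟨hi, hne⟩
          exact ⟨i, hi, (hBmem i v).mpr ⟨j, hown, hne⟩⟩
      by_cases hv : v ∈ K.biUnion B
      · rw [flip_apply_of_mem _ hv, e1]
        obtain ⟨hi, hne⟩ := hmem.mp hv
        rw [decide_eq_true hi]
        cases h3 : z i false j <;> cases h4 : z i true j <;> simp_all
      · rw [flip_apply_of_notMem _ hv, e1]
        by_cases hi : i ∈ K
        · rw [decide_eq_true hi]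
          by_contra hne
          exact hv (hmem.mpr ⟨hi, hne⟩)
        · rw [decide_eq_false hi]
  refine hH _ B ?_ fun K hK => ?_
  · intro k l hkl
    rw [Finset.disjoint_left]
    intro v hv hv'
    rw [hBmem] at hv hv'
    obtain ⟨j, hj, -⟩ := hv
    obtain ⟨j', hj', -⟩ := hv'
    rw [hj] at hj'
    exact hkl (congrArg Prod.fst (Option.some.inj hj'))
  · rw [hflip]
    obtain ⟨i, hi⟩ := hK
    exact hz _ ⟨i, decide_eq_true hi⟩

end closed

end Pool.Agent.KCL
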