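import Pool.Agent.KCL.PoolR
import Pool.Agent.KCL.Tests
import Pool.Agent.KCL.Gip

/-!
# The generalised inner product below a balanced restriction
-/

set_option autoImplicit false
set_option linter.unusedSectionVars false

namespace Pool.Agent.KCL

open Finset Pool.Agent.SW

variable {a b n q : ℕ}

/-- The variables of a row. -/
def rowSet (a b : ℕ) {n : ℕ} (hn : n ≤ a) (j : Fin n) : Finset (Fin a × Fin b) :=
  univ.image fun c : Fin b => (Fin.castLE hn j, c)

lemma pair_inj (j : Fin a) : Function.Injective fun c : Fin b => (j, c) := fun _ _ h =>
  congrArg Prod.snd h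

lemma card_rowSet (hn : n ≤ a) (j : Fin n) : (rowSet a b hn j).card = b := by
  unfold rowSet
  rw [Finset.card_image_of_injective _ (pair_inj _), Finset.card_univ, Fintype.card_fin]

lemma cnt_rowSet (hn : n ≤ a) (ρ : Fin a × Fin b → Option Bool) (j : Fin n) (u : Bool) :
    cnt ρ (rowSet a b hn j) u =
      (univ.filter fun c : Fin b => ρ (Fin.castLE hn j, c) = some u).card := by
  classical
  unfold cnt rowSet
  rw [Finset.filter_image, Finset.card_image_of_injective _ (pair_inj _)]

lemma card_filter_inst {α : Type} (s : Finset α) (P : α → Prop) (d1 d2 : DecidablePred P) :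
    (@Finset.filter α P d1 s).card = (@Finset.filter α P d2 s).card := by
  rw [Subsingleton.elim d1 d2]

/-- The data of a good row. -/
lemma exists_row (f : Fin b → Option Bool)
    (h1 : (univ.filter fun c => f c = some true).card + q ≤ (b + 1) / 2)
    (h2 : (univ.filter fun c => f c = some false).card + (b + 1) / 2 ≤ b) :
    ∃ (φ : Fin q → Fin b) (E : Finset (Fin b)), Function.Injective φ ∧ (∀ i, f (φ i) = none) ∧
      (∀ c ∈ E, f c = none ∧ ∀ i, φ i ≠ c) ∧
      (univ.filter fun c => f c = some true).card + E.card + q = (b + 1) / 2 := by
  classical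
  set T := univ.filter fun c => f c = some true with hT
  set Z := univ.filter fun c => f c = some false with hZ
  set F := univ.filter fun c => f c = none with hF
  have hsum : T.card + Z.card + F.card = b := by
    have h3 : (univ : Finset (Fin b)) = (T ∪ Z) ∪ F := by
      ext c
      simp only [hT, hZ, hF, Finset.mem_univ, Finset.mem_union, Finset.mem_filter, true_and,
        true_iff]
      rcases h : f c with _ | u
      · right; rfl
      · left
        cases u
        · right; rfl
        · left; rfl
    have h4 : Disjoint T Z := by
      rw [Finset.disjoint_left]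
      intro c hc hc'
      simp only [hT, hZ, Finset.mem_filter, Finset.mem_univ, true_and] at hc hc'
      rw [hc] at hc'
      simp at hc'
    have h5 : Disjoint (T ∪ Z) F := by
      rw [Finset.disjoint_left]
      intro c hc hc'
      simp only [hT, hZ, hF, Finset.mem_filter, Finset.mem_univ, true_and,
        Finset.mem_union] at hc hc'
      rw [hc'] at hc
      simp at hc
    have h6 := congrArg Finset.card h3
    rw [Finset.card_univ, Fintype.card_fin, Finset.card_union_of_disjoint h5,
      Finset.card_union_of_disjoint h4] at h6
    omega
  obtain ⟨A, hA, hAcard⟩ := Finset.exists_subset_card_eq (s := F) (n := q) (by omega)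
  obtain ⟨E, hE, hEcard⟩ := Finset.exists_subset_card_eq (s := F \ A)
    (n := (b + 1) / 2 - q - T.card) (by
      rw [Finset.card_sdiff_of_subset hA]
      omega)
  let e : A ≃ Fin q := A.equivFinOfCardEq hAcard
  refine ⟨fun i => (e.symm i).1, E, ?_, ?_, ?_, by omega⟩
  · intro i i' h
    exact e.symm.injective (Subtype.ext h)
  · intro i
    have := hA (e.symm i).2
    simp only [hF, Finset.mem_filter, Finset.mem_univ, true_and] at this
    exact this
  · intro c hc
    have h3 := Finset.mem_sdiff.mp (hE hc)
    refine ⟨?_, fun i hi => ?_⟩
    · have h4 := h3.1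
      simp only [hF, Finset.mem_filter, Finset.mem_univ, true_and] at h4
      exact h4
    · rw [← hi] at h3
      exact h3.2 (e.symm i).2

/-- **The embedding.** -/
theorem exists_embedding (hn : n ≤ a) (ρ : Fin a × Fin b → Option Bool)
    (hρ : ∀ j : Fin n, cnt ρ (rowSet a b hn j) true + q ≤ (b + 1) / 2 ∧
      cnt ρ (rowSet a b hn j) false + (b + 1) / 2 ≤ b) :
    ∃ (own : Fin a × Fin b → Option (Fin q × Fin n)) (cst : Fin a × Fin b → Bool) (σ : Prop),
      (∀ y, app ρ (emb own cst y) = emb own cst y) ∧
      ∀ y : Fin q → Fin n → Bool, (Odd (univ.filter fun j : Fin a =>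
        b ≤ 2 * (univ.filter fun c : Fin b => emb own cst y (j, c) = true).card).card ↔
          (Odd (rowsAll y) ↔ σ)) := by
  classical
  have hrow : ∀ j : Fin n, ∃ (φ : Fin q → Fin b) (E : Finset (Fin b)), Function.Injective φ ∧
      (∀ i, ρ (Fin.castLE hn j, φ i) = none) ∧
      (∀ c ∈ E, ρ (Fin.castLE hn j, c) = none ∧ ∀ i, φ i ≠ c) ∧
      (univ.filter fun c => ρ (Fin.castLE hn j, c) = some true).card + E.card + q =
        (b + 1) / 2 := by
    intro j
    have h := hρ j
    rw [cnt_rowSet, cnt_rowSet] at h
    exact exists_row (fun c => ρ (Fin.castLE hn j, c)) h.1 h.2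
  choose φ E hφinj hφfree hE hcard using hrow
  let own : Fin a × Fin b → Option (Fin q × Fin n) := fun v =>
    if h : v.1.1 < n then
      (if h2 : ∃ i, φ ⟨v.1.1, h⟩ i = v.2 then some (h2.choose, ⟨v.1.1, h⟩) else none)
    else none
  let cst : Fin a × Fin b → Bool := fun v => match ρ v with
    | some u => u
    | none => if h : v.1.1 < n then decide (v.2 ∈ E ⟨v.1.1, h⟩) else false
  -- computation of the owner
  have hown1 : ∀ (j : Fin n) (i : Fin q), own (Fin.castLE hn j, φ j i) = some (i, j) := by
    intro j i
    have h1 : (Fin.castLE hn j).1 < n := j.2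
    have h2 : ∃ i', φ ⟨(Fin.castLE hn j).1, h1⟩ i' = φ j i := ⟨i, rfl⟩
    show (if h : (Fin.castLE hn j).1 < n then
      (if h2 : ∃ i', φ ⟨(Fin.castLE hn j).1, h⟩ i' = φ j i then
        some (h2.choose, (⟨(Fin.castLE hn j).1, h⟩ : Fin n)) else none) else none) = _
    rw [dif_pos h1, dif_pos h2]
    have h3 : h2.choose = i := hφinj j h2.choose_spec
    rw [h3]
    rfl
  have hown2 : ∀ (j : Fin n) (c : Fin b), (∀ i, φ j i ≠ c) →
      own (Fin.castLE hn j, c) = none := by
    intro j c hc
    have h1 : (Fin.castLE hn j).1 < n := j.2
    show (if h : (Fin.castLE hn j).1 < n then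
      (if h2 : ∃ i', φ ⟨(Fin.castLE hn j).1, h⟩ i' = c then
        some (h2.choose, (⟨(Fin.castLE hn j).1, h⟩ : Fin n)) else none) else none) = _
    rw [dif_pos h1, dif_neg]
    rintro ⟨i, hi⟩
    exact hc i hi
  have hown3 : ∀ (j : Fin a) (c : Fin b), ¬ j.1 < n → own (j, c) = none := by
    intro j c hj
    show (if h : j.1 < n then
      (if h2 : ∃ i', φ ⟨j.1, h⟩ i' = c then
        some (h2.choose, (⟨j.1, h⟩ : Fin n)) else none) else none) = _
    rw [dif_neg hj]
  have hcast : ∀ (j : Fin a) (h : j.1 < n), Fin.castLE hn ⟨j.1, h⟩ = j := fun j h => rfl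
  -- owned variables are free
  have hfree : ∀ v p, own v = some p → ρ v = none := by
    rintro ⟨j, c⟩ p hp
    by_cases hj : j.1 < n
    · by_cases hc : ∃ i, φ ⟨j.1, hj⟩ i = c
      · obtain ⟨i, rfl⟩ := hc
        exact hφfree ⟨j.1, hj⟩ i
      · push Not at hc
        have := hown2 ⟨j.1, hj⟩ c hc
        rw [hcast] at this
        rw [this] at hp
        exact Option.noConfusion rfl (heq_of_eq hp)
    · rw [hown3 j c hj] at hp
      exact Option.noConfusion rfl (heq_of_eq hp)
  -- the value of a row
  have hval : ∀ (y : Fin q → Fin n → Bool) (j : Fin n),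
      (b ≤ 2 * (univ.filter fun c : Fin b => emb own cst y (Fin.castLE hn j, c) = true).card ↔
        ∀ i, y i j = true) := by
    intro y j
    set T := univ.filter fun c => ρ (Fin.castLE hn j, c) = some true with hT
    have hset : (univ.filter fun c : Fin b => emb own cst y (Fin.castLE hn j, c) = true) =
        (T ∪ E j) ∪ (univ.filter fun i => y i j = true).image (φ j) := by
      ext c
      rw [Finset.mem_filter, Finset.mem_union, Finset.mem_union, Finset.mem_image]
      simp only [Finset.mem_univ, true_and]
      by_cases hc : ∃ i, φ j i = c
      · obtain ⟨i, rfl⟩ := hc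
        have e1 : emb own cst y (Fin.castLE hn j, φ j i) = y i j := by
          simp only [emb, hown1]
        rw [e1]
        constructor
        · intro h
          exact Or.inr ⟨i, Finset.mem_filter.mpr ⟨Finset.mem_univ _, h⟩, rfl⟩
        · rintro ((h | h) | ⟨i', hi', heq⟩)
          · rw [hT, Finset.mem_filter, hφfree] at h
            simp at h
          · exact absurd rfl ((hE j _ h).2 i)
          · rw [← hφinj j heq]
            exact (Finset.mem_filter.mp hi').2
      · push Not at hc
        have e1 : emb own cst y (Fin.castLE hn j, c) = cst (Fin.castLE hn j, c) := by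
          simp only [emb, hown2 j c hc]
        rw [e1]
        have h1 : (Fin.castLE hn j).1 < n := j.2
        rcases hρc : ρ (Fin.castLE hn j, c) with _ | u
        · have e2 : cst (Fin.castLE hn j, c) = decide (c ∈ E j) := by
            simp only [cst, hρc]
            rw [dif_pos h1]
            rfl
          rw [e2]
          constructor
          · intro h
            exact Or.inl (Or.inr (of_decide_eq_true h))
          · rintro ((h | h) | ⟨i', _, heq⟩)
            · rw [hT, Finset.mem_filter, hρc] at h
              simp at h
            · exact decide_eq_true h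
            · exact absurd heq (hc i')
        · have e2 : cst (Fin.castLE hn j, c) = u := by
            simp only [cst, hρc]
          rw [e2]
          constructor
          · intro h
            left; left
            rw [hT, Finset.mem_filter, hρc, h]
            exact ⟨Finset.mem_univ _, rfl⟩
          · rintro ((h | h) | ⟨i', _, heq⟩)
            · rw [hT, Finset.mem_filter, hρc] at h
              exact Option.some.inj h.2
            · have := (hE j _ h).1
              rw [hρc] at this
              exact Option.noConfusion rfl (heq_of_eq this)
            · exact absurd heq (hc i')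
    have hd1 : Disjoint T (E j) := by
      rw [Finset.disjoint_left]
      intro c hc hc'
      have := (hE j c hc').1
      rw [hT, Finset.mem_filter, this] at hc
      simp at hc
    have hd2 : Disjoint (T ∪ E j) ((univ.filter fun i => y i j = true).image (φ j)) := by
      rw [Finset.disjoint_left]
      intro c hc hc'
      obtain ⟨i, -, rfl⟩ := Finset.mem_image.mp hc'
      rcases Finset.mem_union.mp hc with h | h
      · rw [hT, Finset.mem_filter, hφfree] at h
        simp at h
      · exact (hE j _ h).2 i rfl
    have hcardset : (univ.filter fun c : Fin b =>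
        emb own cst y (Fin.castLE hn j, c) = true).card =
        T.card + (E j).card + (univ.filter fun i => y i j = true).card := by
      rw [hset, Finset.card_union_of_disjoint hd2, Finset.card_union_of_disjoint hd1,
        Finset.card_image_of_injective _ (hφinj j)]
    have hq1 : (univ.filter fun i => y i j = true).card ≤ q := by
      refine (Finset.card_filter_le _ _).trans (le_of_eq ?_)
      rw [Finset.card_univ, Fintype.card_fin]
    have h3 : T.card + (E j).card + q = (b + 1) / 2 := hcard j
    rw [hcardset]
    constructor
    · intro h i
      have h4 : (univ.filter fun i => y i j = true).card = (univ : Finset (Fin q)).card := by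
        rw [Finset.card_univ, Fintype.card_fin]
        omega
      have h5 := (Finset.card_eq_iff_eq_univ _).mp (by
        rw [h4, Finset.card_univ] : (univ.filter fun i => y i j = true).card =
          Fintype.card (Fin q))
      have h6 : i ∈ univ.filter fun i => y i j = true := by
        rw [h5]
        exact Finset.mem_univ i
      exact (Finset.mem_filter.mp h6).2
    · intro h
      have h5 : (univ.filter fun i => y i j = true) = univ := by
        ext i
        simp [h i]
      rw [h5, Finset.card_univ, Fintype.card_fin]
      omega
  -- the other rows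
  set R₀ : ℕ := (univ.filter fun j : Fin a => ¬ j.1 < n ∧
    b ≤ 2 * (univ.filter fun c : Fin b => cst (j, c) = true).card).card with hR₀
  refine ⟨own, cst, Even R₀, ?_, ?_⟩
  · intro y
    funext v
    unfold app
    rcases hv : ρ v with _ | u
    · rfl
    · have h1 : own v = none := by
        rcases ho : own v with _ | p
        · rfl
        · rw [hfree v p ho] at hv
          exact Option.noConfusion rfl (heq_of_eq hv)
      simp only [emb, h1, cst, hv, Option.getD_some]
  · intro y
    have h1 : (univ.filter fun j : Fin a =>
        b ≤ 2 * (univ.filter fun c : Fin b => emb own cst y (j, c) = true).card).card =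
        rowsAll y + R₀ := by
      rw [← Finset.card_filter_add_card_filter_not (s := univ.filter fun j : Fin a =>
        b ≤ 2 * (univ.filter fun c : Fin b => emb own cst y (j, c) = true).card)
        (fun j : Fin a => j.1 < n)]
      congr 1
      · unfold rowsAll
        have h2 : ((univ.filter fun j : Fin a =>
            b ≤ 2 * (univ.filter fun c : Fin b => emb own cst y (j, c) = true).card).filter
              fun j : Fin a => j.1 < n) =
            (univ.filter fun j : Fin n => ∀ i, y i j = true).image (Fin.castLE hn) := by
          ext j
          rw [Finset.mem_filter, Finset.mem_filter, Finset.mem_image]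
          constructor
          · rintro ⟨⟨-, h3⟩, h4⟩
            refine ⟨⟨j.1, h4⟩, ?_, rfl⟩
            rw [Finset.mem_filter]
            exact ⟨Finset.mem_univ _, (hval y ⟨j.1, h4⟩).mp h3⟩
          · rintro ⟨j', h3, rfl⟩
            rw [Finset.mem_filter] at h3
            exact ⟨⟨Finset.mem_univ _, (hval y j').mpr h3.2⟩, j'.2⟩
        rw [h2, Finset.card_image_of_injective _ (Fin.castLE_injective hn)]
        exact card_filter_inst _ _ _ _
      · rw [hR₀, Finset.filter_filter]
        congr 1
        ext j
        rw [Finset.mem_filter, Finset.mem_filter]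
        refine and_congr_right fun _ => ?_
        have h3 : ¬ j.1 < n → ∀ c : Fin b, emb own cst y (j, c) = cst (j, c) := by
          intro hj c
          simp only [emb, hown3 j c hj]
        constructor
        · rintro ⟨h4, h5⟩
          simp only [h3 h5] at h4
          exact ⟨h5, h4⟩
        · rintro ⟨h4, h5⟩
          refine ⟨?_, h4⟩
          simp only [h3 h4]
          exact h5
    rw [h1, Nat.odd_add]

end Pool.Agent.KCL
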