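import Pool.Agent.SW.Corr

/-!
# Restrictions that make a constant depth circuit shallow and keep the rows balanced
-/

set_option autoImplicit false
set_option linter.unusedSectionVars false

namespace Pool.Agent.KCL

open Finset Pool.Agent.SW

variable {ι : Type} [Fintype ι] [DecidableEq ι]

/-- Composition of values. -/
def cmp1 (o o' : Option Bool) : Option Bool :=
  match o with
  | none => o'
  | some b => some b

/-- Composition of restrictions. -/
def cmp (ρ ρ' : ι → Option Bool) : ι → Option Bool := fun i => cmp1 (ρ i) (ρ' i)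

omit [Fintype ι] [DecidableEq ι] in
lemma app_cmp (ρ ρ' : ι → Option Bool) (x : ι → Bool) :
    app (cmp ρ ρ') x = app ρ (app ρ' x) := by
  funext i
  unfold app cmp cmp1
  rcases ρ i with _ | b
  · rfl
  · rfl

lemma sum_cmp (p p' : ℝ) (F : (ι → Option Bool) → ℝ) :
    ∑ ρ : ι → Option Bool, wt p ρ * ∑ ρ' : ι → Option Bool, wt p' ρ' * F (cmp ρ ρ') =
      ∑ ρ : ι → Option Bool, wt (p * p') ρ * F ρ := by
  classical
  have key : ∀ τ : ι → Option Bool, ∑ ρ : ι → Option Bool, ∑ ρ' : ι → Option Bool,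
      (if cmp ρ ρ' = τ then wt p ρ * wt p' ρ' else 0) = wt (p * p') τ := by
    intro τ
    have h1 : ∀ ρ ρ' : ι → Option Bool, (if cmp ρ ρ' = τ then wt p ρ * wt p' ρ' else 0) =
        ∏ i, if cmp1 (ρ i) (ρ' i) = τ i then w1 p (ρ i) * w1 p' (ρ' i) else 0 := by
      intro ρ ρ'
      by_cases h : cmp ρ ρ' = τ
      · rw [if_pos h]
        unfold wt
        rw [← Finset.prod_mul_distrib]
        refine Finset.prod_congr rfl fun i _ => ?_
        have hi : cmp1 (ρ i) (ρ' i) = τ i := congrFun h i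
        rw [if_pos hi]
      · rw [if_neg h]
        have : ∃ i, cmp1 (ρ i) (ρ' i) ≠ τ i := by
          by_contra hcon
          push Not at hcon
          exact h (funext hcon)
        obtain ⟨i, hi⟩ := this
        exact (Finset.prod_eq_zero (mem_univ i) (if_neg hi)).symm
    simp only [h1]
    have h2 : ∀ ρ : ι → Option Bool, ∑ ρ' : ι → Option Bool, ∏ i,
        (if cmp1 (ρ i) (ρ' i) = τ i then w1 p (ρ i) * w1 p' (ρ' i) else 0) =
        ∏ i, ∑ o' : Option Bool, if cmp1 (ρ i) o' = τ i then w1 p (ρ i) * w1 p' o' else 0 :=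
      fun ρ => sum_prod_option fun i o' =>
        if cmp1 (ρ i) o' = τ i then w1 p (ρ i) * w1 p' o' else 0
    simp only [h2]
    rw [sum_prod_option fun i o => ∑ o' : Option Bool,
      if cmp1 o o' = τ i then w1 p o * w1 p' o' else 0]
    unfold wt
    refine Finset.prod_congr rfl fun i _ => ?_
    simp only [Fintype.sum_option, Fintype.sum_bool, cmp1]
    rcases τ i with _ | b
    · simp [w1]
    · cases b
      · simp [w1]
        ring
      · simp [w1]
        ring
  have h3 : ∑ ρ : ι → Option Bool, wt (p * p') ρ * F ρ = ∑ τ : ι → Option Bool,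
      (∑ ρ : ι → Option Bool, ∑ ρ' : ι → Option Bool,
        (if cmp ρ ρ' = τ then wt p ρ * wt p' ρ' else 0)) * F τ := by
    refine Finset.sum_congr rfl fun τ _ => ?_
    rw [key]
  rw [h3]
  simp only [Finset.mul_sum, Finset.sum_mul]
  rw [Finset.sum_comm' (s := (univ : Finset (ι → Option Bool)))
    (t := fun _ => (univ : Finset (ι → Option Bool))) (t' := univ) (s' := fun _ => univ) (by simp)]
  rw [Finset.sum_comm]
  conv_rhs => rw [Finset.sum_comm]
  refine Finset.sum_congr rfl fun ρ _ => ?_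
  conv_rhs => rw [Finset.sum_comm]
  refine Finset.sum_congr rfl fun ρ' _ => ?_
  rw [Finset.sum_eq_single (cmp ρ ρ')]
  · rw [if_pos rfl]
    ring
  · intro τ _ hτ
    rw [if_neg (Ne.symm hτ), zero_mul]
  · intro h
    exact absurd (mem_univ _) h

open Classical in
lemma W_cmp (p p' : ℝ) (Q : (ι → Option Bool) → Prop) :
    W (p * p') Q = ∑ ρ : ι → Option Bool, wt p ρ * W p' fun ρ' => Q (cmp ρ ρ') := by
  have h := sum_cmp p p' fun ρ : ι → Option Bool => if Q ρ then (1 : ℝ) else 0
  unfold W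
  have h1 : ∀ ρ : ι → Option Bool, (if Q ρ then wt (p * p') ρ else 0) =
      wt (p * p') ρ * if Q ρ then (1 : ℝ) else 0 := by
    intro ρ
    split_ifs <;> ring
  rw [Finset.sum_congr rfl fun ρ _ => h1 ρ, ← h]
  refine Finset.sum_congr rfl fun ρ _ => ?_
  congr 1
  refine Finset.sum_congr rfl fun ρ' _ => ?_
  split_ifs <;> ring

/-- All gates of small level become shallow. -/
theorem pool_switch {p α : ℝ} {T : ℕ} (P : Par p α T) {s : ℕ} (lev : Fin s → ℕ)
    (h : Fin s → (ι → Bool) → Bool) (hG : ∀ g, GateOK lev h g) : ∀ i : ℕ,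
    W (p ^ i) (fun ρ => ∃ g, lev g < i ∧ ¬ DTle T fun x => h g (app ρ x)) ≤
      i * s * α ^ (T + 1) := by
  classical
  have hα : 0 ≤ α ^ (T + 1) := pow_nonneg P.α0.le _
  intro i
  induction i with
  | zero =>
    have : W (p ^ 0) (fun ρ : ι → Option Bool => ∃ g, lev g < 0 ∧
        ¬ DTle T fun x => h g (app ρ x)) = W (p ^ 0) fun _ => False :=
      W_congr fun ρ => by simp
    rw [this, W_false]
    simp
  | succ i ih =>
    rw [pow_succ, W_cmp]
    have hp0 : 0 ≤ p ^ i := pow_nonneg P.p0.le _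
    have hp1 : p ^ i ≤ 1 := pow_le_one₀ P.p0.le P.p1.le
    have hone : ∀ ρ : ι → Option Bool, W p (fun ρ' => ∃ g, lev g < i + 1 ∧
        ¬ DTle T fun x => h g (app (cmp ρ ρ') x)) ≤
        (if (∃ g, lev g < i ∧ ¬ DTle T fun x => h g (app ρ x)) then 1 else 0) +
          s * α ^ (T + 1) := by
      intro ρ
      by_cases hb : ∃ g, lev g < i ∧ ¬ DTle T fun x => h g (app ρ x)
      · rw [if_pos hb]
        have h1 : W p (fun ρ' : ι → Option Bool => ∃ g, lev g < i + 1 ∧
            ¬ DTle T fun x => h g (app (cmp ρ ρ') x)) ≤ W p fun _ => True :=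
          W_mono P.p0.le P.p1.le fun _ _ => trivial
        rw [W_true] at h1
        have : 0 ≤ (s : ℝ) * α ^ (T + 1) := by positivity
        linarith
      · rw [if_neg hb, zero_add]
        push Not at hb
        have h1 : W p (fun ρ' : ι → Option Bool => ∃ g, lev g < i + 1 ∧
            ¬ DTle T fun x => h g (app (cmp ρ ρ') x)) ≤
            W p (fun ρ' : ι → Option Bool => ∃ g ∈ (univ : Finset (Fin s)),
              lev g = i ∧ ¬ DTle T fun x => h g (app ρ (app ρ' x))) := by
          refine W_mono P.p0.le P.p1.le ?_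
          rintro ρ' ⟨g, hg, hng⟩
          simp only [app_cmp] at hng
          refine ⟨g, mem_univ g, ?_, hng⟩
          rcases Nat.lt_succ_iff_lt_or_eq.1 hg with h2 | h2
          · exact absurd ((hb g h2).app ρ') hng
          · exact h2
        refine h1.trans ((W_exists_le P.p0.le P.p1.le univ _).trans ?_)
        have h2 : ∀ g ∈ (univ : Finset (Fin s)), W p (fun ρ' : ι → Option Bool =>
            lev g = i ∧ ¬ DTle T fun x => h g (app ρ (app ρ' x))) ≤ α ^ (T + 1) := by
          intro g _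
          by_cases hg : lev g = i
          · refine le_trans (W_mono P.p0.le P.p1.le fun ρ' hρ' => hρ'.2)
              (gate_prob (h := fun g x => h g (app ρ x)) P ((hG g).app ρ) ?_)
            intro k hk
            exact hb k (by omega)
          · have : W p (fun ρ' : ι → Option Bool => lev g = i ∧
                ¬ DTle T fun x => h g (app ρ (app ρ' x))) = W p fun _ => False :=
              W_congr fun ρ' => by simp [hg]
            rw [this, W_false]
            exact hα
        refine (Finset.sum_le_sum h2).trans (le_of_eq ?_)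
        rw [Finset.sum_const, Finset.card_univ, Fintype.card_fin, nsmul_eq_mul]
    have h3 : ∑ ρ : ι → Option Bool, wt (p ^ i) ρ * W p (fun ρ' => ∃ g, lev g < i + 1 ∧
        ¬ DTle T fun x => h g (app (cmp ρ ρ') x)) ≤
        ∑ ρ : ι → Option Bool, wt (p ^ i) ρ *
          ((if (∃ g, lev g < i ∧ ¬ DTle T fun x => h g (app ρ x)) then 1 else 0) +
          s * α ^ (T + 1)) :=
      Finset.sum_le_sum fun ρ _ => mul_le_mul_of_nonneg_left (hone ρ) (wt_nonneg hp0 hp1 ρ)
    refine h3.trans ?_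
    have h4 : ∑ ρ : ι → Option Bool, wt (p ^ i) ρ *
          ((if (∃ g, lev g < i ∧ ¬ DTle T fun x => h g (app ρ x)) then 1 else 0) +
          s * α ^ (T + 1)) =
        W (p ^ i) (fun ρ => ∃ g, lev g < i ∧ ¬ DTle T fun x => h g (app ρ x)) +
          s * α ^ (T + 1) := by
      simp only [mul_add, Finset.sum_add_distrib]
      congr 1
      · unfold W
        refine Finset.sum_congr rfl fun ρ _ => ?_
        by_cases hc : ∃ g, lev g < i ∧ ¬ DTle T fun x => h g (app ρ x)
        · rw [if_pos hc, if_pos hc, mul_one]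
        · rw [if_neg hc, if_neg hc, mul_zero]
      · rw [← Finset.sum_mul, sum_wt, one_mul]
    rw [h4]
    push_cast
    linarith

/-! ## the rows -/

open Classical in
/-- The number of coordinates in `S` that are fixed to `b`. -/
noncomputable def cnt (ρ : ι → Option Bool) (S : Finset ι) (b : Bool) : ℕ :=
  (S.filter fun i => ρ i = some b).card

lemma sum_wt_cnt (p x : ℝ) (S : Finset ι) (b : Bool) :
    ∑ ρ : ι → Option Bool, wt p ρ * (1 + x) ^ cnt ρ S b =
      (1 + x * ((1 - p) / 2)) ^ S.card := by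
  classical
  have h1 : ∀ ρ : ι → Option Bool, wt p ρ * (1 + x) ^ cnt ρ S b =
      ∏ i, (w1 p (ρ i) * if i ∈ S then (if ρ i = some b then 1 + x else 1) else 1) := by
    intro ρ
    unfold wt
    rw [Finset.prod_mul_distrib, Finset.prod_ite_mem, Finset.univ_inter, Finset.prod_ite,
      Finset.prod_const, Finset.prod_const_one, mul_one]
    congr 2
  simp only [h1]
  rw [sum_prod_option fun i o => w1 p o * if i ∈ S then (if o = some b then 1 + x else 1) else 1]
  have h2 : ∀ i : ι, ∑ o : Option Bool, (w1 p o * if i ∈ S then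
      (if o = some b then 1 + x else 1) else 1) =
        if i ∈ S then 1 + x * ((1 - p) / 2) else 1 := by
    intro i
    rw [Fintype.sum_option, Fintype.sum_bool]
    by_cases hi : i ∈ S
    · simp only [hi, if_true, w1]
      cases b
      · simp
        ring
      · simp
        ring
    · simp only [hi, if_false, w1]
      ring
  simp only [h2]
  rw [Finset.prod_ite_mem, Finset.univ_inter, Finset.prod_const]

open Classical in
/-- A row is rarely unbalanced. -/
lemma cnt_tail {p : ℝ} (hp0 : 0 < p) (hp1 : p ≤ 1) (S : Finset ι) (b : Bool) (M q : ℕ)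
    (hM : S.card ≤ 2 * (M + q)) (hq : 8 * (q : ℝ) ≤ p * S.card) :
    W p (fun ρ => M ≤ cnt ρ S b) ≤ Real.exp (-(p ^ 2 * S.card / 8)) := by
  set n : ℝ := (S.card : ℝ) with hn
  have hn0 : 0 ≤ n := Nat.cast_nonneg _
  have h1 : W p (fun ρ => M ≤ cnt ρ S b) * (1 + p) ^ M ≤ (1 + p * ((1 - p) / 2)) ^ S.card := by
    rw [← sum_wt_cnt p p S b]
    unfold W
    rw [Finset.sum_mul]
    refine Finset.sum_le_sum fun ρ _ => ?_
    have hw := wt_nonneg hp0.le hp1 ρ
    by_cases hc : M ≤ cnt ρ S b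
    · rw [if_pos hc]
      exact mul_le_mul_of_nonneg_left (pow_le_pow_right₀ (by linarith) hc) hw
    · rw [if_neg hc, zero_mul]
      positivity
  have h2 : (1 + p * ((1 - p) / 2)) ^ S.card ≤ Real.exp (n * (p * ((1 - p) / 2))) := by
    rw [hn, Real.exp_nat_mul]
    refine pow_le_pow_left₀ ?_ ?_ _
    · have : 0 ≤ p * ((1 - p) / 2) := mul_nonneg hp0.le (by linarith)
      linarith
    · have := Real.add_one_le_exp (p * ((1 - p) / 2))
      linarith
  have h3 : Real.exp (M * (p - p ^ 2 / 2)) ≤ (1 + p) ^ M := by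
    rw [Real.exp_nat_mul]
    refine pow_le_pow_left₀ (Real.exp_pos _).le ?_ _
    rw [← Real.le_log_iff_exp_le (by linarith)]
    have h4 := Real.le_log_one_add_of_nonneg hp0.le
    refine le_trans ?_ h4
    rw [le_div_iff₀ (by linarith)]
    nlinarith [pow_pos hp0 3]
  have hexp : n * (p * ((1 - p) / 2)) ≤ M * (p - p ^ 2 / 2) - p ^ 2 * n / 8 := by
    have hM' : n ≤ 2 * (M + q) := by
      rw [hn]
      exact_mod_cast hM
    have h5 : 0 ≤ p - p ^ 2 / 2 := by nlinarith
    have h6 : (n / 2 - q) * (p - p ^ 2 / 2) ≤ M * (p - p ^ 2 / 2) :=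
      mul_le_mul_of_nonneg_right (by linarith) h5
    have hq0 : (0 : ℝ) ≤ q := Nat.cast_nonneg q
    have h7 : (q : ℝ) * (p - p ^ 2 / 2) ≤ p ^ 2 * n / 8 := by
      have h8 : (q : ℝ) * (p - p ^ 2 / 2) ≤ q * p :=
        mul_le_mul_of_nonneg_left (by nlinarith [sq_nonneg p]) hq0
      nlinarith
    nlinarith
  have h9 : W p (fun ρ => M ≤ cnt ρ S b) * Real.exp (M * (p - p ^ 2 / 2)) ≤
      Real.exp (-(p ^ 2 * n / 8)) * Real.exp (M * (p - p ^ 2 / 2)) := by
    rw [← Real.exp_add]
    calc W p (fun ρ => M ≤ cnt ρ S b) * Real.exp (M * (p - p ^ 2 / 2)) ≤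
        W p (fun ρ => M ≤ cnt ρ S b) * (1 + p) ^ M :=
          mul_le_mul_of_nonneg_left h3 (W_nonneg hp0.le hp1 _)
      _ ≤ Real.exp (n * (p * ((1 - p) / 2))) := h1.trans h2
      _ ≤ _ := Real.exp_le_exp.mpr (by linarith)
  exact le_of_mul_le_mul_right h9 (Real.exp_pos _)

/-- **A good restriction.** -/
theorem exists_restriction {p α : ℝ} {T : ℕ} (P : Par p α T) {s : ℕ} (lev : Fin s → ℕ)
    (h : Fin s → (ι → Bool) → Bool) (hG : ∀ g, GateOK lev h g) (d : ℕ) (hlev : ∀ g, lev g < d)
    (n b q : ℕ) (row : Fin n → Finset ι) (hrow : ∀ j, (row j).card = b)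
    (hq : 8 * (q : ℝ) ≤ p ^ d * b)
    (hsmall : d * s * α ^ (T + 1) + 2 * n * Real.exp (-((p ^ d) ^ 2 * b / 8)) < 1) :
    ∃ ρ : ι → Option Bool, (∀ g, DTle T fun x => h g (app ρ x)) ∧
      ∀ j, cnt ρ (row j) true + q ≤ (b + 1) / 2 ∧ cnt ρ (row j) false + (b + 1) / 2 ≤ b := by
  classical
  by_contra hcon
  push Not at hcon
  have hp0 : 0 < p ^ d := pow_pos P.p0 _
  have hp1 : p ^ d ≤ 1 := pow_le_one₀ P.p0.le P.p1.le
  have h1 : W (p ^ d) (fun _ : ι → Option Bool => True) ≤
      W (p ^ d) (fun ρ => (∃ g, lev g < d ∧ ¬ DTle T fun x => h g (app ρ x)) ∨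
        ∃ j ∈ (univ : Finset (Fin n)), ((b + 1) / 2 + 1 - q ≤ cnt ρ (row j) true ∨
          b + 1 - (b + 1) / 2 ≤ cnt ρ (row j) false)) := by
    refine W_mono hp0.le hp1 fun ρ _ => ?_
    by_cases hc : ∀ g, DTle T fun x => h g (app ρ x)
    · right
      obtain ⟨j, hj⟩ := hcon ρ hc
      refine ⟨j, mem_univ j, ?_⟩
      by_cases hc2 : cnt ρ (row j) true + q ≤ (b + 1) / 2
      · right
        have := hj hc2
        omega
      · left
        omega
    · left
      push Not at hc
      obtain ⟨g, hg⟩ := hc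
      exact ⟨g, hlev g, hg⟩
  rw [W_true] at h1
  have h2 := W_or_le hp0.le hp1
    (fun ρ => ∃ g, lev g < d ∧ ¬ DTle T fun x => h g (app ρ x))
    (fun ρ : ι → Option Bool => ∃ j ∈ (univ : Finset (Fin n)),
      ((b + 1) / 2 + 1 - q ≤ cnt ρ (row j) true ∨ b + 1 - (b + 1) / 2 ≤ cnt ρ (row j) false))
  have h3 := pool_switch P lev h hG d
  have h4 := W_exists_le hp0.le hp1 (univ : Finset (Fin n)) (fun j (ρ : ι → Option Bool) =>
    ((b + 1) / 2 + 1 - q ≤ cnt ρ (row j) true ∨ b + 1 - (b + 1) / 2 ≤ cnt ρ (row j) false))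
  have h5 : ∀ j ∈ (univ : Finset (Fin n)), W (p ^ d) (fun ρ : ι → Option Bool =>
      ((b + 1) / 2 + 1 - q ≤ cnt ρ (row j) true ∨ b + 1 - (b + 1) / 2 ≤ cnt ρ (row j) false)) ≤
      2 * Real.exp (-((p ^ d) ^ 2 * b / 8)) := by
    intro j _
    refine (W_or_le hp0.le hp1 _ _).trans ?_
    have e1 := cnt_tail hp0 hp1 (row j) true ((b + 1) / 2 + 1 - q) q (by rw [hrow]; omega)
      (by rw [hrow]; exact hq)
    have e2 := cnt_tail hp0 hp1 (row j) false (b + 1 - (b + 1) / 2) q (by rw [hrow]; omega)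
      (by rw [hrow]; exact hq)
    rw [hrow] at e1 e2
    linarith
  have h6 := h4.trans (Finset.sum_le_sum h5)
  rw [Finset.sum_const, Finset.card_univ, Fintype.card_fin, nsmul_eq_mul] at h6
  have h7 : (n : ℝ) * (2 * Real.exp (-((p ^ d) ^ 2 * b / 8))) =
      2 * n * Real.exp (-((p ^ d) ^ 2 * b / 8)) := by ring
  linarith

end Pool.Agent.KCL
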