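import Pool.Agent.KCL.MultiSwitch
import Pool.Agent.KCL.PoolR

/-!
# Restrictions and common decision trees of constant depth circuits
-/

set_option autoImplicit false
set_option linter.unusedSectionVars false

namespace Pool.Agent.KCL

open Finset Pool.Agent.SW

variable {ι : Type} [Fintype ι] [DecidableEq ι]

/-- Parameters of the multi-switching lemma. -/
structure MPar (p γ μ : ℝ) (r : ℕ) : Prop where
  p0 : 0 < p
  p1 : p < 1
  γ0 : 0 < γ
  μ1 : 1 ≤ μ
  le1 : γ * μ ≤ 1
  r1 : 1 ≤ r
  le : ∀ k ≤ r, (4 * p / γ + (1 - p) / 2) ^ k ≤ 2 * ((1 - p) / 2) ^ k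

lemma MPar.pos {p γ μ : ℝ} {r : ℕ} (P : MPar p γ μ r) : 0 < γ * μ :=
  mul_pos P.γ0 (lt_of_lt_of_le one_pos P.μ1)

lemma gateOK_update {N : ℕ} {lev : Fin N → ℕ} {h : Fin N → (ι → Bool) → Bool} {g : Fin N}
    (H : GateOK lev h g) (i : ι) (b : Bool) :
    GateOK lev (fun g x => h g (Function.update x i b)) g := by
  have h1 : ∀ x : ι → Bool, app (fun j => if j = i then some b else none) x =
      Function.update x i b := by
    intro x
    funext j
    by_cases hj : j = i
    · subst hj
      simp [app]
    · simp [app, hj]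
  have h2 := H.app fun j => if j = i then some b else none
  simp only [h1] at h2
  exact h2

/-- Common decision trees after a restriction. -/
lemma CD.node {J : Type} {S : J → Prop} {r t : ℕ} {F : J → (ι → Bool) → Bool}
    (ρ : ι → Option Bool) (i : ι)
    (h : ∀ b, CD S r t fun j x => F j (Function.update (app ρ x) i b)) :
    CD S r (t + 1) fun j x => F j (app ρ x) := by
  rcases hi : ρ i with _ | b
  · refine Or.inr ⟨i, fun b => ?_⟩
    have := h b
    simp only [app_update_none hi]
    exact this
  · have := h b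
    simp only [update_app_some hi] at this
    exact this.succ

/-- One more level. -/
lemma level_step {p γ μ : ℝ} {r : ℕ} (P : MPar p γ μ r) {N : ℕ} (hN : (N : ℝ) ≤ μ ^ (r + 1))
    (lev : Fin N → ℕ) (l τ : ℕ) (t : ℕ) : ∀ h : Fin N → (ι → Bool) → Bool,
    (∀ g, GateOK lev h g) → CD (fun g => lev g < l) r t h →
    W p (fun ρ => ¬ CD (fun g => lev g < l + 1) r (t + τ) fun g x => h g (app ρ x)) ≤
      2 ^ t * (γ * μ) ^ (τ + 1) := by
  classical
  have hδ0 := P.pos
  have base : ∀ (t : ℕ) (h : Fin N → (ι → Bool) → Bool), (∀ g, GateOK lev h g) →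
      (∀ g, lev g < l → DTle r (h g)) →
      W p (fun ρ => ¬ CD (fun g => lev g < l + 1) r (t + τ) fun g x => h g (app ρ x)) ≤
        2 ^ t * (γ * μ) ^ (τ + 1) := by
    intro t h hG hlow
    have hex : ∀ g : Fin N, ∃ (f : (ι → Bool) → Bool) (φ : Bool → Bool), (∃ n, IsDNF r n f) ∧
        (lev g = l → ∀ x, h g x = φ (f x)) := by
      intro g
      by_cases hg : lev g = l
      · obtain ⟨n, f, hf, φ, hφ⟩ := gate_dnf (hG g) P.r1 fun k hk => hlow k (hg ▸ hk)
        exact ⟨f, φ, ⟨n, hf⟩, fun _ => hφ⟩
      · exact ⟨fun _ => false, id, ⟨0, fun _ => rfl⟩, fun hc => absurd hc hg⟩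
    choose F φ hF hφ using hex
    have h1 := multi_switching P.p0 P.p1 P.γ0 P.μ1 P.le1 r r P.le (J := Fin N)
      (by rw [Fintype.card_fin]; exact hN) (fun g => lev g = l) (τ + 1) 0 0 (fun _ => false)
      (fun _ => rfl) F hF (fun _ => True) (fun _ _ _ _ => trivial)
    rw [pow_zero, mul_one, W_true, mul_one] at h1
    have h2 : W p (fun ρ => ¬ CD (fun g => lev g < l + 1) r (t + τ)
        fun g x => h g (app ρ x)) ≤ (γ * μ) ^ (τ + 1) := by
      refine le_trans (W_mono P.p0.le P.p1.le ?_) h1
      intro ρ hρ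
      refine ⟨trivial, fun t' _ => Nat.zero_le _, ?_⟩
      intro t' ht'
      by_contra hlt
      apply hρ
      have h3 : CD (fun g => lev g = l) r τ (fun g x => F g (app ρ x)) := ht'.mono (by omega)
      -- the tree for the level gives the tree for all levels
      have key : ∀ (τ : ℕ) (F' h' : Fin N → (ι → Bool) → Bool),
          (∀ g, lev g = l → ∀ x, h' g x = φ g (F' g x)) → (∀ g, lev g < l → DTle r (h' g)) →
          CD (fun g => lev g = l) r τ F' → CD (fun g => lev g < l + 1) r τ h' := by
        intro τ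
        induction τ with
        | zero =>
          intro F' h' hh hl hc g hg
          rcases Nat.lt_succ_iff_lt_or_eq.1 hg with h4 | h4
          · exact hl g h4
          · have h5 := (hc g h4).map (φ g)
            have h6 : h' g = fun x => φ g (F' g x) := funext fun x => hh g h4 x
            rw [h6]
            exact h5
        | succ τ ih =>
          rintro F' h' hh hl (hc | ⟨i, hc⟩)
          · left
            intro g hg
            rcases Nat.lt_succ_iff_lt_or_eq.1 hg with h4 | h4
            · exact hl g h4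
            · have h5 := (hc g h4).map (φ g)
              have h6 : h' g = fun x => φ g (F' g x) := funext fun x => hh g h4 x
              rw [h6]
              exact h5
          · right
            refine ⟨i, fun b => ih (fun g x => F' g (Function.update x i b))
              (fun g x => h' g (Function.update x i b)) (fun g hg x => hh g hg _) ?_ (hc b)⟩
            intro g hg
            have h4 := (hl g hg).app fun j => if j = i then some b else none
            have h5 : ∀ x : ι → Bool, app (fun j => if j = i then some b else none) x =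
                Function.update x i b := by
              intro x
              funext j
              by_cases hj : j = i
              · subst hj
                simp [app]
              · simp [app, hj]
            simp only [h5] at h4
            exact h4
      exact (key τ (fun g x => F g (app ρ x)) (fun g x => h g (app ρ x))
        (fun g hg x => hφ g hg _) (fun g hg => (hlow g hg).app ρ) h3).mono (by omega)
    refine h2.trans ?_
    have h3 : (1 : ℝ) ≤ 2 ^ t := one_le_pow₀ (by norm_num)
    have h4 : 0 ≤ (γ * μ) ^ (τ + 1) := pow_nonneg hδ0.le _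
    nlinarith
  induction t with
  | zero =>
    intro h hG hc
    exact base 0 h hG hc
  | succ t ih =>
    rintro h hG (hc | ⟨i, hc⟩)
    · exact base (t + 1) h hG hc
    · have h1 : ∀ b : Bool, W p (fun ρ => ¬ CD (fun g => lev g < l + 1) r (t + τ)
          fun g x => h g (Function.update (app ρ x) i b)) ≤ 2 ^ t * (γ * μ) ^ (τ + 1) :=
        fun b => ih (fun g x => h g (Function.update x i b))
          (fun g => gateOK_update (hG g) i b) (hc b)
      have h2 : W p (fun ρ => ¬ CD (fun g => lev g < l + 1) r (t + 1 + τ)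
          fun g x => h g (app ρ x)) ≤
          W p (fun ρ => ¬ CD (fun g => lev g < l + 1) r (t + τ)
            (fun g x => h g (Function.update (app ρ x) i true)) ∨
            ¬ CD (fun g => lev g < l + 1) r (t + τ)
            fun g x => h g (Function.update (app ρ x) i false)) := by
        refine W_mono P.p0.le P.p1.le fun ρ hρ => ?_
        by_contra hcon
        push Not at hcon
        apply hρ
        rw [show t + 1 + τ = t + τ + 1 by omega]
        refine CD.node ρ i fun b => ?_
        cases b
        · exact hcon.2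
        · exact hcon.1
      refine h2.trans ((W_or_le P.p0.le P.p1.le _ _).trans ?_)
      have h3 := h1 true
      have h4 := h1 false
      rw [pow_succ]
      linarith

/-- All levels. -/
theorem pool_levels {p γ μ : ℝ} {r : ℕ} (P : MPar p γ μ r) {N : ℕ} (hN : (N : ℝ) ≤ μ ^ (r + 1))
    (lev : Fin N → ℕ) (τ d : ℕ) (h : Fin N → (ι → Bool) → Bool) (hG : ∀ g, GateOK lev h g) :
    ∀ i ≤ d, W (p ^ i) (fun ρ => ¬ CD (fun g => lev g < i) r (i * τ) fun g x => h g (app ρ x)) ≤
      i * (2 ^ (d * τ) * (γ * μ) ^ (τ + 1)) := by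
  classical
  have hδ0 := P.pos
  set E : ℝ := 2 ^ (d * τ) * (γ * μ) ^ (τ + 1) with hE
  have hE0 : 0 ≤ E := by positivity
  intro i
  induction i with
  | zero =>
    intro _
    have : W (p ^ 0) (fun ρ : ι → Option Bool => ¬ CD (fun g => lev g < 0) r (0 * τ)
        fun g x => h g (app ρ x)) = W (p ^ 0) (fun _ : ι → Option Bool => False) := by
      refine W_congr fun ρ => ?_
      rw [iff_false, not_not]
      exact CD.of_all _ fun g hg => absurd hg (Nat.not_lt_zero _)
    rw [this, W_false]
    simp
  | succ i ih =>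
    intro hi
    rw [pow_succ, W_cmp]
    have hp0 : 0 ≤ p ^ i := pow_nonneg P.p0.le _
    have hp1 : p ^ i ≤ 1 := pow_le_one₀ P.p0.le P.p1.le
    have hone : ∀ ρ : ι → Option Bool, W p (fun ρ' => ¬ CD (fun g => lev g < i + 1) r
        ((i + 1) * τ) fun g x => h g (app (cmp ρ ρ') x)) ≤
        (if (¬ CD (fun g => lev g < i) r (i * τ) fun g x => h g (app ρ x)) then 1 else 0) + E := by
      intro ρ
      by_cases hb : CD (fun g => lev g < i) r (i * τ) fun g x => h g (app ρ x)
      · rw [if_neg (not_not.mpr hb), zero_add]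
        have h1 := level_step P hN lev i τ (i * τ) (fun g x => h g (app ρ x))
          (fun g => (hG g).app ρ) hb
        simp only [app_cmp]
        rw [show (i + 1) * τ = i * τ + τ by ring]
        refine h1.trans ?_
        rw [hE]
        refine mul_le_mul_of_nonneg_right ?_ (by positivity)
        exact pow_le_pow_right₀ (by norm_num) (Nat.mul_le_mul_right _ (by omega))
      · rw [if_pos hb]
        have h1 : W p (fun ρ' : ι → Option Bool => ¬ CD (fun g => lev g < i + 1) r
            ((i + 1) * τ) fun g x => h g (app (cmp ρ ρ') x)) ≤ W p fun _ => True :=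
          W_mono P.p0.le P.p1.le fun _ _ => trivial
        rw [W_true] at h1
        linarith
    have h3 : ∑ ρ : ι → Option Bool, wt (p ^ i) ρ * W p (fun ρ' =>
        ¬ CD (fun g => lev g < i + 1) r ((i + 1) * τ) fun g x => h g (app (cmp ρ ρ') x)) ≤
        ∑ ρ : ι → Option Bool, wt (p ^ i) ρ *
          ((if (¬ CD (fun g => lev g < i) r (i * τ) fun g x => h g (app ρ x))
            then 1 else 0) + E) :=
      Finset.sum_le_sum fun ρ _ => mul_le_mul_of_nonneg_left (hone ρ) (wt_nonneg hp0 hp1 ρ)
    refine h3.trans ?_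
    have h4 : ∑ ρ : ι → Option Bool, wt (p ^ i) ρ *
          ((if (¬ CD (fun g => lev g < i) r (i * τ) fun g x => h g (app ρ x))
            then 1 else 0) + E) =
        W (p ^ i) (fun ρ => ¬ CD (fun g => lev g < i) r (i * τ) fun g x => h g (app ρ x)) +
          E := by
      simp only [mul_add, Finset.sum_add_distrib]
      congr 1
      · unfold W
        refine Finset.sum_congr rfl fun ρ _ => ?_
        by_cases hc : CD (fun g => lev g < i) r (i * τ) fun g x => h g (app ρ x)
        · rw [if_neg (not_not.mpr hc), if_neg (not_not.mpr hc), mul_zero]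
        · rw [if_pos hc, if_pos hc, mul_one]
      · rw [← Finset.sum_mul, sum_wt, one_mul]
    rw [h4]
    push_cast
    linarith [ih (by omega)]

/-- **A good restriction.** -/
theorem exists_good {p γ μ : ℝ} {r : ℕ} (P : MPar p γ μ r) {N : ℕ} (hN : (N : ℝ) ≤ μ ^ (r + 1))
    {κ : Type} [Fintype κ] (lev : κ → Fin N → ℕ) (h : κ → Fin N → (ι → Bool) → Bool)
    (hG : ∀ u g, GateOK (lev u) (h u) g) (d τ : ℕ) (hlev : ∀ u g, lev u g < d)
    (n b q : ℕ) (row : Fin n → Finset ι) (hrow : ∀ j, (row j).card = b)
    (hq : 8 * (q : ℝ) ≤ p ^ d * b)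
    (hsmall : Fintype.card κ * (d * (2 ^ (d * τ) * (γ * μ) ^ (τ + 1))) +
      2 * n * Real.exp (-((p ^ d) ^ 2 * b / 8)) < 1) :
    ∃ ρ : ι → Option Bool, (∀ u, CD (fun _ => True) r (d * τ) fun g x => h u g (app ρ x)) ∧
      ∀ j, cnt ρ (row j) true + q ≤ (b + 1) / 2 ∧ cnt ρ (row j) false + (b + 1) / 2 ≤ b := by
  classical
  by_contra hcon
  push Not at hcon
  have hp0 : 0 < p ^ d := pow_pos P.p0 _
  have hp1 : p ^ d ≤ 1 := pow_le_one₀ P.p0.le P.p1.le
  have hS : ∀ u : κ, (fun g => lev u g < d) = fun _ => True := fun u =>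
    funext fun g => propext ⟨fun _ => trivial, fun _ => hlev u g⟩
  have h1 : W (p ^ d) (fun _ : ι → Option Bool => True) ≤
      W (p ^ d) (fun ρ => (∃ u ∈ (univ : Finset κ), ¬ CD (fun g => lev u g < d) r (d * τ)
        fun g x => h u g (app ρ x)) ∨
        ∃ j ∈ (univ : Finset (Fin n)), ((b + 1) / 2 + 1 - q ≤ cnt ρ (row j) true ∨
          b + 1 - (b + 1) / 2 ≤ cnt ρ (row j) false)) := by
    refine W_mono hp0.le hp1 fun ρ _ => ?_
    by_cases hc : ∀ u, CD (fun _ => True) r (d * τ) fun g x => h u g (app ρ x)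
    · right
      obtain ⟨j, hj⟩ := hcon ρ hc
      refine ⟨j, mem_univ j, ?_⟩
      by_cases hc2 : cnt ρ (row j) true + q ≤ (b + 1) / 2
      · right
        have := hj hc2
        omega
      · left
        omega
    · left
      push Not at hc
      obtain ⟨u, hu⟩ := hc
      refine ⟨u, mem_univ u, ?_⟩
      rw [hS]
      exact hu
  rw [W_true] at h1
  have h2 := W_or_le hp0.le hp1
    (fun ρ => ∃ u ∈ (univ : Finset κ), ¬ CD (fun g => lev u g < d) r (d * τ)
      fun g x => h u g (app ρ x))
    (fun ρ : ι → Option Bool => ∃ j ∈ (univ : Finset (Fin n)),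
      ((b + 1) / 2 + 1 - q ≤ cnt ρ (row j) true ∨ b + 1 - (b + 1) / 2 ≤ cnt ρ (row j) false))
  have h3 := W_exists_le hp0.le hp1 (univ : Finset κ) (fun u (ρ : ι → Option Bool) =>
    ¬ CD (fun g => lev u g < d) r (d * τ) fun g x => h u g (app ρ x))
  have h4 := W_exists_le hp0.le hp1 (univ : Finset (Fin n)) (fun j (ρ : ι → Option Bool) =>
    ((b + 1) / 2 + 1 - q ≤ cnt ρ (row j) true ∨ b + 1 - (b + 1) / 2 ≤ cnt ρ (row j) false))
  have h5 : ∀ j ∈ (univ : Finset (Fin n)), W (p ^ d) (fun ρ : ι → Option Bool =>
      ((b + 1) / 2 + 1 - q ≤ cnt ρ (row j) true ∨ b + 1 - (b + 1) / 2 ≤ cnt ρ (row j) false)) ≤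
      2 * Real.exp (-((p ^ d) ^ 2 * b / 8)) := by
    intro j _
    refine (W_or_le hp0.le hp1 _ _).trans ?_
    have e1 := cnt_tail hp0 hp1 (row j) true ((b + 1) / 2 + 1 - q) q (by rw [hrow]; omega)
      (by rw [hrow]; exact hq)
    have e2 := cnt_tail hp0 hp1 (row j) false (b + 1 - (b + 1) / 2) q (by rw [hrow]; omega)
      (by rw [hrow]; exact hq)
    rw [hrow] at e1 e2
    linarith
  have h6 := h4.trans (Finset.sum_le_sum h5)
  rw [Finset.sum_const, Finset.card_univ, Fintype.card_fin, nsmul_eq_mul] at h6
  have h7 := h3.trans (Finset.sum_le_sum fun u _ =>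
    pool_levels P hN (lev u) τ d (h u) (hG u) d le_rfl)
  rw [Finset.sum_const, Finset.card_univ, nsmul_eq_mul] at h7
  have h8 : (n : ℝ) * (2 * Real.exp (-((p ^ d) ^ 2 * b / 8))) =
      2 * n * Real.exp (-((p ^ d) ^ 2 * b / 8)) := by ring
  linarith

end Pool.Agent.KCL
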