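import Pool.Agent.SW.Rounds

/-!
# The multi-switching lemma
-/

set_option autoImplicit false
set_option linter.unusedSectionVars false

namespace Pool.Agent.KCL

open Finset Pool.Agent.SW

variable {ι : Type} [Fintype ι] [DecidableEq ι] {J : Type}

/-- The functions `F j` with `S j` have a common decision tree of depth at most `t` with decision
trees of depth at most `r` at the leaves. -/
def CD (S : J → Prop) (r : ℕ) : ℕ → (J → (ι → Bool) → Bool) → Prop
  | 0, F => ∀ j, S j → DTle r (F j)
  | t + 1, F => (∀ j, S j → DTle r (F j)) ∨
      ∃ i : ι, ∀ b, CD S r t fun j x => F j (Function.update x i b)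

lemma CD.of_all {S : J → Prop} {r : ℕ} (t : ℕ) {F : J → (ι → Bool) → Bool}
    (h : ∀ j, S j → DTle r (F j)) : CD S r t F := by
  cases t with
  | zero => exact h
  | succ t => exact Or.inl h

lemma CD.succ {S : J → Prop} {r : ℕ} {t : ℕ} : ∀ {F : J → (ι → Bool) → Bool},
    CD S r t F → CD S r (t + 1) F := by
  induction t with
  | zero => exact fun h => Or.inl h
  | succ t ih =>
    rintro F (h | ⟨i, h⟩)
    · exact Or.inl h
    · exact Or.inr ⟨i, fun b => ih (h b)⟩

lemma CD.mono {S : J → Prop} {r t t' : ℕ} (h : t ≤ t') {F : J → (ι → Bool) → Bool}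
    (hF : CD S r t F) : CD S r t' F := by
  induction t', h using Nat.le_induction with
  | base => exact hF
  | succ n _ ih => exact ih.succ

/-- Query all variables of a set. -/
lemma CD.query {S : J → Prop} {r t : ℕ} (Y : Finset ι) : ∀ {F : J → (ι → Bool) → Bool},
    (∀ z : ι → Bool, CD S r t fun j x => F j fun i => if i ∈ Y then z i else x i) →
    CD S r (t + Y.card) F := by
  induction Y using Finset.induction_on with
  | empty =>
    intro F h
    have := h fun _ => false
    simpa using this
  | insert a Y ha ih =>
    intro F h
    rw [Finset.card_insert_of_notMem ha, ← Nat.add_assoc]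
    refine Or.inr ⟨a, fun b => ih fun z => ?_⟩
    have h1 := h (Function.update z a b)
    refine cast (congrArg (CD S r t) ?_) h1
    funext j x
    congr 1
    funext i
    by_cases hi : i = a
    · subst hi
      simp
    · by_cases hY : i ∈ Y
      · simp [hi, hY]
      · simp [hi, hY]

/-- Every common decision tree has depth at least `s`. -/
def CDeep (S : J → Prop) (r s : ℕ) (F : J → (ι → Bool) → Bool) : Prop :=
  ∀ t, CD S r t F → s ≤ t

lemma CDeep.zero (S : J → Prop) (r : ℕ) (F : J → (ι → Bool) → Bool) : CDeep S r 0 F :=
  fun _ _ => Nat.zero_le _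

/-- **The multi-switching lemma.** -/
theorem multi_switching {p γ μ : ℝ} (hp0 : 0 < p) (hp1 : p < 1) (hγ0 : 0 < γ) (hμ : 1 ≤ μ)
    (hδ : γ * μ ≤ 1) (T r : ℕ)
    (hT : ∀ k ≤ T, (4 * p / γ + (1 - p) / 2) ^ k ≤ 2 * ((1 - p) / 2) ^ k)
    [Fintype J] (hJ : (Fintype.card J : ℝ) ≤ μ ^ (r + 1)) (S : J → Prop) (s : ℕ) :
    ∀ (c n : ℕ) (f : (ι → Bool) → Bool), IsDNF T n f →
      ∀ F : J → (ι → Bool) → Bool, (∀ j, ∃ n, IsDNF T n (F j)) →
      ∀ Δ : (ι → Option Bool) → Prop, (∀ ρ ρ', Ext ρ ρ' → Δ ρ → Δ ρ') →
        W p (fun ρ => Δ ρ ∧ (Deep c (fun x => f (app ρ x)) ∧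
          CDeep S r s fun j x => F j (app ρ x))) * μ ^ c ≤ (γ * μ) ^ s * W p Δ := by
  classical
  have hμ0 : 0 < μ := by linarith
  have hγ1 : γ ≤ 1 := by nlinarith
  have hδ0 : 0 < γ * μ := mul_pos hγ0 hμ0
  induction s using Nat.strong_induction_on with
  | _ s IH =>
  rcases Nat.eq_zero_or_pos s with rfl | hs
  · -- the single switching lemma
    intro c n f hf F _ Δ hΔ
    have h1 := switching (p := p) (α := 1 / μ) hp0 hp1 (by positivity)
      (by rw [div_le_one hμ0]; exact hμ) T (fun k hk => by
        refine le_trans (pow_le_pow_left₀ ?_ ?_ k) (hT k hk)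
        · have : 0 ≤ 2 * p / (1 / μ) := by positivity
          linarith
        · have h2 : 2 * p / (1 / μ) ≤ 4 * p / γ := by
            rw [div_div_eq_mul_div, div_one, le_div_iff₀ hγ0]
            nlinarith
          linarith) n f hf Δ hΔ c
    have h2 : W p (fun ρ => Δ ρ ∧ (Deep c (fun x => f (app ρ x)) ∧
          CDeep S r 0 fun j x => F j (app ρ x))) ≤
        W p (fun ρ => Δ ρ ∧ Deep c fun x => f (app ρ x)) :=
      W_mono hp0.le hp1.le fun ρ h => ⟨h.1, h.2.1⟩
    rw [pow_zero, one_mul]
    calc W p (fun ρ => Δ ρ ∧ (Deep c (fun x => f (app ρ x)) ∧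
          CDeep S r 0 fun j x => F j (app ρ x))) * μ ^ c ≤ (1 / μ) ^ c * W p Δ * μ ^ c :=
          mul_le_mul_of_nonneg_right (h2.trans h1) (by positivity)
      _ = W p Δ := by
          rw [one_div, inv_pow]
          field_simp
  -- positive `s` and positive `c`
  have hpos : ∀ (n c : ℕ), 0 < c → ∀ (f : (ι → Bool) → Bool), IsDNF T n f →
      ∀ F : J → (ι → Bool) → Bool, (∀ j, ∃ n, IsDNF T n (F j)) →
      ∀ Δ : (ι → Option Bool) → Prop, (∀ ρ ρ', Ext ρ ρ' → Δ ρ → Δ ρ') →
        W p (fun ρ => Δ ρ ∧ (Deep c (fun x => f (app ρ x)) ∧
          CDeep S r s fun j x => F j (app ρ x))) * μ ^ c ≤ (γ * μ) ^ s * W p Δ := by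
    intro n
    induction n with
    | zero =>
      intro c hc f hf F _ Δ _
      have : W p (fun ρ : ι → Option Bool => Δ ρ ∧ (Deep c (fun x => f (app ρ x)) ∧
          CDeep S r s fun j x => F j (app ρ x))) =
          W p fun _ : ι → Option Bool => False := by
        refine W_congr fun ρ => ?_
        rw [iff_false]
        rintro ⟨_, h, _⟩
        have := h 0 ⟨false, fun x => hf _⟩
        omega
      rw [this, W_false, zero_mul]
      exact mul_nonneg (pow_nonneg hδ0.le _) (W_nonneg hp0.le hp1.le _)
    | succ n ih =>
      rintro c hc f ⟨g, f', hg, hf', h⟩ F hF Δ hΔ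
      rcases hg with hg | ⟨A, b, hA, hg⟩
      · have : f = f' := funext fun x => by rw [h x, hg x, Bool.false_or]
        rw [this]
        exact ih c hc f' hf' F hF Δ hΔ
      set q : ℝ := (1 - p) / 2 with hq
      have hq0 : 0 < q := by rw [hq]; linarith
      -- patterns on `A`
      set pat : Finset ι → ι → Option Bool := fun Y i => if i ∈ Y then none else some (b i)
        with hpat
      set kill : (ι → Option Bool) → Prop := fun ρ => ∃ i ∈ A, ρ i = some (!b i) with hkill
      set ins : Finset ι → (ι → Option Bool) → ι → Option Bool := fun Y ρ i =>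
        if i ∈ A then pat Y i else ρ i with hins
      set ΔY : Finset ι → (ι → Option Bool) → Prop := fun Y ρ => Δ (ins Y ρ) with hΔY
      set σ : Finset ι → Finset ι → ι → Option Bool := fun Y P i =>
        if i ∈ A then (if i ∈ Y then some (decide (i ∈ P)) else some (b i)) else none with hσ
      set Ev : Finset ι → Finset ι → Finset ι → (ι → Option Bool) → Prop := fun Y P P' ρ =>
        (∀ i ∈ A, ρ i = pat Y i) ∧ (ΔY Y ρ ∧
            (Deep (c - Y.card) (fun x => f' (app (σ Y P) (app ρ x))) ∧
              CDeep S r (s - Y.card) fun j x => F j (app (σ Y P') (app ρ x)))) with hEv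
      -- the two parts
      have hsplit : W p (fun ρ => Δ ρ ∧ (Deep c (fun x => f (app ρ x)) ∧
            CDeep S r s fun j x => F j (app ρ x))) ≤
          W p (fun ρ => (Δ ρ ∧ kill ρ) ∧ (Deep c (fun x => f' (app ρ x)) ∧
            CDeep S r s fun j x => F j (app ρ x))) +
          ∑ Y ∈ A.powerset.erase ∅, ∑ P ∈ Y.powerset, ∑ P' ∈ Y.powerset, W p (Ev Y P P') := by
        refine le_trans ?_ (add_le_add le_rfl ((W_exists_le hp0.le hp1.le (A.powerset.erase ∅)
          (fun Y ρ => ∃ P ∈ Y.powerset, ∃ P' ∈ Y.powerset, Ev Y P P' ρ)).trans
          (Finset.sum_le_sum fun Y _ => (W_exists_le hp0.le hp1.le Y.powerset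
            (fun P ρ => ∃ P' ∈ Y.powerset, Ev Y P P' ρ)).trans
            (Finset.sum_le_sum fun P _ => W_exists_le hp0.le hp1.le Y.powerset _))))
        refine le_trans (W_mono hp0.le hp1.le ?_) (W_or_le (ι := ι) hp0.le hp1.le _ _)
        rintro ρ ⟨hρΔ, hρ, hρF⟩
        by_cases hk : kill ρ
        · left
          refine ⟨⟨hρΔ, hk⟩, ?_, hρF⟩
          obtain ⟨i, hi, hki⟩ := hk
          have : (fun x => f (app ρ x)) = fun x => f' (app ρ x) := by
            funext x
            rw [h]
            have : g (app ρ x) = false := by
              by_contra hne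
              have h1 := (hg (app ρ x)).1 (by simpa using hne) i hi
              simp [app, hki] at h1
            rw [this, Bool.false_or]
          rwa [this] at hρ
        · right
          have hk' : ∀ i ∈ A, ρ i ≠ some (!b i) := fun i hi hc => hk ⟨i, hi, hc⟩
          set Y := A.filter fun i => ρ i = none with hY
          have hYA : Y ⊆ A := Finset.filter_subset _ _
          have hpatY : ∀ i ∈ A, ρ i = pat Y i := by
            intro i hi
            simp only [hpat]
            rcases hρi : ρ i with _ | c
            · have : i ∈ Y := Finset.mem_filter.2 ⟨hi, hρi⟩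
              rw [if_pos this]
            · have : i ∉ Y := by
                intro hc
                rw [(Finset.mem_filter.1 hc).2] at hρi
                exact absurd hρi (by simp)
              rw [if_neg this]
              have h1 := hk' i hi
              rw [hρi] at h1
              revert h1
              cases c <;> cases b i <;> simp
          have hYne : Y ≠ ∅ := by
            intro hc
            have h1 : ∀ i ∈ A, ρ i = some (b i) := by
              intro i hi
              rw [hpatY i hi, hc]
              simp [hpat]
            have := hρ 0 ⟨true, fun x => by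
              show f (app ρ x) = true
              rw [h, (hg _).2 (app_true_of_forall h1 x), Bool.true_or]⟩
            omega
          have hins' : ins Y ρ = ρ := by
            funext i
            simp only [hins]
            by_cases hi : i ∈ A
            · rw [if_pos hi, hpatY i hi]
            · rw [if_neg hi]
          have hΔY' : ΔY Y ρ := by
            simp only [hΔY, hins']
            exact hρΔ
          -- substitution in the live variables of the term
          have happ : ∀ (z x : ι → Bool), (app ρ fun i => if i ∈ Y then z i else x i) =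
              app (σ Y (Y.filter fun i => z i = true)) (app ρ x) := by
            intro z x
            funext i
            by_cases hi : i ∈ A
            · by_cases hiY : i ∈ Y
              · have hρi : ρ i = none := (Finset.mem_filter.1 hiY).2
                simp only [app, hσ, if_pos hi, if_pos hiY, hρi, Option.getD_none,
                  Option.getD_some, Finset.mem_filter]
                cases z i <;> simp [hiY]
              · have hρi : ρ i = some (b i) := by
                  rw [hpatY i hi]
                  simp [hpat, hiY]
                simp [app, hσ, hi, hiY, hρi]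
            · have hiY : i ∉ Y := fun hc => hi (hYA hc)
              simp [app, hσ, hi, hiY]
          -- the long path
          have hP : ∃ P ∈ Y.powerset, Deep (c - Y.card) fun x => f' (app (σ Y P) (app ρ x)) := by
            by_contra hcon
            push Not at hcon
            have hall : ∀ z : ι → Bool, DTle (c - Y.card - 1) fun x => f (app ρ fun i =>
                if i ∈ Y then z i else x i) := by
              intro z
              by_cases hsat : ∀ i ∈ Y, z i = b i
              · -- the term is satisfied
                refine DTle.of_const ⟨true, fun x => ?_⟩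
                rw [h, (hg _).2 ?_, Bool.true_or]
                intro i hi
                rw [happ]
                by_cases hiY : i ∈ Y
                · have h1 := hsat i hiY
                  simp only [app, hσ, if_pos hi, if_pos hiY, Option.getD_some,
                    Finset.mem_filter]
                  rw [← h1]
                  cases z i <;> simp [hiY]
                · simp [app, hσ, hi, hiY]
              · push Not at hsat
                obtain ⟨i₀, hi₀, hne₀⟩ := hsat
                have h1 : ∀ x : ι → Bool, f (app ρ fun i => if i ∈ Y then z i else x i) =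
                    f' (app (σ Y (Y.filter fun i => z i = true)) (app ρ x)) := by
                  intro x
                  rw [h, ← happ]
                  have : g (app ρ fun i => if i ∈ Y then z i else x i) = false := by
                    by_contra hne
                    have h2 := (hg _).1 (by simpa using hne) i₀ (hYA hi₀)
                    have hρi : ρ i₀ = none := (Finset.mem_filter.1 hi₀).2
                    simp only [app, hρi, Option.getD_none, if_pos hi₀] at h2
                    exact hne₀ h2
                  rw [this, Bool.false_or]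
                simp only [h1]
                have h2 := hcon _ (Finset.mem_powerset.2 (Finset.filter_subset
                  (fun i => z i = true) Y))
                unfold Deep at h2
                push Not at h2
                obtain ⟨t, ht, hts⟩ := h2
                exact ht.mono (by omega)
            have hlt : Y.card < c := by
              by_contra hge
              have h2 := hcon ∅ (Finset.mem_powerset.2 (Finset.empty_subset _))
              unfold Deep at h2
              push Not at h2
              obtain ⟨t, _, hts⟩ := h2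
              omega
            have h3 := DTle.query (f := fun x => f (app ρ x)) Y (t := c - Y.card - 1) hall
            have h4 := hρ _ h3
            omega
          -- the branch of the common tree
          have hP' : ∃ P' ∈ Y.powerset, CDeep S r (s - Y.card)
              fun j x => F j (app (σ Y P') (app ρ x)) := by
            by_contra hcon
            push Not at hcon
            have hlt : Y.card < s := by
              by_contra hge
              have h2 := hcon ∅ (Finset.mem_powerset.2 (Finset.empty_subset _))
              unfold CDeep at h2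
              push Not at h2
              obtain ⟨t, _, hts⟩ := h2
              omega
            have hall : ∀ z : ι → Bool, CD S r (s - Y.card - 1) fun j x => F j (app ρ fun i =>
                if i ∈ Y then z i else x i) := by
              intro z
              simp only [happ]
              have h2 := hcon _ (Finset.mem_powerset.2 (Finset.filter_subset
                (fun i => z i = true) Y))
              unfold CDeep at h2
              push Not at h2
              obtain ⟨t, ht, hts⟩ := h2
              exact ht.mono (by omega)
            have h3 := CD.query (F := fun j x => F j (app ρ x)) Y (t := s - Y.card - 1) hall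
            have h4 := hρF _ h3
            omega
          obtain ⟨P, hPm, hPd⟩ := hP
          obtain ⟨P', hPm', hPd'⟩ := hP'
          exact ⟨Y, Finset.mem_erase.2 ⟨hYne, Finset.mem_powerset.2 hYA⟩, P, hPm, P', hPm',
            hpatY, hΔY', hPd, hPd'⟩
      -- independence of `ΔY` and of the substituted function from `A`
      have hinsu : ∀ (Y : Finset ι) (ρ : ι → Option Bool), ∀ a ∈ A, ∀ o',
          ins Y (Function.update ρ a o') = ins Y ρ := by
        intro Y ρ a ha o'
        funext i
        simp only [hins]
        by_cases hi : i ∈ A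
        · rw [if_pos hi, if_pos hi]
        · rw [if_neg hi, if_neg hi]
          have hne : i ≠ a := fun hc => hi (hc ▸ ha)
          rw [Function.update_of_ne hne]
      have hσu : ∀ (Y P : Finset ι) (ρ : ι → Option Bool), ∀ a ∈ A, ∀ o', ∀ x : ι → Bool,
          app (σ Y P) (app (Function.update ρ a o') x) = app (σ Y P) (app ρ x) := by
        intro Y P ρ a ha o' x
        funext i
        by_cases hi : i ∈ A
        · by_cases hiY : i ∈ Y
          · simp [app, hσ, hi, hiY]
          · simp [app, hσ, hi, hiY]
        · have hne : i ≠ a := fun hc => hi (hc ▸ ha)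
          simp [app, hσ, hi, Function.update_of_ne hne]
      have hclosed : ∀ Y ρ ρ', Ext ρ ρ' → ΔY Y ρ → ΔY Y ρ' := by
        intro Y ρ ρ' he hρ
        refine hΔ _ _ ?_ hρ
        intro i
        simp only [hins]
        by_cases hi : i ∈ A
        · rw [if_pos hi, if_pos hi]
          exact Or.inr rfl
        · rw [if_neg hi, if_neg hi]
          exact he i
      have hempty : ∀ Y, Y ⊆ A → W p (ΔY Y) ≤ W p (ΔY ∅) := by
        intro Y _
        refine W_mono hp0.le hp1.le fun ρ hρ => hΔ _ _ ?_ hρ
        intro i
        simp only [hins, hpat]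
        by_cases hi : i ∈ A
        · by_cases hiY : i ∈ Y
          · rw [if_pos hi, if_pos hiY]
            exact Or.inl rfl
          · rw [if_pos hi, if_pos hi, if_neg hiY, if_neg (Finset.notMem_empty i)]
            exact Or.inr rfl
        · rw [if_neg hi, if_neg hi]
          exact Or.inr rfl
      have hwpat : ∀ Y, Y ⊆ A →
          ∏ i ∈ A, w1 p (pat Y i) = p ^ Y.card * q ^ (A.card - Y.card) := by
        intro Y hY
        have h1 : ∀ i ∈ A, w1 p (pat Y i) = if i ∈ Y then p else q := by
          intro i _
          simp only [hpat]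
          split <;> rfl
        rw [Finset.prod_congr rfl h1, Finset.prod_ite, Finset.prod_const, Finset.prod_const]
        congr 2
        · rw [Finset.filter_mem_eq_inter, Finset.inter_eq_right.2 hY]
        · rw [Finset.filter_not, Finset.filter_mem_eq_inter, Finset.inter_eq_right.2 hY,
            Finset.card_sdiff_of_subset hY]
      -- the killed part
      have hpart1 : W p (fun ρ => (Δ ρ ∧ kill ρ) ∧ (Deep c (fun x => f' (app ρ x)) ∧
            CDeep S r s fun j x => F j (app ρ x))) * μ ^ c ≤
          (γ * μ) ^ s * W p (fun ρ => Δ ρ ∧ kill ρ) := by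
        refine ih c hc f' hf' F hF (fun ρ => Δ ρ ∧ kill ρ) ?_
        rintro ρ ρ' he ⟨h1, i, hi, h2⟩
        refine ⟨hΔ _ _ he h1, i, hi, ?_⟩
        rcases he i with h3 | h3
        · rw [h3] at h2
          exact absurd h2 (by simp)
        · rw [h3, h2]
      -- one pattern
      have hpart2 : ∀ Y ∈ A.powerset.erase ∅, ∀ P ∈ Y.powerset, ∀ P' ∈ Y.powerset,
          W p (Ev Y P P') * μ ^ c ≤
          (γ * μ) ^ s * W p (ΔY ∅) * ((p / γ) ^ Y.card * q ^ (A.card - Y.card)) := by
        intro Y hY P _ P' _
        have hYA : Y ⊆ A := Finset.mem_powerset.1 (Finset.mem_of_mem_erase hY)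
        have hYpos : 0 < Y.card :=
          Finset.card_pos.2 (Finset.nonempty_iff_ne_empty.2 (Finset.ne_of_mem_erase hY))
        simp only [hEv]
        rw [W_pat A (pat Y) _ ?_, hwpat Y hYA]
        · have h1 := IH (s - Y.card) (by omega) (c - Y.card) n (fun x => f' (app (σ Y P) x))
            (hf'.app _) (fun j x => F j (app (σ Y P') x)) (fun j => by
              obtain ⟨n', hn'⟩ := hF j
              exact ⟨n', hn'.app _⟩) (ΔY Y) (hclosed Y)
          have h3 : 0 ≤ W p (ΔY Y) := W_nonneg hp0.le hp1.le _
          set X : ℝ := W p (fun ρ => ΔY Y ρ ∧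
            (Deep (c - Y.card) (fun x => f' (app (σ Y P) (app ρ x))) ∧
              CDeep S r (s - Y.card) fun j x => F j (app (σ Y P') (app ρ x)))) with hX
          have hX0 : 0 ≤ X := W_nonneg hp0.le hp1.le _
          -- powers
          have h4 : μ ^ c ≤ μ ^ (c - Y.card) * μ ^ Y.card := by
            rw [← pow_add]
            exact pow_le_pow_right₀ hμ (by omega)
          have h5 : (γ * μ) ^ (s - Y.card) * (γ * μ) ^ Y.card ≤ (γ * μ) ^ s := by
            rw [← pow_add]
            exact pow_le_pow_of_le_one hδ0.le hδ (by omega)
          have h6 : X * μ ^ c ≤ (γ * μ) ^ s * W p (ΔY ∅) * (1 / γ) ^ Y.card := by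
            have e1 : X * μ ^ c ≤ (X * μ ^ (c - Y.card)) * μ ^ Y.card := by
              rw [mul_assoc]
              exact mul_le_mul_of_nonneg_left h4 hX0
            have e2 : (X * μ ^ (c - Y.card)) * μ ^ Y.card ≤
                ((γ * μ) ^ (s - Y.card) * W p (ΔY Y)) * μ ^ Y.card :=
              mul_le_mul_of_nonneg_right h1 (by positivity)
            have e3 : ((γ * μ) ^ (s - Y.card) * W p (ΔY Y)) * μ ^ Y.card =
                ((γ * μ) ^ (s - Y.card) * (γ * μ) ^ Y.card) * W p (ΔY Y) * (1 / γ) ^ Y.card := by
              rw [mul_pow γ μ Y.card, one_div, inv_pow]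
              field_simp
            have e4 : ((γ * μ) ^ (s - Y.card) * (γ * μ) ^ Y.card) * W p (ΔY Y) *
                (1 / γ) ^ Y.card ≤ (γ * μ) ^ s * W p (ΔY ∅) * (1 / γ) ^ Y.card := by
              refine mul_le_mul_of_nonneg_right ?_ (by positivity)
              exact mul_le_mul h5 (hempty Y hYA) h3 (by positivity)
            linarith
          calc p ^ Y.card * q ^ (A.card - Y.card) * X * μ ^ c
              = p ^ Y.card * q ^ (A.card - Y.card) * (X * μ ^ c) := by ring
            _ ≤ p ^ Y.card * q ^ (A.card - Y.card) *
                ((γ * μ) ^ s * W p (ΔY ∅) * (1 / γ) ^ Y.card) :=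
                mul_le_mul_of_nonneg_left h6 (by positivity)
            _ = (γ * μ) ^ s * W p (ΔY ∅) * ((p / γ) ^ Y.card * q ^ (A.card - Y.card)) := by
                rw [div_pow, one_div, inv_pow]
                ring
        · intro ρ a ha o'
          simp only [hΔY, hinsu Y ρ a ha o', hσu Y P ρ a ha o', hσu Y P' ρ a ha o']
      -- summation
      have hsum : (∑ Y ∈ A.powerset.erase ∅, ∑ P ∈ Y.powerset, ∑ P' ∈ Y.powerset,
            W p (Ev Y P P')) * μ ^ c ≤
          (γ * μ) ^ s * W p (ΔY ∅) * q ^ A.card := by
        have h1 : (∑ Y ∈ A.powerset.erase ∅, ∑ P ∈ Y.powerset, ∑ P' ∈ Y.powerset,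
            W p (Ev Y P P')) * μ ^ c ≤
            ∑ Y ∈ A.powerset.erase ∅, (γ * μ) ^ s * W p (ΔY ∅) *
              ((4 * p / γ) ^ Y.card * q ^ (A.card - Y.card)) := by
          rw [Finset.sum_mul]
          refine Finset.sum_le_sum fun Y hY => ?_
          rw [Finset.sum_mul]
          have h2 : ∀ P ∈ Y.powerset, (∑ P' ∈ Y.powerset, W p (Ev Y P P')) * μ ^ c ≤
              2 ^ Y.card * ((γ * μ) ^ s * W p (ΔY ∅) *
                ((p / γ) ^ Y.card * q ^ (A.card - Y.card))) := by
            intro P hP
            rw [Finset.sum_mul]
            refine (Finset.sum_le_sum fun P' hP' => hpart2 Y hY P hP P' hP').trans (le_of_eq ?_)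
            rw [Finset.sum_const, Finset.card_powerset, nsmul_eq_mul]
            push_cast
            rfl
          refine (Finset.sum_le_sum h2).trans (le_of_eq ?_)
          rw [Finset.sum_const, Finset.card_powerset, nsmul_eq_mul]
          push_cast
          have : (4 * p / γ) ^ Y.card = 2 ^ Y.card * 2 ^ Y.card * (p / γ) ^ Y.card := by
            rw [← mul_pow, ← mul_pow]
            congr 1
            ring
          rw [this]
          ring
        refine h1.trans ?_
        rw [← Finset.mul_sum]
        refine mul_le_mul_of_nonneg_left ?_ (mul_nonneg (pow_nonneg hδ0.le _)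
          (W_nonneg hp0.le hp1.le _))
        have h2 := Finset.sum_pow_mul_eq_add_pow (4 * p / γ) q A
        have h3 := Finset.add_sum_erase A.powerset
          (fun Y => (4 * p / γ) ^ Y.card * q ^ (A.card - Y.card)) (Finset.empty_mem_powerset A)
        simp only [Finset.card_empty, pow_zero, one_mul, Nat.sub_zero] at h3
        have h4 := hT A.card hA
        linarith
      -- the pattern without stars
      have hnone : W p (ΔY ∅) * q ^ A.card ≤ W p (fun ρ => Δ ρ ∧ ¬ kill ρ) := by
        have h1 := W_pat (p := p) A (pat ∅) (ΔY ∅) (fun ρ a ha o' => by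
          simp only [hΔY, hinsu ∅ ρ a ha o'])
        rw [hwpat ∅ (Finset.empty_subset A), Finset.card_empty, pow_zero, one_mul,
          Nat.sub_zero] at h1
        rw [mul_comm, ← h1]
        refine W_mono hp0.le hp1.le ?_
        rintro ρ ⟨hρ, hρΔ⟩
        have hins' : ins ∅ ρ = ρ := by
          funext i
          simp only [hins]
          by_cases hi : i ∈ A
          · rw [if_pos hi, hρ i hi]
          · rw [if_neg hi]
        refine ⟨by simpa only [hΔY, hins'] using hρΔ, ?_⟩
        rintro ⟨i, hi, hk⟩
        rw [hρ i hi] at hk
        simp [hpat] at hk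
      calc W p (fun ρ => Δ ρ ∧ (Deep c (fun x => f (app ρ x)) ∧
              CDeep S r s fun j x => F j (app ρ x))) * μ ^ c
          ≤ (W p (fun ρ => (Δ ρ ∧ kill ρ) ∧ (Deep c (fun x => f' (app ρ x)) ∧
            CDeep S r s fun j x => F j (app ρ x))) +
            ∑ Y ∈ A.powerset.erase ∅, ∑ P ∈ Y.powerset, ∑ P' ∈ Y.powerset,
              W p (Ev Y P P')) * μ ^ c := mul_le_mul_of_nonneg_right hsplit (by positivity)
        _ ≤ (γ * μ) ^ s * W p (fun ρ => Δ ρ ∧ kill ρ) +
            (γ * μ) ^ s * W p (ΔY ∅) * q ^ A.card := by
            rw [add_mul]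
            exact add_le_add hpart1 hsum
        _ = (γ * μ) ^ s * (W p (fun ρ => Δ ρ ∧ kill ρ) + W p (ΔY ∅) * q ^ A.card) := by ring
        _ ≤ (γ * μ) ^ s * (W p (fun ρ => Δ ρ ∧ kill ρ) + W p (fun ρ => Δ ρ ∧ ¬ kill ρ)) :=
            mul_le_mul_of_nonneg_left (add_le_add le_rfl hnone) (pow_nonneg hδ0.le _)
        _ = (γ * μ) ^ s * W p Δ := by rw [← W_split]
  intro c n f hf F hF Δ hΔ
  rcases Nat.eq_zero_or_pos c with rfl | hc
  · -- no condition on `f`
    rw [pow_zero, mul_one]
    have h1 : W p (fun ρ => Δ ρ ∧ (Deep 0 (fun x => f (app ρ x)) ∧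
          CDeep S r s fun j x => F j (app ρ x))) ≤
        W p (fun ρ => ∃ j ∈ (univ : Finset J), Δ ρ ∧ (Deep (r + 1) (fun x => F j (app ρ x)) ∧
          CDeep S r s fun j x => F j (app ρ x))) := by
      refine W_mono hp0.le hp1.le ?_
      rintro ρ ⟨h1, -, h2⟩
      have h3 : ¬ ∀ j, S j → DTle r (fun x => F j (app ρ x)) := by
        intro h4
        have := h2 0 h4
        omega
      push Not at h3
      obtain ⟨j, -, hj⟩ := h3
      refine ⟨j, mem_univ j, h1, ?_, h2⟩
      intro t ht
      by_contra hlt
      exact hj (ht.mono (by omega))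
    refine h1.trans ((W_exists_le hp0.le hp1.le _ _).trans ?_)
    have h2 : ∀ j ∈ (univ : Finset J), W p (fun ρ => Δ ρ ∧
        (Deep (r + 1) (fun x => F j (app ρ x)) ∧
          CDeep S r s fun j x => F j (app ρ x))) ≤
        (γ * μ) ^ s * W p Δ / μ ^ (r + 1) := by
      intro j _
      obtain ⟨n', hn'⟩ := hF j
      rw [le_div_iff₀ (by positivity)]
      exact hpos n' (r + 1) (by omega) (F j) hn' F hF Δ hΔ
    refine (Finset.sum_le_sum h2).trans ?_
    rw [Finset.sum_const, Finset.card_univ, nsmul_eq_mul, mul_div_assoc', div_le_iff₀
      (by positivity), mul_comm]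
    refine mul_le_mul_of_nonneg_left hJ ?_
    exact mul_nonneg (pow_nonneg hδ0.le _) (W_nonneg hp0.le hp1.le _)
  · exact hpos n c hc f hf F hF Δ hΔ

end Pool.Agent.KCL
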