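import Pool.Agent.KCL.Tests
import Pool.Agent.KCL.MultiSwitch

/-!
# Correlation with special gates below a common decision tree
-/

set_option autoImplicit false
set_option linter.unusedSectionVars false

namespace Pool.Agent.KCL

open Finset Pool.Agent.SW Pool.Agent.Helper32.QS

open Classical in
/-- The indicator of a proposition. -/
noncomputable def ind (Q : Prop) : ℝ := if Q then 1 else 0

lemma ind_pos {Q : Prop} (h : Q) : ind Q = 1 := by
  unfold ind
  exact if_pos h

lemma ind_neg {Q : Prop} (h : ¬ Q) : ind Q = 0 := by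
  unfold ind
  exact if_neg h

lemma ind_nonneg (Q : Prop) : 0 ≤ ind Q := by
  by_cases h : Q
  · rw [ind_pos h]
    norm_num
  · rw [ind_neg h]

lemma ind_le_one (Q : Prop) : ind Q ≤ 1 := by
  by_cases h : Q
  · rw [ind_pos h]
  · rw [ind_neg h]
    norm_num

lemma ind_congr {Q Q' : Prop} (h : Q ↔ Q') : ind Q = ind Q' := by rw [propext h]

lemma ind_and (Q Q' : Prop) : ind (Q ∧ Q') = ind Q * ind Q' := by
  by_cases h : Q
  · rw [ind_pos h, one_mul]
    exact ind_congr ⟨fun h2 => h2.2, fun h2 => ⟨h, h2⟩⟩
  · rw [ind_neg h, zero_mul]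
    exact ind_neg fun h2 => h h2.1

lemma ind_forall {J : Type} [Fintype J] (A : J → Prop) : ind (∀ j, A j) = ∏ j, ind (A j) := by
  by_cases h : ∀ j, A j
  · rw [ind_pos h]
    exact (Finset.prod_eq_one fun j _ => ind_pos (h j)).symm
  · rw [ind_neg h]
    push Not at h
    obtain ⟨j, hj⟩ := h
    exact (Finset.prod_eq_zero (Finset.mem_univ j) (ind_neg hj)).symm

variable {V : Type} [Fintype V] [DecidableEq V] {q : ℕ}

lemma CubeClosed.and {H H' : (V → Bool) → Prop} (h : CubeClosed q H) (h' : CubeClosed q H') :
    CubeClosed q fun x => H x ∧ H' x := fun x B hB hK =>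
  ⟨h x B hB fun K hKn => (hK K hKn).1, h' x B hB fun K hKn => (hK K hKn).2⟩

lemma CubeClosed.all {J : Type} {H : J → (V → Bool) → Prop} (h : ∀ j, CubeClosed q (H j)) :
    CubeClosed q fun x => ∀ j, H j x := fun x B hB hK j =>
  h j x B hB fun K hKn => hK K hKn j

lemma CubeClosed.true : CubeClosed q fun _ : V → Bool => True := fun _ _ _ _ => trivial

/-- Subcubes are closed. -/
lemma CubeClosed.coord (hq : 2 ≤ q) (i : V) (b : Bool) :
    CubeClosed q fun x : V → Bool => x i = b := by
  intro x B hB hK
  have h0 : (⟨0, by omega⟩ : Fin q) ≠ ⟨1, by omega⟩ := by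
    intro h
    have := congrArg Fin.val h
    simp at this
  obtain ⟨l, hl⟩ : ∃ l : Fin q, i ∉ B l := by
    by_cases h1 : i ∈ B ⟨0, by omega⟩
    · exact ⟨⟨1, by omega⟩, Finset.disjoint_left.mp (hB _ _ h0) h1⟩
    · exact ⟨_, h1⟩
  have h2 : Helper32.QS.flip x (({l} : Finset (Fin q)).biUnion B) i = b :=
    hK {l} ⟨l, Finset.mem_singleton_self l⟩
  rw [flip_apply_of_notMem] at h2
  · exact h2
  · rw [Finset.singleton_biUnion]
    exact hl

variable {Y : Type} [Fintype Y] (em : Y → V → Bool) (G : Y → ℝ)

/-- Products of signed sums of indicators of closed sets. -/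
lemma prod_corr {B : ℝ} (hB : ∀ H : (V → Bool) → Prop, CubeClosed q H →
      |∑ y, ind (H (em y)) * G y| ≤ B) {k s' : ℕ} (A : Fin k → (V → Bool) → Prop)
    (Q : Fin k → Fin s' → (V → Bool) → Prop) (ε : Fin k → Fin s' → ℝ)
    (hQ : ∀ j l, CubeClosed q (Q j l)) (hε : ∀ j l, |ε j l| ≤ 1)
    (hA : ∀ j x, ind (A j x) = ∑ l, ε j l * ind (Q j l x))
    (H : (V → Bool) → Prop) (hH : CubeClosed q H) :
    |∑ y, ind (H (em y) ∧ ∀ j, A j (em y)) * G y| ≤ (s' : ℝ) ^ k * B := by
  classical
  have h1 : ∀ y, ind (H (em y) ∧ ∀ j, A j (em y)) * G y =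
      ∑ θ : Fin k → Fin s', (∏ j, ε j (θ j)) *
        (ind (H (em y) ∧ ∀ j, Q j (θ j) (em y)) * G y) := by
    intro y
    rw [ind_and, ind_forall]
    simp only [hA]
    rw [Finset.prod_univ_sum, Fintype.piFinset_univ, Finset.mul_sum, Finset.sum_mul]
    refine Finset.sum_congr rfl fun θ _ => ?_
    rw [ind_and, ind_forall, Finset.prod_mul_distrib]
    ring
  rw [Finset.sum_congr rfl fun y _ => h1 y, Finset.sum_comm]
  refine (Finset.abs_sum_le_sum_abs _ _).trans ?_
  have h2 : ∀ θ ∈ (univ : Finset (Fin k → Fin s')), |∑ y, (∏ j, ε j (θ j)) *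
        (ind (H (em y) ∧ ∀ j, Q j (θ j) (em y)) * G y)| ≤ B := by
    intro θ _
    rw [← Finset.mul_sum, abs_mul]
    have h3 : |∏ j, ε j (θ j)| ≤ 1 := by
      rw [Finset.abs_prod]
      exact Finset.prod_le_one (fun _ _ => abs_nonneg _) fun j _ => hε j _
    have h4 := hB (fun x => H x ∧ ∀ j, Q j (θ j) x)
      (hH.and (CubeClosed.all fun j => hQ j (θ j)))
    have h5 := abs_nonneg (∑ y, ind (H (em y) ∧ ∀ j, Q j (θ j) (em y)) * G y)
    calc |∏ j, ε j (θ j)| * |∑ y, ind (H (em y) ∧ ∀ j, Q j (θ j) (em y)) * G y|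
        ≤ 1 * |∑ y, ind (H (em y) ∧ ∀ j, Q j (θ j) (em y)) * G y| :=
          mul_le_mul_of_nonneg_right h3 h5
      _ ≤ B := by rw [one_mul]; exact h4
  refine (Finset.sum_le_sum h2).trans (le_of_eq ?_)
  rw [Finset.sum_const, Finset.card_univ, Fintype.card_fun, Fintype.card_fin, Fintype.card_fin,
    nsmul_eq_mul]
  push_cast
  rfl

/-- **Special gates below a common decision tree.** -/
theorem tree_corr {B : ℝ} (hq : 2 ≤ q) (hB : ∀ H : (V → Bool) → Prop, CubeClosed q H →
      |∑ y, ind (H (em y)) * G y| ≤ B) {m w D e r k s N : ℕ} (hm : m ≠ 0) (hr : 1 ≤ r)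
    (hq1 : ZB (w * (m * (D * r))) (D * r) m.primeFactorsList.length ≤ q) (hq2 : e * r < q)
    (v : Fin k → Bool) (P : Fin k → (V ⊕ Fin N → Bool) → Bool)
    (hP : ∀ j, SignedSum m w D e s (P j)) (T : ℕ) :
    ∀ h : Fin N → (V → Bool) → Bool, CD (fun _ => True) r T h →
      ∀ H : (V → Bool) → Prop, CubeClosed q H →
        |∑ y, ind (H (em y) ∧ ∀ j, v j = P j (Sum.elim (em y) fun g => h g (em y))) * G y| ≤
          2 ^ T * (((s + 1 : ℕ) : ℝ) ^ k * B) := by
  classical
  have hB0 : 0 ≤ B := (abs_nonneg _).trans (hB (fun _ => True) CubeClosed.true)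
  choose Q ε hQ hε hPQ using hP
  have base : ∀ h : Fin N → (V → Bool) → Bool, (∀ g, DTle r (h g)) →
      ∀ H : (V → Bool) → Prop, CubeClosed q H →
        |∑ y, ind (H (em y) ∧ ∀ j, v j = P j (Sum.elim (em y) fun g => h g (em y))) * G y| ≤
          ((s + 1 : ℕ) : ℝ) ^ k * B := by
    intro h hh H hH
    let u : V ⊕ Fin N → (V → Bool) → Bool := Sum.elim (fun i x => x i) h
    have hu : ∀ c, DTle r (u c) := by
      rintro (i | g)
      · refine DTle.mono hr (Or.inr ⟨i, fun b => ⟨b, fun x => ?_⟩⟩)
        show Function.update x i b i = b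
        rw [Function.update_self]
      · exact hh g
    have hux : ∀ x, (fun c => u c x) = Sum.elim x fun g => h g x := by
      intro x
      funext c
      rcases c with i | g
      · rfl
      · rfl
    refine prod_corr em G hB (fun j x => v j = P j (Sum.elim x fun g => h g x))
      (fun j => Fin.cases (fun _ => True) fun l x => Q j l (Sum.elim x fun g => h g x) = true)
      (fun j => Fin.cases (if v j = true then (0 : ℝ) else 1)
        fun l => if v j = true then (ε j l : ℝ) else -(ε j l : ℝ)) ?_ ?_ ?_ H hH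
    · intro j l
      refine Fin.cases ?_ (fun l => ?_) l
      · exact CubeClosed.true
      · show CubeClosed q fun x => Q j l (Sum.elim x fun g => h g x) = true
        have h1 := closed_tests hm u hu (Q j l) (hQ j l) hq1 hq2
        simp only [hux] at h1
        exact h1
    · intro j l
      refine Fin.cases ?_ (fun l => ?_) l
      · show |if v j = true then (0 : ℝ) else 1| ≤ 1
        split_ifs <;> norm_num
      · show |if v j = true then (ε j l : ℝ) else -(ε j l : ℝ)| ≤ 1
        have h1 : |(ε j l : ℝ)| ≤ 1 := by exact_mod_cast hε j l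
        split_ifs
        · exact h1
        · rw [abs_neg]
          exact h1
    · intro j x
      rw [Fin.sum_univ_succ]
      show ind (v j = P j (Sum.elim x fun g => h g x)) =
        (if v j = true then (0 : ℝ) else 1) * ind True +
        ∑ l : Fin s, (if v j = true then (ε j l : ℝ) else -(ε j l : ℝ)) *
          ind (Q j l (Sum.elim x fun g => h g x) = true)
      rw [ind_pos trivial, mul_one]
      have h1 : (∑ l : Fin s, (ε j l : ℝ) * ind (Q j l (Sum.elim x fun g => h g x) = true)) =
          ind (P j (Sum.elim x fun g => h g x) = true) := by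
        have h2 := hPQ j (Sum.elim x fun g => h g x)
        have h3 : ind (P j (Sum.elim x fun g => h g x) = true) =
            ((if P j (Sum.elim x fun g => h g x) = true then (1 : ℤ) else 0 : ℤ) : ℝ) := by
          by_cases hc : P j (Sum.elim x fun g => h g x) = true
          · rw [ind_pos hc, if_pos hc]
            norm_num
          · rw [ind_neg hc, if_neg hc]
            norm_num
        rw [h3, h2]
        push_cast
        refine Finset.sum_congr rfl fun l _ => ?_
        by_cases hc : Q j l (Sum.elim x fun g => h g x) = true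
        · rw [ind_pos hc, if_pos hc, mul_one]
        · rw [ind_neg hc, if_neg hc, mul_zero]
      cases hv : v j
      · simp only [Bool.false_eq_true, if_false]
        have h4 : (∑ l : Fin s, -(ε j l : ℝ) * ind (Q j l (Sum.elim x fun g => h g x) = true)) =
            -∑ l : Fin s, (ε j l : ℝ) * ind (Q j l (Sum.elim x fun g => h g x) = true) := by
          rw [← Finset.sum_neg_distrib]
          exact Finset.sum_congr rfl fun l _ => by ring
        rw [h4, h1]
        by_cases hc : P j (Sum.elim x fun g => h g x) = true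
        · rw [ind_pos hc, ind_neg (by rw [hc]; decide)]
          ring
        · rw [ind_neg hc, ind_pos (by
            rcases hP' : P j (Sum.elim x fun g => h g x) with _ | _
            · rfl
            · exact absurd hP' hc)]
          ring
      · simp only [if_true, zero_add]
        rw [h1]
        exact ind_congr ⟨fun h => h.symm, fun h => h.symm⟩
  induction T with
  | zero =>
    intro h hh H hH
    rw [pow_zero, one_mul]
    exact base h (fun g => hh g trivial) H hH
  | succ T ih =>
    rintro h (hh | ⟨i, hi⟩) H hH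
    · refine (base h (fun g => hh g trivial) H hH).trans ?_
      have h1 : (1 : ℝ) ≤ 2 ^ (T + 1) := one_le_pow₀ (by norm_num)
      have h2 : 0 ≤ ((s + 1 : ℕ) : ℝ) ^ k * B := by positivity
      nlinarith
    · have h1 : ∀ b, |∑ y, ind ((H (em y) ∧ em y i = b) ∧ ∀ j, v j = P j (Sum.elim (em y)
          fun g => h g (Function.update (em y) i b))) * G y| ≤
          2 ^ T * (((s + 1 : ℕ) : ℝ) ^ k * B) := fun b =>
        ih (fun g x => h g (Function.update x i b)) (hi b) (fun x => H x ∧ x i = b)
          (hH.and (CubeClosed.coord hq i b))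
      have h2 : ∀ y, ind (H (em y) ∧ ∀ j, v j = P j (Sum.elim (em y) fun g => h g (em y))) *
          G y = ind ((H (em y) ∧ em y i = true) ∧ ∀ j, v j = P j (Sum.elim (em y)
          fun g => h g (Function.update (em y) i true))) * G y +
          ind ((H (em y) ∧ em y i = false) ∧ ∀ j, v j = P j (Sum.elim (em y)
          fun g => h g (Function.update (em y) i false))) * G y := by
        intro y
        cases hy : em y i
        · have e1 : Function.update (em y) i false = em y := by rw [← hy, Function.update_eq_self]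
          rw [e1]
          have e2 : ind ((H (em y) ∧ false = true) ∧ ∀ j, v j = P j (Sum.elim (em y)
              fun g => h g (Function.update (em y) i true))) = 0 :=
            ind_neg fun hc => Bool.noConfusion hc.1.2
          rw [e2, zero_mul, zero_add]
          congr 1
          exact ind_congr ⟨fun hc => ⟨⟨hc.1, rfl⟩, hc.2⟩, fun hc => ⟨hc.1.1, hc.2⟩⟩
        · have e1 : Function.update (em y) i true = em y := by rw [← hy, Function.update_eq_self]
          rw [e1]
          have e2 : ind ((H (em y) ∧ true = false) ∧ ∀ j, v j = P j (Sum.elim (em y)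
              fun g => h g (Function.update (em y) i false))) = 0 :=
            ind_neg fun hc => Bool.noConfusion hc.1.2
          rw [e2, zero_mul, add_zero]
          congr 1
          exact ind_congr ⟨fun hc => ⟨⟨hc.1, rfl⟩, hc.2⟩, fun hc => ⟨hc.1.1, hc.2⟩⟩
      rw [Finset.sum_congr rfl fun y _ => h2 y, Finset.sum_add_distrib]
      refine (abs_add_le _ _).trans ?_
      have h3 := h1 true
      have h4 := h1 false
      rw [pow_succ]
      linarith

end Pool.Agent.KCL
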