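import Pool.Agent.KCL.Core

/-!
# The parity of majorities: numbers
-/

set_option autoImplicit false

namespace Pool.Agent.KCL

open Finset Pool.Agent.Helper32.QS Pool.Agent.SW Pool.Agent.RS

/-- Integer roots. -/
lemma exists_root (k n : ℕ) (hk : 1 ≤ k) : ∃ A : ℕ, A ^ k ≤ n ∧ n < (A + 1) ^ k := by
  induction n with
  | zero => exact ⟨0, by rw [zero_pow (by omega)], by rw [zero_add, one_pow]; norm_num⟩
  | succ n ih =>
    obtain ⟨A, h1, h2⟩ := ih
    by_cases h : n + 1 < (A + 1) ^ k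
    · exact ⟨A, by omega, h⟩
    · refine ⟨A + 1, by omega, ?_⟩
      have h3 : (A + 1) ^ k < (A + 1 + 1) ^ k := Nat.pow_lt_pow_left (by omega) (by omega)
      omega

/-- The parameters. -/
lemma mpar_of {A r : ℕ} (hA : 1 ≤ A) (hr : 1 ≤ r) :
    MPar (1 / (32 * r * (A : ℝ) ^ 2)) (1 / (A : ℝ) ^ 2) A r := by
  have hA' : (1 : ℝ) ≤ A := by exact_mod_cast hA
  have hr' : (1 : ℝ) ≤ r := by exact_mod_cast hr
  have hA2 : (1 : ℝ) ≤ (A : ℝ) ^ 2 := one_le_pow₀ hA'
  have hrA : (1 : ℝ) ≤ r * (A : ℝ) ^ 2 := by nlinarith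
  set p : ℝ := 1 / (32 * r * (A : ℝ) ^ 2) with hp
  have hp32 : p ≤ 1 / 32 := by
    rw [hp]
    exact one_div_le_one_div_of_le (by norm_num) (by nlinarith)
  have hp0 : 0 < p := by positivity
  refine ⟨hp0, by linarith, by positivity, hA', ?_, hr, ?_⟩
  · rw [one_div, sq, mul_inv, mul_assoc, inv_mul_cancel₀ (by positivity), mul_one]
    exact inv_le_one_of_one_le₀ hA'
  · intro k hk
    set q : ℝ := (1 - p) / 2 with hq
    have hq4 : 1 / 4 ≤ q := by
      rw [hq]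
      linarith
    have hq0 : 0 < q := by linarith
    have h1 : 4 * p / (1 / (A : ℝ) ^ 2) = 1 / (8 * r) := by
      rw [hp]
      field_simp
      norm_num
    rw [h1]
    have h2 : (1 / (8 * (r : ℝ)) + q) ≤ q * (1 + 1 / (2 * r)) := by
      have h3 : 1 / (8 * (r : ℝ)) = (1 / 4) * (1 / (2 * r)) := by
        field_simp
        norm_num
      have h4 : (1 / 4) * (1 / (2 * (r : ℝ))) ≤ q * (1 / (2 * r)) :=
        mul_le_mul_of_nonneg_right hq4 (by positivity)
      rw [h3]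
      linarith
    have h3 : (1 + 1 / (2 * (r : ℝ))) ^ k ≤ 2 := by
      have h4 : (1 + 1 / (2 * (r : ℝ))) ^ k ≤ Real.exp (1 / (2 * r)) ^ k := by
        refine pow_le_pow_left₀ (by positivity) ?_ k
        have := Real.add_one_le_exp (1 / (2 * (r : ℝ)))
        linarith
      have h5 : Real.exp (1 / (2 * (r : ℝ))) ^ k ≤ Real.exp (1 / 2) := by
        rw [← Real.exp_nat_mul]
        refine Real.exp_le_exp.mpr ?_
        have hk' : (k : ℝ) ≤ r := by exact_mod_cast hk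
        rw [mul_one_div, div_le_iff₀ (by positivity)]
        linarith
      have h6 : Real.exp (1 / 2) ≤ 2 := by
        have h7 : Real.exp (1 / 2) ^ 2 ≤ 2 ^ 2 := by
          rw [← Real.exp_nat_mul]
          have := Real.exp_one_lt_d9
          norm_num
          linarith
        exact le_of_sq_le_sq h7 (by norm_num)
      linarith
    calc (1 / (8 * (r : ℝ)) + q) ^ k ≤ (q * (1 + 1 / (2 * r))) ^ k :=
          pow_le_pow_left₀ (by positivity) h2 k
      _ = q ^ k * (1 + 1 / (2 * (r : ℝ))) ^ k := mul_pow _ _ _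
      _ ≤ q ^ k * 2 := mul_le_mul_of_nonneg_left h3 (by positivity)
      _ = 2 * q ^ k := by ring

/-- The smallness of the error. -/
lemma small_of {A r d n b t k τ : ℕ} (hd : 1 ≤ d) (hr : 1 ≤ r) (hA1 : 32 * r ≤ A)
    (hA2 : 2 ^ (d + 1) ≤ A) (hA3 : 200 * d ≤ A) (hn : n < (A + 1) ^ (8 * d)) (hb : A ^ (8 * d) ≤ b)
    (hτ : k + Nat.clog 2 t ≤ τ) :
    (t * 2 ^ k : ℝ) * (d * (2 ^ (d * τ) * (1 / (A : ℝ) ^ 2 * A) ^ (τ + 1))) +
      2 * n * Real.exp (-(((1 / (32 * r * (A : ℝ) ^ 2)) ^ d) ^ 2 * b / 8)) < 1 := by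
  have hA0 : 200 ≤ A := by omega
  have hA' : (200 : ℝ) ≤ A := by exact_mod_cast hA0
  have hApos : (0 : ℝ) < A := by linarith
  have hr' : (1 : ℝ) ≤ r := by exact_mod_cast hr
  have hd' : (1 : ℝ) ≤ d := by exact_mod_cast hd
  -- the first term
  have h1 : (t * 2 ^ k : ℝ) * (d * (2 ^ (d * τ) * (1 / (A : ℝ) ^ 2 * A) ^ (τ + 1))) ≤ 1 / 4 := by
    have e1 : (1 / (A : ℝ) ^ 2 * A) = 1 / A := by field_simp
    rw [e1]
    have e2 : (t : ℝ) * 2 ^ k ≤ 2 ^ τ := by
      have e3 : (t : ℝ) ≤ 2 ^ Nat.clog 2 t := by exact_mod_cast Nat.le_pow_clog (by norm_num) t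
      calc (t : ℝ) * 2 ^ k ≤ 2 ^ Nat.clog 2 t * 2 ^ k :=
            mul_le_mul_of_nonneg_right e3 (by positivity)
        _ = 2 ^ (k + Nat.clog 2 t) := by rw [pow_add]; ring
        _ ≤ 2 ^ τ := pow_le_pow_right₀ (by norm_num) hτ
    have hA2' : (2 : ℝ) ^ (d + 1) ≤ A := by exact_mod_cast hA2
    have e3 : (2 : ℝ) ^ (d * τ) * (1 / A) ^ (τ + 1) ≤ (1 / 2) ^ τ * (1 / A) := by
      rw [pow_succ, ← mul_assoc]
      refine mul_le_mul_of_nonneg_right ?_ (by positivity)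
      rw [pow_mul, ← mul_pow]
      refine pow_le_pow_left₀ (by positivity) ?_ τ
      rw [mul_one_div, div_le_iff₀ hApos]
      rw [pow_succ] at hA2'
      linarith
    have e4 : (d : ℝ) ≤ A / 4 := by
      have e5 : (200 : ℝ) * d ≤ A := by exact_mod_cast hA3
      linarith
    calc (t * 2 ^ k : ℝ) * (d * (2 ^ (d * τ) * (1 / (A : ℝ)) ^ (τ + 1)))
        ≤ 2 ^ τ * (A / 4 * ((1 / 2) ^ τ * (1 / A))) := by
          refine mul_le_mul e2 ?_ (by positivity) (by positivity)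
          exact mul_le_mul e4 e3 (by positivity) (by positivity)
      _ = (2 * (1 / 2)) ^ τ * (1 / 4) := by
          rw [mul_pow]
          field_simp
      _ = 1 / 4 := by norm_num
  -- the second term
  have h2 : 2 * (n : ℝ) * Real.exp (-(((1 / (32 * r * (A : ℝ) ^ 2)) ^ d) ^ 2 * b / 8)) ≤
      1 / 2 := by
    have e1 : (A : ℝ) ^ 2 ≤ ((1 / (32 * r * (A : ℝ) ^ 2)) ^ d) ^ 2 * b := by
      have e2 : ((A : ℝ) ^ (8 * d)) ≤ b := by exact_mod_cast hb
      have e3 : (32 : ℝ) * r ≤ A := by exact_mod_cast hA1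
      have e4 : (1 / (A : ℝ) ^ 3) ^ (2 * d) ≤ ((1 / (32 * r * (A : ℝ) ^ 2)) ^ d) ^ 2 := by
        rw [← pow_mul, mul_comm d 2]
        refine pow_le_pow_left₀ (by positivity) ?_ _
        refine one_div_le_one_div_of_le (by positivity) ?_
        calc 32 * (r : ℝ) * (A : ℝ) ^ 2 ≤ A * (A : ℝ) ^ 2 :=
              mul_le_mul_of_nonneg_right e3 (by positivity)
          _ = (A : ℝ) ^ 3 := by ring
      calc (A : ℝ) ^ 2 ≤ (A : ℝ) ^ (2 * d) :=
            pow_le_pow_right₀ (by linarith) (by omega)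
        _ = (1 / (A : ℝ) ^ 3) ^ (2 * d) * (A : ℝ) ^ (8 * d) := by
            rw [one_div, inv_pow, ← pow_mul, show 8 * d = 2 * d + 3 * (2 * d) by ring, pow_add]
            field_simp
        _ ≤ ((1 / (32 * r * (A : ℝ) ^ 2)) ^ d) ^ 2 * b :=
            mul_le_mul e4 e2 (by positivity) (by positivity)
    have e2 : (4 : ℝ) * n ≤ Real.exp (((1 / (32 * r * (A : ℝ) ^ 2)) ^ d) ^ 2 * b / 8) := by
      have e3 : (n : ℝ) ≤ (A : ℝ) ^ (16 * d) := by
        have e4 : (A + 1) ^ (8 * d) ≤ A ^ (16 * d) := by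
          calc (A + 1) ^ (8 * d) ≤ (A ^ 2) ^ (8 * d) :=
                Nat.pow_le_pow_left (by nlinarith) _
            _ = A ^ (16 * d) := by
                rw [← pow_mul]
                congr 1
                ring
        exact_mod_cast (hn.le.trans e4)
      have e4 : (A : ℝ) ^ (25 * d) ≤ Real.exp ((A : ℝ) ^ 2 / 8) := by
        calc (A : ℝ) ^ (25 * d) ≤ Real.exp A ^ (25 * d) := by
              refine pow_le_pow_left₀ hApos.le ?_ _
              have := Real.add_one_le_exp (A : ℝ)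
              linarith
          _ = Real.exp ((25 * d : ℕ) * A) := by rw [Real.exp_nat_mul]
          _ ≤ Real.exp ((A : ℝ) ^ 2 / 8) := by
              refine Real.exp_le_exp.mpr ?_
              have e5 : (200 : ℝ) * d ≤ A := by exact_mod_cast hA3
              push_cast
              nlinarith
      have e5 : (4 : ℝ) * (A : ℝ) ^ (16 * d) ≤ (A : ℝ) ^ (25 * d) := by
        rw [show 25 * d = 9 * d + 16 * d by ring, pow_add]
        refine mul_le_mul_of_nonneg_right ?_ (by positivity)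
        calc (4 : ℝ) ≤ A := by linarith
          _ = (A : ℝ) ^ 1 := (pow_one _).symm
          _ ≤ (A : ℝ) ^ (9 * d) := pow_le_pow_right₀ (by linarith) (by omega)
      have e6 : Real.exp ((A : ℝ) ^ 2 / 8) ≤
          Real.exp (((1 / (32 * r * (A : ℝ) ^ 2)) ^ d) ^ 2 * b / 8) :=
        Real.exp_le_exp.mpr (by linarith)
      linarith
    rw [Real.exp_neg]
    set E := Real.exp (((1 / (32 * r * (A : ℝ) ^ 2)) ^ d) ^ 2 * b / 8) with hE
    have hE0 : 0 < E := Real.exp_pos _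
    rw [← div_eq_mul_inv, div_le_iff₀ hE0]
    linarith
  linarith

/-- The size of the numbers. -/
lemma num_size {d k s t q τ M L T l : ℕ} (hl : 1 ≤ l) (hs : Nat.clog 2 (s + 1) ≤ l)
    (ht : Nat.clog 2 t ≤ l) (hτ : τ = k + Nat.clog 2 t)
    (hM : M = d * τ + k * (Nat.clog 2 (s + 1) + 1) + Nat.clog 2 t + Nat.clog 2 (q + 1) + 4)
    (hL : L = M * 4 ^ q) (hT : T = L + (d + 1 + q + Nat.clog 2 s + 1)) :
    2 ^ (q + 1) * (16 * T + 1) ^ (d + 1) * (T + L + 1) ≤
      (50 * (d + 4) * ((k + 1) * l) * (2 ^ q) ^ 3) ^ (d + 3) := by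
  set X := 2 ^ q with hX
  have hqX : q < X := Nat.lt_two_pow_self
  have hX1 : 1 ≤ X := by omega
  set κ := (k + 1) * l with hκ
  have hκl : l ≤ κ := by
    rw [hκ]
    exact Nat.le_mul_of_pos_left _ (by omega)
  have hκk : k + 1 ≤ κ := by
    rw [hκ]
    exact Nat.le_mul_of_pos_right _ (by omega)
  have hκ1 : 1 ≤ κ := by omega
  have h4 : 4 ^ q = X * X := by
    rw [hX, ← pow_add, ← two_mul, pow_mul]
    norm_num
  have hclog : Nat.clog 2 (q + 1) ≤ X := by
    have h1 : Nat.clog 2 (q + 1) ≤ q := by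
      rw [Nat.clog_le_iff_le_pow (by norm_num)]
      exact hqX
    omega
  have hκX : κ ≤ κ * X := Nat.le_mul_of_pos_right _ hX1
  have hXκ : X ≤ κ * X := Nat.le_mul_of_pos_left _ hκ1
  have hMle : M ≤ (2 * d + 8) * (κ * X) := by
    have e1 : d * τ ≤ d * (2 * κ) := Nat.mul_le_mul_left _ (by omega)
    have e2 : k * (Nat.clog 2 (s + 1) + 1) ≤ 2 * κ := by
      calc k * (Nat.clog 2 (s + 1) + 1) ≤ (k + 1) * (2 * l) :=
            Nat.mul_le_mul (by omega) (by omega)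
        _ = 2 * κ := by rw [hκ]; ring
    have e3 : (2 * d + 8) * (κ * X) = 2 * (d * (κ * X)) + 8 * (κ * X) := by ring
    have e4 : d * (2 * κ) ≤ 2 * (d * (κ * X)) := by
      calc d * (2 * κ) = 2 * (d * κ) := by ring
        _ ≤ 2 * (d * (κ * X)) := Nat.mul_le_mul_left _ (Nat.mul_le_mul_left _ hκX)
    omega
  set Z := κ * X ^ 3 with hZ
  have hZ1 : κ * X ≤ Z := by
    rw [hZ]
    refine Nat.mul_le_mul_left _ ?_
    calc X = X ^ 1 := (pow_one X).symm
      _ ≤ X ^ 3 := Nat.pow_le_pow_right hX1 (by norm_num)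
  have hLle : L ≤ (2 * d + 8) * Z := by
    calc L = M * (X * X) := by rw [hL, h4]
      _ ≤ (2 * d + 8) * (κ * X) * (X * X) := Nat.mul_le_mul_right _ hMle
      _ = (2 * d + 8) * Z := by rw [hZ]; ring
  have hss : Nat.clog 2 s ≤ l := le_trans (Nat.clog_mono_right 2 (by omega)) hs
  have hTle : T ≤ (3 * d + 12) * Z := by
    have e1 : (3 * d + 12) * Z = (2 * d + 8) * Z + (d * Z + 4 * Z) := by ring
    have e2 : d ≤ d * Z := Nat.le_mul_of_pos_right _ (by omega)
    omega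
  have hZ0 : 1 ≤ Z := by omega
  have h16 : 16 * T + 1 ≤ 50 * (d + 4) * Z := by
    have e1 : 50 * (d + 4) * Z = 16 * ((3 * d + 12) * Z) + (2 * d + 8) * Z := by ring
    have e2 : 1 ≤ (2 * d + 8) * Z := Nat.mul_pos (by omega) (by omega)
    omega
  have hTL : T + L + 1 ≤ 50 * (d + 4) * Z := by
    have e1 : 50 * (d + 4) * Z = (3 * d + 12) * Z + ((2 * d + 8) * Z + (45 * d + 180) * Z) := by
      ring
    have e2 : 1 ≤ (45 * d + 180) * Z := Nat.mul_pos (by omega) (by omega)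
    omega
  have h2X : 2 ^ (q + 1) ≤ 50 * (d + 4) * Z := by
    have e1 : 2 ^ (q + 1) = 2 * X := by rw [pow_succ, hX]; ring
    have e2 : 50 * (d + 4) * Z = (50 * d + 198) * Z + 2 * Z := by ring
    omega
  have e : 50 * (d + 4) * κ * X ^ 3 = 50 * (d + 4) * Z := by rw [hZ]; ring
  rw [e]
  calc 2 ^ (q + 1) * (16 * T + 1) ^ (d + 1) * (T + L + 1)
      ≤ (50 * (d + 4) * Z) * (50 * (d + 4) * Z) ^ (d + 1) * (50 * (d + 4) * Z) :=
        Nat.mul_le_mul (Nat.mul_le_mul h2X (Nat.pow_le_pow_left h16 _)) hTL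
    _ = (50 * (d + 4) * Z) ^ (d + 3) := by ring

/-- The logarithm. -/
lemma clog_le_log (n : ℕ) : (Nat.clog 2 (n + 2) : ℝ) ≤ 3 * Real.log (n + 2) := by
  have h1 : 2 ^ (Nat.clog 2 (n + 2) - 1) < n + 2 := by
    have := Nat.pow_pred_clog_lt_self (b := 2) (by norm_num) (x := n + 2) (by omega)
    simpa using this
  have hc : 1 ≤ Nat.clog 2 (n + 2) := Nat.clog_pos (by norm_num) (by omega)
  have h2 : ((Nat.clog 2 (n + 2) - 1 : ℕ) : ℝ) * Real.log 2 ≤ Real.log (n + 2) := by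
    rw [← Real.log_pow]
    refine Real.log_le_log (by positivity) ?_
    exact_mod_cast h1.le
  have h3 : Real.log 2 ≤ Real.log (n + 2) :=
    Real.log_le_log (by norm_num) (by linarith [(Nat.cast_nonneg n : (0 : ℝ) ≤ n)])
  have h4 := Real.log_two_gt_d9
  rw [Nat.cast_sub hc] at h2
  push_cast at h2
  have h5 : (0 : ℝ) ≤ Nat.clog 2 (n + 2) := Nat.cast_nonneg _
  nlinarith

end Pool.Agent.KCL
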