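import Mathlib

/-!
# Box sums and the Gowers-Cauchy-Schwarz inequality
-/

set_option autoImplicit false
set_option linter.unusedSectionVars false

namespace Pool.Agent.KCL

open Finset

variable {κ α : Type} [Fintype κ] [DecidableEq κ] [Fintype α] [Nonempty α]

/-- The vertex `ω` of the box `z`. -/
def vtx (z : κ → Bool → α) (ω : κ → Bool) : κ → α := fun i => z i (ω i)

/-- Change the entry `b` in direction `i`. -/
def upd (z : κ → Bool → α) (i : κ) (b : Bool) (s : α) : κ → Bool → α :=
  Function.update z i (Function.update (z i) b s)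

omit [Fintype κ] [Fintype α] [Nonempty α] in
lemma upd_self (z : κ → Bool → α) (i : κ) (b : Bool) (s : α) : upd z i b s i b = s := by
  simp [upd]

omit [Fintype κ] [Fintype α] [Nonempty α] in
lemma upd_ne (z : κ → Bool → α) (i j : κ) (b : Bool) (s : α) (h : j ≠ i) :
    upd z i b s j = z j := by
  simp [upd, h]

omit [Fintype κ] [Fintype α] [Nonempty α] in
lemma upd_not (z : κ → Bool → α) (i : κ) (b c : Bool) (s : α) (h : c ≠ b) :
    upd z i b s i c = z i c := by
  simp [upd, h]

omit [Fintype κ] [Fintype α] [Nonempty α] in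
lemma upd_upd (z : κ → Bool → α) (i : κ) (b : Bool) (s s' : α) :
    upd (upd z i b s) i b s' = upd z i b s' := by
  funext j c
  by_cases hj : j = i
  · subst hj
    by_cases hc : c = b
    · subst hc
      rw [upd_self, upd_self]
    · rw [upd_not _ _ _ _ _ hc, upd_not _ _ _ _ _ hc, upd_not _ _ _ _ _ hc]
  · rw [upd_ne _ _ _ _ _ hj, upd_ne _ _ _ _ _ hj, upd_ne _ _ _ _ _ hj]

omit [Fintype κ] [Fintype α] [Nonempty α] in
lemma upd_eq_self (z : κ → Bool → α) (i : κ) (b : Bool) : upd z i b (z i b) = z := by
  funext j c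
  by_cases hj : j = i
  · subst hj
    by_cases hc : c = b
    · subst hc
      rw [upd_self]
    · rw [upd_not _ _ _ _ _ hc]
  · rw [upd_ne _ _ _ _ _ hj]

omit [Fintype κ] [Fintype α] [Nonempty α] in
lemma vtx_upd_of_ne (z : κ → Bool → α) (i : κ) (b : Bool) (s : α) (ω : κ → Bool) (h : ω i ≠ b) :
    vtx (upd z i b s) ω = vtx z ω := by
  funext j
  unfold vtx
  by_cases hj : j = i
  · subst hj
    rw [upd_not _ _ _ _ _ h]
  · rw [upd_ne _ _ _ _ _ hj]

omit [Fintype κ] [Fintype α] [Nonempty α] in
lemma vtx_upd_of_eq (z : κ → Bool → α) (i : κ) (b : Bool) (s : α) (ω : κ → Bool) (h : ω i = b) :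
    vtx (upd z i b s) ω = Function.update (vtx z ω) i s := by
  funext j
  unfold vtx
  by_cases hj : j = i
  · subst hj
    rw [h, upd_self, Function.update_self]
  · rw [upd_ne _ _ _ _ _ hj, Function.update_of_ne hj]

/-- Averaging over one entry. -/
lemma sum_upd (i : κ) (b : Bool) (F : (κ → Bool → α) → ℝ) :
    ∑ z, ∑ s, F (upd z i b s) = Fintype.card α * ∑ z, F z := by
  classical
  let e : ((κ → Bool → α) × α) ≃ ((κ → Bool → α) × α) :=
    { toFun := fun q => (upd q.1 i b q.2, q.1 i b)
      invFun := fun q => (upd q.1 i b q.2, q.1 i b)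
      left_inv := fun q => by
        simp only [upd_upd, upd_self, upd_eq_self]
      right_inv := fun q => by
        simp only [upd_upd, upd_self, upd_eq_self] }
  have h1 : ∑ z, ∑ s, F (upd z i b s) = ∑ q : (κ → Bool → α) × α, F (e q).1 := by
    rw [Fintype.sum_prod_type]
    rfl
  rw [h1, Equiv.sum_comp e fun q => F q.1, Fintype.sum_prod_type]
  simp only [Finset.sum_const, Finset.card_univ, nsmul_eq_mul]
  rw [← Finset.mul_sum]

/-- The box average of a family of functions. -/
noncomputable def BI (g : (κ → Bool) → (κ → α) → ℝ) : ℝ :=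
  (∑ z : κ → Bool → α, ∏ ω, g ω (vtx z ω)) / Fintype.card (κ → Bool → α)

/-- One application of the Cauchy-Schwarz inequality. -/
lemma BI_step (g : (κ → Bool) → (κ → α) → ℝ) (hg : ∀ ω y, |g ω y| ≤ 1) (i : κ) (b : Bool) :
    BI g ^ 2 ≤ BI fun ω => g (Function.update ω i b) := by
  classical
  have hN : (0 : ℝ) < Fintype.card (κ → Bool → α) := by exact_mod_cast Fintype.card_pos
  have hα : (0 : ℝ) < Fintype.card α := by exact_mod_cast Fintype.card_pos
  set N : ℝ := (Fintype.card (κ → Bool → α) : ℝ) with hNdef
  set q : ℝ := (Fintype.card α : ℝ) with hq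
  -- the two halves
  set A : (κ → Bool → α) → ℝ := fun z => ∏ ω ∈ univ.filter (fun ω : κ → Bool => ω i = b),
    g ω (vtx z ω) with hA
  set B : (κ → Bool → α) → ℝ := fun z => ∏ ω ∈ univ.filter (fun ω : κ → Bool => ¬ ω i = b),
    g ω (vtx z ω) with hB
  have hAB : ∀ z : κ → Bool → α, ∏ ω, g ω (vtx z ω) = A z * B z := by
    intro z
    simp only [hA, hB]
    rw [Finset.prod_filter_mul_prod_filter_not]
  have hBupd : ∀ z s, B (upd z i b s) = B z := by
    intro z s
    simp only [hB]
    refine Finset.prod_congr rfl fun ω hω => ?_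
    rw [vtx_upd_of_ne _ _ _ _ _ (Finset.mem_filter.mp hω).2]
  have hAupd : ∀ z s, A (upd z i (!b) s) = A z := by
    intro z s
    simp only [hA]
    refine Finset.prod_congr rfl fun ω hω => ?_
    rw [vtx_upd_of_ne _ _ _ _ _ (by rw [(Finset.mem_filter.mp hω).2]; cases b <;> decide)]
  have hB1 : ∀ z, B z ^ 2 ≤ 1 := by
    intro z
    have : |B z| ≤ 1 := by
      simp only [hB]
      rw [Finset.abs_prod]
      exact Finset.prod_le_one (fun _ _ => abs_nonneg _) fun ω _ => hg _ _
    rw [← sq_abs]
    exact pow_le_one₀ (abs_nonneg _) this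
  -- commuting updates
  have hcomm : ∀ (z : κ → Bool → α) (s s' : α), upd (upd z i (!b) s') i b s = upd (upd z i b s) i (!b) s' := by
    intro z s s'
    funext j c
    by_cases hj : j = i
    · subst hj
      have hbn : b ≠ !b := by cases b <;> decide
      by_cases hc : c = b
      · subst hc
        rw [upd_self, upd_not _ _ _ _ _ hbn, upd_self]
      · have hc' : c = !b := by
          cases b <;> cases c <;> simp_all
        subst hc'
        rw [upd_not _ _ _ _ _ hc, upd_self, upd_self]
    · rw [upd_ne _ _ _ _ _ hj, upd_ne _ _ _ _ _ hj, upd_ne _ _ _ _ _ hj, upd_ne _ _ _ _ _ hj]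
  -- the average over the entry
  set a : (κ → Bool → α) → ℝ := fun z => ∑ s, A (upd z i b s) with ha
  have h1 : ∑ z, a z * B z = q * ∑ z, A z * B z := by
    rw [← sum_upd i b fun z => A z * B z]
    refine Finset.sum_congr rfl fun z _ => ?_
    simp only [ha]
    rw [Finset.sum_mul]
    refine Finset.sum_congr rfl fun s _ => ?_
    rw [hBupd]
  have h2 : (∑ z, a z * B z) ^ 2 ≤ (∑ z, a z ^ 2) * N := by
    refine (Finset.sum_mul_sq_le_sq_mul_sq univ a B).trans ?_
    refine mul_le_mul_of_nonneg_left ?_ (Finset.sum_nonneg fun z _ => sq_nonneg _)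
    refine (Finset.sum_le_sum fun z _ => hB1 z).trans (le_of_eq ?_)
    rw [Finset.sum_const, Finset.card_univ, nsmul_eq_mul, mul_one]
  -- the square of the average
  have h3 : ∑ z, a z ^ 2 = q ^ 2 * ∑ z, A z * A (upd z i b (z i !b)) := by
    have hbn : (!b) ≠ b := by cases b <;> decide
    have e1 : q * ∑ z, A z * A (upd z i b (z i !b)) =
        ∑ z, ∑ s, A (upd z i b s) * A (upd z i b (z i !b)) := by
      rw [← sum_upd i b fun z => A z * A (upd z i b (z i !b))]
      refine Finset.sum_congr rfl fun z _ => Finset.sum_congr rfl fun s _ => ?_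
      rw [upd_upd, upd_not _ _ _ _ _ hbn]
    have e2 : q * ∑ z, (∑ s, A (upd z i b s) * A (upd z i b (z i !b))) =
        ∑ z, a z ^ 2 := by
      rw [← sum_upd i (!b) fun z => ∑ s, A (upd z i b s) * A (upd z i b (z i !b))]
      refine Finset.sum_congr rfl fun z _ => ?_
      simp only [ha]
      rw [sq, Finset.sum_mul_sum, Finset.sum_comm]
      refine Finset.sum_congr rfl fun s _ => Finset.sum_congr rfl fun s' _ => ?_
      rw [upd_self, hcomm, hcomm, hAupd, hAupd]
    rw [← e2, ← e1]
    ring
  have h4 : ∀ z : κ → Bool → α, ∏ ω, g (Function.update ω i b) (vtx z ω) =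
      A z * A (upd z i b (z i !b)) := by
    intro z
    rw [← Finset.prod_filter_mul_prod_filter_not univ (fun ω : κ → Bool => ω i = b)]
    congr 1
    · simp only [hA]
      refine Finset.prod_congr rfl fun ω hω => ?_
      rw [← (Finset.mem_filter.mp hω).2, Function.update_eq_self]
    · simp only [hA]
      refine Finset.prod_bij' (fun ω _ => Function.update ω i b)
        (fun ω _ => Function.update ω i (!b)) ?_ ?_ ?_ ?_ ?_
      · intro ω _
        simp
      · intro ω _
        simp
      · intro ω hω
        rw [Finset.mem_filter] at hω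
        have : ω i = !b := by
          have := hω.2
          cases b <;> cases h : ω i <;> simp_all
        rw [Function.update_idem, ← this, Function.update_eq_self]
      · intro ω hω
        rw [Finset.mem_filter] at hω
        rw [Function.update_idem, ← hω.2, Function.update_eq_self]
      · intro ω hω
        rw [Finset.mem_filter] at hω
        have hωi : ω i = !b := by
          have := hω.2
          cases b <;> cases h : ω i <;> simp_all
        congr 1
        rw [vtx_upd_of_eq _ _ _ _ _ (by simp)]
        funext j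
        by_cases hj : j = i
        · subst hj
          rw [Function.update_self]
          unfold vtx
          rw [hωi]
        · rw [Function.update_of_ne hj]
          unfold vtx
          rw [Function.update_of_ne hj]
  unfold BI
  simp only [hAB, h4]
  rw [← hNdef, div_pow, div_le_div_iff₀ (by positivity) hN]
  have h5 : (∑ z, A z * B z) ^ 2 ≤ (∑ z, A z * A (upd z i b (z i !b))) * N := by
    have h6 : (q * ∑ z, A z * B z) ^ 2 ≤ (q ^ 2 * ∑ z, A z * A (upd z i b (z i !b))) * N := by
      rw [← h1, ← h3]
      exact h2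
    have h7 : q ^ 2 * (∑ z, A z * B z) ^ 2 ≤
        q ^ 2 * ((∑ z, A z * A (upd z i b (z i !b))) * N) := by
      nlinarith [h6]
    exact le_of_mul_le_mul_left h7 (by positivity)
  calc (∑ z, A z * B z) ^ 2 * N ≤ (∑ z, A z * A (upd z i b (z i !b))) * N * N :=
        mul_le_mul_of_nonneg_right h5 hN.le
    _ = _ := by ring

/-- The Gowers-Cauchy-Schwarz inequality for bounded functions. -/
theorem gcs (g : (κ → Bool) → (κ → α) → ℝ) (hg : ∀ ω y, |g ω y| ≤ 1) (ω₀ : κ → Bool) :
    |BI g| ^ 2 ^ Fintype.card κ ≤ |BI fun _ => g ω₀| := by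
  classical
  have key : ∀ S : Finset κ, |BI g| ^ 2 ^ S.card ≤
      |BI fun ω => g fun i => if i ∈ S then ω₀ i else ω i| := by
    intro S
    induction S using Finset.induction_on with
    | empty => simp
    | insert i S hi ih =>
      rw [Finset.card_insert_of_notMem hi, pow_succ, pow_mul]
      have h1 := BI_step (fun ω => g fun i => if i ∈ S then ω₀ i else ω i)
        (fun ω y => hg _ _) i (ω₀ i)
      have h2 : (|BI g| ^ 2 ^ S.card) ^ 2 ≤
          |BI fun ω => g fun i => if i ∈ S then ω₀ i else ω i| ^ 2 :=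
        pow_le_pow_left₀ (by positivity) ih 2
      rw [sq_abs] at h2
      refine h2.trans (h1.trans ((le_abs_self _).trans (le_of_eq ?_)))
      congr 3
      funext ω
      congr 1
      funext j
      by_cases hj : j = i
      · subst hj
        simp [hi]
      · simp [hj]
  have h := key univ
  rw [Finset.card_univ] at h
  simpa using h

lemma sum_vtx (ω₀ : κ → Bool) (F : (κ → α) → ℝ) :
    (∑ z : κ → Bool → α, F (vtx z ω₀)) / Fintype.card (κ → Bool → α) =
      (∑ y : κ → α, F y) / Fintype.card (κ → α) := by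
  classical
  let e : (κ → Bool → α) ≃ ((κ → α) × (κ → α)) :=
    { toFun := fun z => (fun i => z i (ω₀ i), fun i => z i (!ω₀ i))
      invFun := fun q => fun i b => if b = ω₀ i then q.1 i else q.2 i
      left_inv := fun z => by
        funext i b
        by_cases h : b = ω₀ i
        · subst h; simp
        · have : b = !ω₀ i := by
            cases b <;> cases h' : ω₀ i <;> simp_all
          subst this
          simp
      right_inv := fun q => by
        ext i
        · simp
        · simp }
  have h1 : ∑ z : κ → Bool → α, F (vtx z ω₀) = ∑ q : (κ → α) × (κ → α), F q.1 := by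
    rw [← Equiv.sum_comp e fun q => F q.1]
    rfl
  have h2 : (Fintype.card (κ → Bool → α) : ℝ) =
      Fintype.card (κ → α) * Fintype.card (κ → α) := by
    rw [Fintype.card_congr e, Fintype.card_prod]
    push_cast
    ring
  have h3 : (0 : ℝ) < Fintype.card (κ → α) := by exact_mod_cast Fintype.card_pos
  rw [h1, h2, Fintype.sum_prod_type]
  simp only [Finset.sum_const, Finset.card_univ, nsmul_eq_mul]
  rw [← Finset.mul_sum, mul_div_mul_left _ _ h3.ne']

/-- The box average of a nonnegative bounded function is at least a power of its average. -/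
theorem box_ge (F : (κ → α) → ℝ) (h0 : ∀ y, 0 ≤ F y) (h1 : ∀ y, F y ≤ 1) :
    ((∑ y, F y) / Fintype.card (κ → α)) ^ 2 ^ Fintype.card κ ≤ BI fun _ => F := by
  classical
  obtain ⟨ω₀⟩ : Nonempty (κ → Bool) := inferInstance
  have h := gcs (fun ω => if ω = ω₀ then F else fun _ => 1) (by
    intro ω y
    by_cases hω : ω = ω₀
    · rw [if_pos hω, abs_of_nonneg (h0 y)]
      exact h1 y
    · rw [if_neg hω]
      simp) ω₀
  have h2 : BI (fun ω => if ω = ω₀ then F else fun _ => 1) =
      (∑ y, F y) / Fintype.card (κ → α) := by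
    rw [← sum_vtx ω₀]
    unfold BI
    congr 1
    refine Finset.sum_congr rfl fun z _ => ?_
    rw [Finset.prod_eq_single ω₀]
    · show (if ω₀ = ω₀ then F else fun _ => 1) _ = _
      rw [if_pos rfl]
    · intro ω _ hω
      show (if ω = ω₀ then F else fun _ => 1) _ = _
      rw [if_neg hω]
    · intro h
      exact absurd (Finset.mem_univ _) h
  rw [h2, abs_of_nonneg (by
    refine div_nonneg (Finset.sum_nonneg fun y _ => h0 y) (Nat.cast_nonneg _))] at h
  refine h.trans (le_of_eq ?_)
  rw [if_pos rfl, abs_of_nonneg]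
  unfold BI
  exact div_nonneg (Finset.sum_nonneg fun z _ => Finset.prod_nonneg fun ω _ => h0 _)
    (Nat.cast_nonneg _)

end Pool.Agent.KCL
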