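import Pool.Agent.KCL.TopCore
import Pool.Agent.KCL.Levels
import Pool.Agent.KCL.EmbRho

/-!
# The parity of majorities: the main step
-/

set_option autoImplicit false
set_option linter.unusedSectionVars false

namespace Pool.Agent.KCL

open Finset Pool.Agent.Helper32.QS Pool.Agent.SW Pool.Agent.RS

/-- The gates of a circuit, as functions of the input. -/
lemma gateOK_body {ι V : Type} [Fintype ι] [DecidableEq ι] [Fintype V] {s : ℕ} (p : ℕ)
    (C : Circuit V s) (hC : NoMod C) (inp : (ι → Bool) → V → Bool)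
    (hinp : ∀ v, (∃ b, ∀ t, inp t v = b) ∨ ∃ (j : ι) (b : Bool), ∀ t, inp t v = xor b (t j))
    (val : (ι → Bool) → Fin s → Bool) (hval : ∀ t, C.IsRun p (inp t) (val t)) (g : Fin s) :
    GateOK C.level (fun g t => val t g) g := by
  refine ⟨{a | (∃ v, C.vw g v ≠ 0 ∧ a = fun t => inp t v) ∨
    ∃ k, C.gw g k ≠ 0 ∧ a = fun t => val t k}, ?_, ?_⟩
  · rintro a (⟨v, _, rfl⟩ | ⟨k, hk, rfl⟩)
    · left
      rcases hinp v with ⟨b, hb⟩ | ⟨j, b, hb⟩
      · exact Or.inl ⟨b, hb⟩
      · refine Or.inr ⟨j, fun c => ⟨xor b c, fun t => ?_⟩⟩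
        show inp (Function.update t j c) v = xor b c
        rw [hb, Function.update_self]
    · exact Or.inr ⟨k, C.level_lt g k hk, rfl⟩
  · have hex : ∀ (t : ι → Bool) (b : Bool),
        (∃ a ∈ ({a | (∃ v, C.vw g v ≠ 0 ∧ a = fun t => inp t v) ∨
          ∃ k, C.gw g k ≠ 0 ∧ a = fun t => val t k} : Set ((ι → Bool) → Bool)), a t = b) ↔
        (∃ v, C.vw g v ≠ 0 ∧ inp t v = b) ∨ ∃ k, C.gw g k ≠ 0 ∧ val t k = b := by
      intro t b
      constructor
      · rintro ⟨a, ⟨v, hv, rfl⟩ | ⟨k, hk, rfl⟩, h⟩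
        · exact Or.inl ⟨v, hv, h⟩
        · exact Or.inr ⟨k, hk, h⟩
      · rintro (⟨v, hv, h⟩ | ⟨k, hk, h⟩)
        · exact ⟨_, Or.inl ⟨v, hv, rfl⟩, h⟩
        · exact ⟨_, Or.inr ⟨k, hk, rfl⟩, h⟩
    have hrun : ∀ t, val t g = true ↔ C.Fires p (inp t) (val t) g := fun t => hval t g
    rcases hC g with hk | hk | hk
    · right; right
      intro t
      show val t g = true ↔ _
      rw [hrun t]
      unfold Circuit.Fires
      rw [hk]
      show C.trueInputs (inp t) (val t) g = 0 ↔ _
      rw [← not_iff_not, ← Ne, ← Nat.pos_iff_ne_zero, trueInputs_pos, ← hex t true]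
      constructor
      · rintro ⟨a, ha, h⟩ hall
        have := hall a ha
        rw [h] at this
        exact Bool.noConfusion this
      · intro h
        by_contra hcon
        refine h fun a ha => ?_
        by_contra hne
        exact hcon ⟨a, ha, by simpa using hne⟩
    · right; left
      intro t
      show val t g = true ↔ _
      rw [hrun t]
      unfold Circuit.Fires
      rw [hk]
      show C.trueInputs (inp t) (val t) g = C.inputs g ↔ _
      rw [trueInputs_eq_inputs]
      constructor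
      · rintro ⟨h1, h2⟩ a (⟨v, hv, rfl⟩ | ⟨k, hk, rfl⟩)
        · exact h1 v hv
        · exact h2 k hk
      · intro h
        exact ⟨fun v hv => h _ (Or.inl ⟨v, hv, rfl⟩), fun k hk => h _ (Or.inr ⟨k, hk, rfl⟩)⟩
    · left
      intro t
      show val t g = true ↔ _
      rw [hrun t]
      unfold Circuit.Fires
      rw [hk]
      show 0 < C.trueInputs (inp t) (val t) g ↔ _
      rw [trueInputs_pos, ← hex t true]

/-- The output circuits are small depth circuits of each column. -/
lemma semC_top {V : Type} [Fintype V] {k s d n q : ℕ} (C : Circuit (V ⊕ Fin k) s) (hC : NoMod C)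
    (hd : C.level C.out + 1 ≤ d) (own : V → Option (Fin q × Fin n)) (cst : V → Bool)
    (v : Fin k → Bool) :
    SemC s d fun y : Fin q → Fin n → Bool => C.Accepts 2 (Sum.elim (emb own cst y) v) := by
  choose val hval using fun y : Fin q → Fin n → Bool =>
    C.exists_run 2 (Sum.elim (emb own cst y) v)
  refine ⟨C.level, C.out, val, hd, fun y => Circuit.accepts_iff (hval y), ?_⟩
  intro y i g
  refine gateOK_body 2 C hC (fun t => Sum.elim (emb own cst (Function.update y i t)) v) ?_
    (fun t => val (Function.update y i t)) (fun t => hval _) g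
  rintro (u | l)
  · rcases hown : own u with _ | ⟨i', j⟩
    · left
      refine ⟨cst u, fun t => ?_⟩
      simp only [Sum.elim_inl, emb, hown]
    · by_cases hi : i' = i
      · subst hi
        right
        refine ⟨j, false, fun t => ?_⟩
        simp only [Sum.elim_inl, emb, hown, Function.update_self, Bool.false_xor]
      · left
        refine ⟨y i' j, fun t => ?_⟩
        simp only [Sum.elim_inl, emb, hown]
        rw [Function.update_of_ne hi]
  · left
    exact ⟨v l, fun t => rfl⟩

/-- **The main step.** -/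
theorem core_mixed {m w D e d a b k s t N n q r τ M L T : ℕ} (hm : m ≠ 0)
    (C : Fin t → Mixed (Fin a × Fin b) N k s) (hC : ∀ i, (C i).Valid m w D e d)
    (H : ∀ x : Fin a × Fin b → Bool, (t ≤ 2 * Nat.card {i // (C i).Accepts x} ↔
      Odd (univ.filter fun j : Fin a =>
        b ≤ 2 * (univ.filter fun c : Fin b => x (j, c) = true).card).card))
    (hn : n ≤ a) {p γ μ : ℝ} (P : MPar p γ μ r) (hN : (N : ℝ) ≤ μ ^ (r + 1)) (hq : 2 ≤ q)
    (hq1 : ZB (w * (m * (D * r))) (D * r) m.primeFactorsList.length ≤ q) (hq2 : e * r < q)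
    (hqb : 8 * (q : ℝ) ≤ p ^ d * b)
    (hsmall : (t * 2 ^ k : ℝ) * (d * (2 ^ (d * τ) * (γ * μ) ^ (τ + 1))) +
      2 * n * Real.exp (-((p ^ d) ^ 2 * b / 8)) < 1)
    (hM : M = d * τ + k * (Nat.clog 2 (s + 1) + 1) + Nat.clog 2 t + Nat.clog 2 (q + 1) + 4)
    (hL : L = M * 4 ^ q) (hT : T = L + (d + 1 + q + Nat.clog 2 s + 1))
    (hnr : 2 ^ (q + 1) * (16 * T + 1) ^ (d + 1) * (T + L + 1) ≤ n) : False := by
  classical
  -- the gates
  choose val hval using fun (i : Fin t) (v : Fin k → Bool) (x : Fin a × Fin b → Bool) =>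
    (C i).body.exists_run 2 (Sum.elim x v)
  -- the restriction
  obtain ⟨ρ, hρ1, hρ2⟩ := exists_good P hN (κ := Fin t × (Fin k → Bool))
    (fun u => (C u.1).body.level) (fun u g x => val u.1 u.2 x g)
    (fun u g => gateOK_body 2 (C u.1).body (hC u.1).body_kind (fun x => Sum.elim x u.2)
      (by
        rintro (c | l)
        · exact Or.inr ⟨c, false, fun x => by simp⟩
        · exact Or.inl ⟨u.2 l, fun x => rfl⟩) (fun x => val u.1 u.2 x) (fun x => hval _ _ _) g)
    d τ (fun u g => (hC u.1).body_depth g) n b q (rowSet a b hn) (card_rowSet hn) hqb (by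
      rw [Fintype.card_prod, Fintype.card_fun, Fintype.card_bool, Fintype.card_fin,
        Fintype.card_fin]
      push_cast
      exact hsmall)
  obtain ⟨own, cst, σ, hemb, hodd⟩ := exists_embedding hn ρ hρ2
  -- the states
  choose z hz hz' using fun (i : Fin t) (x : Fin a × Fin b → Bool) => (hC i).unique_state x
  have hacc : ∀ (i : Fin t) (x : Fin a × Fin b → Bool), (C i).Accepts x ↔
      (C i).top.Accepts 2 (Sum.elim x (z i x)) := by
    intro i x
    constructor
    · rintro ⟨z', h1, h2⟩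
      rw [← hz' i x z' h1]
      exact h2
    · exact fun h => ⟨z i x, hz i x, h⟩
  have hstate : ∀ (i : Fin t) (y : Fin q → Fin n → Bool) (v : Fin k → Bool),
      z i (emb own cst y) = v ↔ (True ∧ ∀ j, v j = (C i).special j v
        (Sum.elim (emb own cst y) fun g => val i v (app ρ (emb own cst y)) g)) := by
    intro i y v
    rw [hemb]
    constructor
    · rintro rfl
      obtain ⟨val', h1, h2⟩ := hz i (emb own cst y)
      refine ⟨trivial, ?_⟩
      rw [Circuit.run_unique h1 (hval i (z i (emb own cst y)) (emb own cst y))] at h2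
      exact h2
    · rintro ⟨-, h⟩
      exact (hz' i _ v ⟨_, hval i v _, h⟩).symm
  have hB : ∀ (i : Fin t) (v : Fin k → Bool) (S : (Fin a × Fin b → Bool) → Prop),
      CubeClosed q S → |∑ y, ind (S (emb own cst y)) *
        (ind ((C i).top.Accepts 2 (Sum.elim (emb own cst y) v)) * gip y)| ≤
      (q + 1) * (1 / 2) ^ M * Fintype.card (Fin q → Fin n → Bool) := by
    intro i v S hS
    exact closed_circ (by omega) hL hT hnr _
      (semC_top (C i).top (hC i).top_kind (hC i).top_depth own cst v)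
      (fun y => S (emb own cst y)) (boxClosed_emb own cst S hS)
  set A : ℝ := 2 ^ (d * τ) * ((s + 1 : ℕ) : ℝ) ^ k with hA
  have hML : M ≤ L := by
    rw [hL]
    exact Nat.le_mul_of_pos_right _ (by positivity)
  refine top_mixed (t := t) (k := k) (M := M) (q := q) (r := n) (by omega) ?_ A ?_ ?_
    (fun i y => z i (emb own cst y))
    (fun i v y => (C i).top.Accepts 2 (Sum.elim (emb own cst y) v)) ?_ σ ?_
  · refine le_trans ?_ hnr
    have e1 : 2 ^ q ≤ 2 ^ (q + 1) * (16 * T + 1) ^ (d + 1) := by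
      have : 1 ≤ (16 * T + 1) ^ (d + 1) := Nat.one_le_pow _ _ (by omega)
      calc 2 ^ q ≤ 2 ^ (q + 1) := Nat.pow_le_pow_right (by norm_num) (by omega)
        _ = 2 ^ (q + 1) * 1 := (mul_one _).symm
        _ ≤ _ := Nat.mul_le_mul_left _ this
    exact Nat.mul_le_mul e1 (by omega)
  · have ht1 : (t : ℝ) ≤ 2 ^ Nat.clog 2 t := by exact_mod_cast Nat.le_pow_clog (by norm_num) t
    have hq1 : ((q : ℝ) + 1) ≤ 2 ^ Nat.clog 2 (q + 1) := by
      exact_mod_cast Nat.le_pow_clog (by norm_num) (q + 1)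
    have hs1 : ((s + 1 : ℕ) : ℝ) ≤ 2 ^ Nat.clog 2 (s + 1) := by
      exact_mod_cast Nat.le_pow_clog (by norm_num) (s + 1)
    calc 16 * ((t : ℝ) * (2 ^ k * A * (q + 1)))
        ≤ 16 * (2 ^ Nat.clog 2 t * (2 ^ k * (2 ^ (d * τ) * (2 ^ Nat.clog 2 (s + 1)) ^ k) *
          2 ^ Nat.clog 2 (q + 1))) := by
          rw [hA]
          gcongr
      _ = 2 ^ M := by
          rw [hM, pow_add, pow_add, pow_add, pow_add, mul_add, mul_one, pow_add,
            mul_comm k (Nat.clog 2 (s + 1)), pow_mul (2 : ℝ) (Nat.clog 2 (s + 1)) k]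
          ring
  · have ht1 : (t : ℝ) ≤ 2 ^ Nat.clog 2 t := by exact_mod_cast Nat.le_pow_clog (by norm_num) t
    have ht2 : (1 : ℝ) ≤ 2 ^ Nat.clog 2 t := one_le_pow₀ (by norm_num)
    calc 8 * ((t : ℝ) + 1) ≤ 2 ^ 4 * 2 ^ Nat.clog 2 t := by linarith
      _ = 2 ^ (4 + Nat.clog 2 t) := by rw [pow_add]
      _ ≤ 2 ^ M := pow_le_pow_right₀ (by norm_num) (by omega)
  · intro i v
    have h1 := tree_corr (em := emb own cst)
      (G := fun y => ind ((C i).top.Accepts 2 (Sum.elim (emb own cst y) v)) * gip y) hq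
      (hB i v) hm P.r1 hq1 hq2 v (fun j => (C i).special j v)
      (fun j => (hC i).special_kind j v) (d * τ) (fun g x => val i v (app ρ x) g) (hρ1 (i, v))
      (fun _ => True) CubeClosed.true
    have h2 : ∀ y : Fin q → Fin n → Bool, ind (z i (emb own cst y) = v) =
        ind (True ∧ ∀ j, v j = (C i).special j v
        (Sum.elim (emb own cst y) fun g => val i v (app ρ (emb own cst y)) g)) :=
      fun y => ind_congr (hstate i y v)
    simp only [h2]
    refine h1.trans (le_of_eq ?_)
    rw [hA]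
    ring
  · intro y
    have h1 := H (emb own cst y)
    rw [hodd y] at h1
    rw [← h1]
    simp only [hacc]

end Pool.Agent.KCL
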