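import Pool.Agent.KCL.Gip
import Pool.Agent.SW.Corr

/-!
# Constant depth circuits against the generalised inner product on boxes
-/

set_option autoImplicit false
set_option linter.unusedSectionVars false

namespace Pool.Agent.KCL

open Finset Pool.Agent.SW

variable {κ : Type} [Fintype κ] [DecidableEq κ] {r : ℕ}

/-- `C` is computed by a circuit with `s` gates and depth `d` (in semantic form). -/
def SemC (s d : ℕ) (C : (κ → Fin r → Bool) → Prop) : Prop :=
  ∃ (lev : Fin s → ℕ) (out : Fin s) (val : (κ → Fin r → Bool) → Fin s → Bool),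
    lev out < d ∧ (∀ y, C y ↔ val y out = true) ∧
    ∀ (y : κ → Fin r → Bool) (i : κ) (g : Fin s),
      GateOK lev (fun g t => val (Function.update y i t) g) g

lemma gateOK_const {ι : Type} [Fintype ι] [DecidableEq ι] {s : ℕ} (lev : Fin s → ℕ)
    (h : Fin s → (ι → Bool) → Bool) (g : Fin s) (b : Bool) (hb : ∀ x, h g x = b) :
    GateOK lev h g := by
  refine ⟨{fun _ => b}, ?_, ?_⟩
  · intro a ha
    rw [Set.mem_singleton_iff] at ha
    subst ha
    exact Or.inl (Or.inl ⟨b, fun _ => rfl⟩)
  · left
    intro x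
    rw [hb]
    simp

/-- The rows in which the value of `gip` over the box depends on one more entry. -/
def good (z : κ → Bool → Fin r → Bool) (i₀ : κ) (j : Fin r) : Prop :=
  ∀ i, i ≠ i₀ → z i false j ≠ z i true j

open Classical in
/-- The correlation of the product of the circuits at the vertices of a box with `gip`, in one
direction. -/
lemma corr_dir {s d T : ℕ} (hT : 1 ≤ T) (C : (κ → Fin r → Bool) → Prop) (hC : SemC s d C)
    (i₀ : κ) (z : κ → Bool → Fin r → Bool) :
    |∑ t : Fin r → Bool, ∏ ω : κ → Bool,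
        (if C (vtx (upd z i₀ true t) ω) then gip (vtx (upd z i₀ true t) ω) else 0)| ≤
      2 ^ r * ((d + 1 : ℕ) * (2 ^ Fintype.card κ * s + 1 : ℕ) * (1 / 2) ^ (T + 1) +
        2 ^ T * yy (1 / ((16 * T + 1 : ℕ) : ℝ)) (1 / 2) (d + 1) ^
          (univ.filter fun j => good z i₀ j).card) := by
  obtain ⟨lev, out, val, hout, hCval, hval⟩ := hC
  -- the index set of the gates
  have hcard : Fintype.card (((κ → Bool) × Fin s) ⊕ Unit) = 2 ^ Fintype.card κ * s + 1 := by
    rw [Fintype.card_sum, Fintype.card_prod, Fintype.card_fun, Fintype.card_bool,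
      Fintype.card_fin, Fintype.card_unit]
  let e : (((κ → Bool) × Fin s) ⊕ Unit) ≃ Fin (2 ^ Fintype.card κ * s + 1) :=
    Fintype.equivFinOfCardEq hcard
  let lev₁ : (((κ → Bool) × Fin s) ⊕ Unit) → ℕ := Sum.elim (fun q => lev q.2) fun _ => d
  let h₁ : (((κ → Bool) × Fin s) ⊕ Unit) → (Fin r → Bool) → Bool :=
    Sum.elim (fun q t => val (vtx (upd z i₀ true t) q.1) q.2)
      fun _ t => decide (∀ ω : κ → Bool, val (vtx (upd z i₀ true t) ω) out = true)
  let lev' : Fin (2 ^ Fintype.card κ * s + 1) → ℕ := fun g => lev₁ (e.symm g)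
  let h' : Fin (2 ^ Fintype.card κ * s + 1) → (Fin r → Bool) → Bool := fun g => h₁ (e.symm g)
  have hgate : ∀ g, GateOK lev' h' g := by
    intro g
    obtain ⟨q, rfl⟩ := e.surjective g
    rcases q with ⟨ω, g⟩ | u
    · by_cases hω : ω i₀ = true
      · obtain ⟨A, hA, hg⟩ := hval (vtx z ω) i₀ g
        have hfun : ∀ t, h' (e (Sum.inl (ω, g))) t =
            val (Function.update (vtx z ω) i₀ t) g := by
          intro t
          show h₁ (e.symm (e (Sum.inl (ω, g)))) t = _
          rw [Equiv.symm_apply_apply]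
          show val (vtx (upd z i₀ true t) ω) g = _
          rw [vtx_upd_of_eq _ _ _ _ _ hω]
        refine ⟨A, ?_, ?_⟩
        · intro a ha
          rcases hA a ha with h1 | ⟨k, hk, rfl⟩
          · exact Or.inl h1
          · refine Or.inr ⟨e (Sum.inl (ω, k)), ?_, ?_⟩
            · show lev₁ (e.symm (e (Sum.inl (ω, k)))) < lev₁ (e.symm (e (Sum.inl (ω, g))))
              rw [Equiv.symm_apply_apply, Equiv.symm_apply_apply]
              exact hk
            · funext t
              show _ = h₁ (e.symm (e (Sum.inl (ω, k)))) t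
              rw [Equiv.symm_apply_apply]
              show _ = val (vtx (upd z i₀ true t) ω) k
              rw [vtx_upd_of_eq _ _ _ _ _ hω]
        · rcases hg with hg | hg | hg
          · exact Or.inl fun t => by rw [hfun]; exact hg t
          · exact Or.inr (Or.inl fun t => by rw [hfun]; exact hg t)
          · exact Or.inr (Or.inr fun t => by rw [hfun]; exact hg t)
      · refine gateOK_const lev' h' _ (val (vtx z ω) g) fun t => ?_
        show h₁ (e.symm (e (Sum.inl (ω, g)))) t = _
        rw [Equiv.symm_apply_apply]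
        show val (vtx (upd z i₀ true t) ω) g = _
        rw [vtx_upd_of_ne _ _ _ _ _ hω]
    · refine ⟨{a | ∃ ω : κ → Bool, a = h' (e (Sum.inl (ω, out)))}, ?_, Or.inr (Or.inl ?_)⟩
      · rintro a ⟨ω, rfl⟩
        refine Or.inr ⟨e (Sum.inl (ω, out)), ?_, rfl⟩
        show lev₁ (e.symm (e (Sum.inl (ω, out)))) < lev₁ (e.symm (e (Sum.inr u)))
        rw [Equiv.symm_apply_apply, Equiv.symm_apply_apply]
        exact hout
      · intro t
        have e1 : h' (e (Sum.inr u)) t =
            decide (∀ ω : κ → Bool, val (vtx (upd z i₀ true t) ω) out = true) := by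
          show h₁ (e.symm (e (Sum.inr u))) t = _
          rw [Equiv.symm_apply_apply]
          rfl
        have e2 : ∀ ω : κ → Bool, h' (e (Sum.inl (ω, out))) t =
            val (vtx (upd z i₀ true t) ω) out := by
          intro ω
          show h₁ (e.symm (e (Sum.inl (ω, out)))) t = _
          rw [Equiv.symm_apply_apply]
          rfl
        rw [e1, decide_eq_true_eq]
        constructor
        · rintro h a ⟨ω, rfl⟩
          rw [e2]
          exact h ω
        · intro h ω
          rw [← e2]
          exact h _ ⟨ω, rfl⟩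
  -- the product function
  let u : Fin r → Bool → ℂ := fun j b => if good z i₀ j ∧ z i₀ false j ≠ b then -1 else 1
  have hu : ∀ j b, ‖u j b‖ ≤ 1 := by
    intro j b
    simp only [u]
    split_ifs <;> simp
  have hS : ∀ j ∈ univ.filter (fun j => good z i₀ j), ‖u j false + u j true‖ ≤ 2 * (1 / 2 : ℝ) := by
    intro j hj
    have hj' := (Finset.mem_filter.mp hj).2
    simp only [u, hj', true_and]
    cases z i₀ false j <;> simp
  have h0 := rounds (ι := Fin r) (par_of hT) (by norm_num : (0 : ℝ) < 1 / 2) (by norm_num) lev'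
    (e (Sum.inr ())) (d + 1) 0 h' u (univ.filter fun j => good z i₀ j) hgate
    (fun g hg => absurd hg (Nat.not_lt_zero _)) (by
      show lev₁ (e.symm (e (Sum.inr ()))) < 0 + (d + 1)
      rw [Equiv.symm_apply_apply]
      show d < 0 + (d + 1)
      omega) hu hS
  -- rewriting the sum
  have h1 : ∀ t : Fin r → Bool, (if h' (e (Sum.inr ())) t = true then ∏ j, u j (t j) else 0) =
      ((∏ ω : κ → Bool, (if C (vtx (upd z i₀ true t) ω) then
        gip (vtx (upd z i₀ true t) ω) else 0) : ℝ) : ℂ) := by
    intro t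
    have e1 : h' (e (Sum.inr ())) t =
        decide (∀ ω : κ → Bool, val (vtx (upd z i₀ true t) ω) out = true) := by
      show h₁ (e.symm (e (Sum.inr ()))) t = _
      rw [Equiv.symm_apply_apply]
      rfl
    rw [e1]
    by_cases hall : ∀ ω : κ → Bool, val (vtx (upd z i₀ true t) ω) out = true
    · rw [if_pos (decide_eq_true hall)]
      have h2 : (∏ ω : κ → Bool, (if C (vtx (upd z i₀ true t) ω) then
          gip (vtx (upd z i₀ true t) ω) else 0)) =
          ∏ ω : κ → Bool, gip (vtx (upd z i₀ true t) ω) :=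
        Finset.prod_congr rfl fun ω _ => if_pos ((hCval _).mpr (hall ω))
      rw [h2, prod_gip]
      push_cast
      refine Finset.prod_congr rfl fun j _ => ?_
      have h3 : (∀ i, upd z i₀ true t i false j ≠ upd z i₀ true t i true j) ↔
          (good z i₀ j ∧ z i₀ false j ≠ t j) := by
        constructor
        · intro h
          refine ⟨fun i hi => ?_, ?_⟩
          · have := h i
            rw [upd_ne _ _ _ _ _ hi] at this
            exact this
          · have := h i₀
            rw [upd_self, upd_not _ _ _ _ _ (by decide)] at this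
            exact this
        · rintro ⟨h4, h5⟩ i
          by_cases hi : i = i₀
          · subst hi
            rw [upd_self, upd_not _ _ _ _ _ (by decide)]
            exact h5
          · rw [upd_ne _ _ _ _ _ hi]
            exact h4 i hi
      simp only [u]
      by_cases h4 : good z i₀ j ∧ z i₀ false j ≠ t j
      · rw [if_pos h4, if_pos (h3.mpr h4)]
        norm_num
      · rw [if_neg h4, if_neg (fun h5 => h4 (h3.mp h5))]
        norm_num
    · rw [if_neg (by rw [decide_eq_true_eq]; exact hall)]
      push Not at hall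
      obtain ⟨ω, hω⟩ := hall
      rw [Finset.prod_eq_zero (Finset.mem_univ ω), Complex.ofReal_zero]
      exact if_neg (fun h => hω ((hCval _).mp h))
  simp only [h1] at h0
  rw [← Complex.ofReal_sum, Complex.norm_real, Real.norm_eq_abs, Fintype.card_fin] at h0
  refine h0.trans (le_of_eq ?_)
  norm_num

open Classical in
/-- The number of boxes with few good rows. -/
lemma sum_good (i₀ : κ) (y : ℝ) (hy0 : 0 ≤ y) (hy1 : y ≤ 1) :
    ∑ z : κ → Bool → Fin r → Bool, y ^ (univ.filter fun j => good z i₀ j).card ≤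
      Fintype.card (κ → Bool → Fin r → Bool) * (1 - (1 - y) / 2 ^ Fintype.card κ) ^ r := by
  have h1 : ∀ z : κ → Bool → Fin r → Bool, y ^ (univ.filter fun j => good z i₀ j).card =
      ∏ j, (if ∀ i, i ≠ i₀ → z i false j ≠ z i true j then y else 1) := by
    intro z
    rw [Finset.prod_ite, Finset.prod_const, Finset.prod_const_one, mul_one]
    exact congrArg (fun n : ℕ => y ^ n)
      (congrArg Finset.card (Finset.filter_congr fun j _ => Iff.rfl))
  simp only [h1]
  rw [sum_rows_box r fun v => if ∀ i, i ≠ i₀ → v i false ≠ v i true then y else 1]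
  have hM : (0 : ℝ) < 2 ^ Fintype.card κ := by positivity
  have hcard : (Fintype.card (κ → Bool → Fin r → Bool) : ℝ) =
      ((2 : ℝ) ^ Fintype.card κ * 2 ^ Fintype.card κ) ^ r := by
    rw [Fintype.card_fun, Fintype.card_fun, Fintype.card_fun, Fintype.card_bool,
      Fintype.card_fin]
    push_cast
    rw [← pow_add, ← pow_mul, ← pow_mul, ← pow_mul]
    congr 1
    ring
  have h2 : ∑ v : κ → Bool → Bool, (if ∀ i, i ≠ i₀ → v i false ≠ v i true then y else 1) ≤
      2 ^ Fintype.card κ * 2 ^ Fintype.card κ - (1 - y) * 2 ^ Fintype.card κ := by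
    have h3 : ∀ v : κ → Bool → Bool, (if ∀ i, i ≠ i₀ → v i false ≠ v i true then y else 1) =
        1 - (1 - y) * if ∀ i, i ≠ i₀ → v i false ≠ v i true then 1 else 0 := by
      intro v
      split_ifs
      · ring
      · ring
    simp only [h3]
    rw [Finset.sum_sub_distrib, ← Finset.mul_sum, Finset.sum_boole, Finset.sum_const,
      Finset.card_univ]
    have h4 : Fintype.card (κ → Bool) ≤
        (univ.filter fun v : κ → Bool → Bool => ∀ i, i ≠ i₀ → v i false ≠ v i true).card := by
      rw [← Finset.card_univ]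
      refine Finset.card_le_card_of_injOn (fun b i c => xor (b i) c) ?_ ?_
      · intro b _
        rw [Finset.mem_coe, Finset.mem_filter]
        refine ⟨Finset.mem_univ _, fun i _ => ?_⟩
        show xor (b i) false ≠ xor (b i) true
        cases b i <;> decide
      · intro b _ b' _ h
        funext i
        have := congrFun (congrFun h i) false
        simpa using this
    have h5 : (2 : ℝ) ^ Fintype.card κ ≤
        ((univ.filter fun v : κ → Bool → Bool => ∀ i, i ≠ i₀ → v i false ≠ v i true).card : ℝ) := by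
      have : Fintype.card (κ → Bool) = 2 ^ Fintype.card κ := by
        rw [Fintype.card_fun, Fintype.card_bool]
      rw [this] at h4
      exact_mod_cast h4
    have h6 : (Fintype.card (κ → Bool → Bool) : ℝ) = 2 ^ Fintype.card κ * 2 ^ Fintype.card κ := by
      rw [Fintype.card_fun, Fintype.card_fun, Fintype.card_bool]
      push_cast
      rw [← mul_pow]
      norm_num
    rw [nsmul_eq_mul, mul_one, h6]
    have h7 := mul_le_mul_of_nonneg_left h5 (by linarith : 0 ≤ 1 - y)
    linarith
  have h0 : 0 ≤ ∑ v : κ → Bool → Bool, (if ∀ i, i ≠ i₀ → v i false ≠ v i true then y else 1) := by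
    refine Finset.sum_nonneg fun v _ => ?_
    split_ifs
    · exact hy0
    · norm_num
  refine (pow_le_pow_left₀ h0 h2 r).trans (le_of_eq ?_)
  rw [hcard]
  generalize (2 : ℝ) ^ Fintype.card κ = M at hM
  rw [← mul_pow]
  congr 1
  field_simp

open Classical in
/-- **The box average of a constant depth circuit times `gip` is small.** -/
theorem box_corr {s d T : ℕ} (hT : 1 ≤ T) (C : (κ → Fin r → Bool) → Prop) (hC : SemC s d C)
    (i₀ : κ) :
    |BI fun (_ : κ → Bool) y => if C y then gip y else 0| ≤
      (d + 1 : ℕ) * (2 ^ Fintype.card κ * s + 1 : ℕ) * (1 / 2) ^ (T + 1) +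
        2 ^ T * (1 - (1 / ((16 * T + 1 : ℕ) : ℝ)) ^ (d + 1) / 2 / 2 ^ Fintype.card κ) ^ r := by
  have hN : (0 : ℝ) < Fintype.card (κ → Bool → Fin r → Bool) := by
    exact_mod_cast Fintype.card_pos
  set N : ℝ := (Fintype.card (κ → Bool → Fin r → Bool) : ℝ) with hNdef
  set F : (κ → Bool → Fin r → Bool) → ℝ := fun z => ∏ ω : κ → Bool,
    (if C (vtx z ω) then gip (vtx z ω) else 0) with hF
  set a : ℝ := (d + 1 : ℕ) * (2 ^ Fintype.card κ * s + 1 : ℕ) * (1 / 2) ^ (T + 1) with ha
  set y : ℝ := yy (1 / ((16 * T + 1 : ℕ) : ℝ)) (1 / 2) (d + 1) with hy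
  have hp0 : 0 < 1 / ((16 * T + 1 : ℕ) : ℝ) := by positivity
  have hp1 : 1 / ((16 * T + 1 : ℕ) : ℝ) ≤ 1 := (par_of hT).p1.le
  have hy0 : 0 ≤ y := yy_nonneg hp0.le hp1 (by norm_num) _
  have hyeq : 1 - y = (1 / ((16 * T + 1 : ℕ) : ℝ)) ^ (d + 1) / 2 := by
    rw [hy, yy_eq]
    ring
  have hy1 : y ≤ 1 := by
    have : 0 ≤ (1 / ((16 * T + 1 : ℕ) : ℝ)) ^ (d + 1) / 2 := by positivity
    linarith
  have h1 := sum_upd (α := Fin r → Bool) i₀ true F
  have hq : (Fintype.card (Fin r → Bool) : ℝ) = 2 ^ r := by
    rw [Fintype.card_fun, Fintype.card_bool, Fintype.card_fin]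
    push_cast
    rfl
  rw [hq] at h1
  have hr : (0 : ℝ) < 2 ^ r := by positivity
  have h2 : |∑ z, ∑ t, F (upd z i₀ true t)| ≤ ∑ z : κ → Bool → Fin r → Bool,
      2 ^ r * (a + 2 ^ T * y ^ (univ.filter fun j => good z i₀ j).card) := by
    refine (Finset.abs_sum_le_sum_abs _ _).trans (Finset.sum_le_sum fun z _ => ?_)
    exact corr_dir hT C hC i₀ z
  have e1 : ∑ z : κ → Bool → Fin r → Bool,
      2 ^ r * (a + 2 ^ T * y ^ (univ.filter fun j => good z i₀ j).card) =
      2 ^ r * (N * a + 2 ^ T * ∑ z : κ → Bool → Fin r → Bool,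
        y ^ (univ.filter fun j => good z i₀ j).card) := by
    rw [← Finset.mul_sum, Finset.sum_add_distrib, Finset.sum_const, Finset.card_univ,
      nsmul_eq_mul, Finset.mul_sum (univ : Finset (κ → Bool → Fin r → Bool))
        (fun z => y ^ (univ.filter fun j => good z i₀ j).card) ((2 : ℝ) ^ T)]
  rw [h1, abs_mul, abs_of_pos hr, e1] at h2
  have h3 := le_of_mul_le_mul_left h2 hr
  have h4 := sum_good (r := r) i₀ y hy0 hy1
  rw [← hNdef] at h4
  have h5 : |BI fun (_ : κ → Bool) y => if C y then gip y else 0| = |∑ z, F z| / N := by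
    unfold BI
    rw [abs_div, abs_of_pos hN]
  rw [h5, div_le_iff₀ hN, ← hyeq]
  have h6 := mul_le_mul_of_nonneg_left h4 (by positivity : (0 : ℝ) ≤ 2 ^ T)
  calc |∑ z, F z| ≤ N * a + 2 ^ T * ∑ z : κ → Bool → Fin r → Bool,
        y ^ (univ.filter fun j => good z i₀ j).card := h3
    _ ≤ N * a + 2 ^ T * (N * (1 - (1 - y) / 2 ^ Fintype.card κ) ^ r) := by linarith
    _ = _ := by ring

end Pool.Agent.KCL
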