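import Pool.Agent.RS.Circuit
import Pool.Agent.SW.Defs

/-!
# Polynomials in Boolean variables, tests, and circuits with special gates
-/

set_option autoImplicit false

namespace Pool.Agent.KCL

open Pool.Agent.RS

/-- The value at `x` of the polynomial of degree at most `D` with coefficients `c S` in an abelian
group: the sum of `c S` over the sets `S` of at most `D` variables that are all true. -/
def polyEval {V G : Type} [Fintype V] [AddCommMonoid G] (D : ℕ) (c : Finset V → G)
    (x : V → Bool) : G :=
  ∑ S : Finset V, if S.card ≤ D ∧ ∀ i ∈ S, x i = true then c S else 0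

/-- `g` is an arbitrary function of the values of `w` polynomials of degree at most `D`
modulo `m`. -/
def DegLocal {V : Type} [Fintype V] (m w D : ℕ) (g : (V → Bool) → Bool) : Prop :=
  ∃ (c : Fin w → Finset V → ZMod m) (A : (Fin w → ZMod m) → Bool),
    ∀ x, g x = A fun s => polyEval D (c s) x

/-- `g` tests whether a polynomial of degree at most `e` with coefficients in some abelian group
vanishes. -/
def GroupTest {V : Type} [Fintype V] (e : ℕ) (g : (V → Bool) → Bool) : Prop :=
  ∃ (G : Type) (_ : AddCommGroup G) (c : Finset V → G), ∀ x, g x = true ↔ polyEval e c x = 0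

/-- `P` is an `AND` of arbitrarily many tests, each of them an arbitrary function of the values of
`w` polynomials of degree at most `D` modulo `m`, or the test whether a polynomial of degree at
most `e` over an abelian group vanishes. -/
def AndOfTests {V : Type} [Fintype V] (m w D e : ℕ) (P : (V → Bool) → Bool) : Prop :=
  ∃ 𝒞 : Set ((V → Bool) → Bool), (∀ g ∈ 𝒞, DegLocal m w D g ∨ GroupTest e g) ∧
    ∀ x, P x = true ↔ ∀ g ∈ 𝒞, g x = true

/-- `P` is a sum with signs (`ε l` is `1`, `-1` or `0`) of `s` functions, each an `AND` of
tests. -/
def SignedSum {V : Type} [Fintype V] (m w D e s : ℕ) (P : (V → Bool) → Bool) : Prop :=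
  ∃ (Q : Fin s → (V → Bool) → Bool) (ε : Fin s → ℤ), (∀ l, AndOfTests m w D e (Q l)) ∧
    (∀ l, |ε l| ≤ 1) ∧
    ∀ x, (if P x = true then (1 : ℤ) else 0) = ∑ l, if Q l x = true then ε l else 0

/-- A circuit on the variables `V` with `N` gates and `k` special gates, followed by an output
circuit with `s` gates. The gates of `body` may read the special gates, and the special gate `j`
is the function `special j z` of the variables and the gates of `body`, where `z` is the vector
of the values of the special gates. -/
structure Mixed (V : Type) (N k s : ℕ) where
  body : Circuit (V ⊕ Fin k) N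
  special : Fin k → (Fin k → Bool) → (V ⊕ Fin N → Bool) → Bool
  top : Circuit (V ⊕ Fin k) s

namespace Mixed

variable {V : Type} [Fintype V] {N k s : ℕ}

/-- `z` is a consistent vector of values of the special gates on the input `x`. -/
def IsState (M : Mixed V N k s) (x : V → Bool) (z : Fin k → Bool) : Prop :=
  ∃ val : Fin N → Bool, M.body.IsRun 2 (Sum.elim x z) val ∧
    ∀ j, z j = M.special j z (Sum.elim x val)

/-- The circuit accepts `x`. -/
def Accepts (M : Mixed V N k s) (x : V → Bool) : Prop :=
  ∃ z, M.IsState x z ∧ M.top.Accepts 2 (Sum.elim x z)

/-- All gates of `body` and `top` are `AND`, `OR` or `NOR` gates, their depth is at most `d`, the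
special gates are sums with signs of `s` functions `AndOfTests m w D e`, and on every input there
is exactly one consistent vector of values of the special gates (for example because no gate
depends on itself). -/
structure Valid (M : Mixed V N k s) (m w D e d : ℕ) : Prop where
  body_kind : NoMod M.body
  top_kind : NoMod M.top
  body_depth : ∀ g, M.body.level g + 1 ≤ d
  top_depth : M.top.level M.top.out + 1 ≤ d
  special_kind : ∀ j z, SignedSum m w D e s (M.special j z)
  unique_state : ∀ x, ∃! z, M.IsState x z

end Mixed

end Pool.Agent.KCL
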