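import Pool.Agent.KCL.Numbers

/-!
# The parity of majorities: the main theorem
-/

set_option autoImplicit false

namespace Pool.Agent.KCL

open Finset Pool.Agent.Helper32.QS Pool.Agent.SW Pool.Agent.RS

lemma Mixed.Valid.mono {V : Type} [Fintype V] {N k s m w D e d d' : ℕ} {M : Mixed V N k s}
    (h : M.Valid m w D e d) (hd : d ≤ d') : M.Valid m w D e d' :=
  ⟨h.body_kind, h.top_kind, fun g => (h.body_depth g).trans hd, h.top_depth.trans hd,
    h.special_kind, h.unique_state⟩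

/-- **The main theorem.** -/
theorem main (m D d c : ℕ) (hm : 2 ≤ m) : ∃ K : ℕ, ∀ a b N w e k s t : ℕ, N ≤ min a b ^ c →
    ∀ C : Fin t → Mixed (Fin a × Fin b) N k s, (∀ i, (C i).Valid m w D e d) →
      (∀ x : Fin a × Fin b → Bool, t ≤ 2 * Nat.card {i // (C i).Accepts x} ↔
        Odd (univ.filter fun j : Fin a =>
          b ≤ 2 * (univ.filter fun c : Fin b => x (j, c) = true).card).card) →
      (min a b : ℝ) ≤ (2 ^ (K * (w ^ K + e + 1)) * (k + 1) * Real.log (s + t + 2)) ^ K := by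
  classical
  obtain ⟨u, hu⟩ : ∃ z, z = m.primeFactorsList.length := ⟨_, rfl⟩
  obtain ⟨d', hd'⟩ : ∃ z, z = d + 1 := ⟨_, rfl⟩
  obtain ⟨r, hr⟩ : ∃ z, z = 16 * d' * (c + 1) := ⟨_, rfl⟩
  obtain ⟨c₂, hc₂⟩ : ∃ z, z = (D * r + 2) ^ u := ⟨_, rfl⟩
  obtain ⟨c₁, hc₁⟩ : ∃ z, z = ((m * (D * r) + 1) * 2 ^ (D * r)) ^ c₂ := ⟨_, rfl⟩
  obtain ⟨G, hG⟩ : ∃ z, z = 2 ^ (d' + 1) := ⟨_, rfl⟩
  obtain ⟨B, hB⟩ : ∃ z, z = 50 * (d' + 4) + 32 * r + G + 200 * d' + 8 := ⟨_, rfl⟩
  obtain ⟨E, hE⟩ : ∃ z, z = 8 * d' + (d' + 3) := ⟨_, rfl⟩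
  obtain ⟨K, hK⟩ : ∃ z, z = 3 * B + 3 * c₁ + 3 * r + 6 + c₂ + E := ⟨_, rfl⟩
  refine ⟨K, ?_⟩
  intro a b N w e k s t hN C hC H
  obtain ⟨n, hn⟩ : ∃ z, z = min a b := ⟨_, rfl⟩
  rw [← hn] at hN
  obtain ⟨q, hq⟩ : ∃ z, z = ZB (w * (m * (D * r))) (D * r) u + e * r + 2 := ⟨_, rfl⟩
  obtain ⟨l, hl⟩ : ∃ z, z = Nat.clog 2 (s + t + 2) := ⟨_, rfl⟩
  have hl1 : 1 ≤ l := by
    rw [hl]
    exact Nat.clog_pos (by norm_num) (by omega)
  have hls : Nat.clog 2 (s + 1) ≤ l := by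
    rw [hl]
    exact Nat.clog_mono_right 2 (by omega)
  have hlt : Nat.clog 2 t ≤ l := by
    rw [hl]
    exact Nat.clog_mono_right 2 (by omega)
  have hr1 : 1 ≤ r := by
    rw [hr]
    exact Nat.mul_pos (by omega) (by omega)
  have hX : q < 2 ^ q := Nat.lt_two_pow_self
  have hXX : 2 ^ q ≤ (2 ^ q) ^ 3 := by
    calc 2 ^ q = (2 ^ q) ^ 1 := (pow_one _).symm
      _ ≤ (2 ^ q) ^ 3 := Nat.pow_le_pow_right (by positivity) (by norm_num)
  obtain ⟨Y, hY⟩ : ∃ z, z = B * ((k + 1) * l) * (2 ^ q) ^ 3 := ⟨_, rfl⟩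
  have hkl : 1 ≤ (k + 1) * l := Nat.mul_pos (by omega) (by omega)
  have hBY : B ≤ Y := by
    rw [hY]
    calc B = B * 1 * 1 := by ring
      _ ≤ _ := Nat.mul_le_mul (Nat.mul_le_mul_left _ hkl) (Nat.one_le_pow _ _ (by positivity))
  have hqY : 8 * q ≤ Y := by
    rw [hY]
    calc 8 * q ≤ B * 1 * (2 ^ q) ^ 3 := by
          rw [mul_one]
          exact Nat.mul_le_mul (by omega) (by omega)
      _ ≤ _ := Nat.mul_le_mul_right _ (Nat.mul_le_mul_left _ hkl)
  have hY1 : 1 ≤ Y := by omega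
  -- the combinatorial bound
  have hmain : n ≤ Y ^ E := by
    by_contra hcon
    push Not at hcon
    obtain ⟨A, hA1, hA2⟩ := exists_root (8 * d') n (by omega)
    have hAY : Y ≤ A := by
      by_contra hlt'
      have h1 : (A + 1) ^ (8 * d') ≤ Y ^ E :=
        (Nat.pow_le_pow_left (by omega) _).trans (Nat.pow_le_pow_right hY1 (by omega))
      omega
    have hAB : B ≤ A := hBY.trans hAY
    have hA0 : 1 ≤ A := by omega
    have hAr : (1 : ℝ) ≤ A := by exact_mod_cast hA0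
    have hnb : n ≤ b := hn ▸ min_le_right _ _
    have hbn : A ^ (8 * d') ≤ b := hA1.trans hnb
    have han : n ≤ a := hn ▸ min_le_left _ _
    have hnA : n ≤ A ^ (16 * d') := by
      have e4 : (A + 1) ^ (8 * d') ≤ A ^ (16 * d') := by
        calc (A + 1) ^ (8 * d') ≤ (A ^ 2) ^ (8 * d') := by
              refine Nat.pow_le_pow_left ?_ _
              have h2 : 8 ≤ A := by omega
              nlinarith
          _ = A ^ (16 * d') := by
              rw [← pow_mul]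
              congr 1
              ring
      omega
    have hNA : (N : ℝ) ≤ (A : ℝ) ^ (r + 1) := by
      have h1 : N ≤ A ^ (r + 1) := by
        calc N ≤ n ^ c := hN
          _ ≤ (A ^ (16 * d')) ^ c := Nat.pow_le_pow_left hnA _
          _ = A ^ (16 * d' * c) := by rw [← pow_mul]
          _ ≤ A ^ (r + 1) := by
              refine Nat.pow_le_pow_right hA0 ?_
              have : 16 * d' * c ≤ r := by
                rw [hr]
                exact Nat.mul_le_mul_left _ (by omega)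
              omega
      exact_mod_cast h1
    have h32 : 32 * r ≤ A := by omega
    have hqb : 8 * (q : ℝ) ≤ (1 / (32 * r * (A : ℝ) ^ 2)) ^ d' * b := by
      have e1 : (8 * q : ℝ) ≤ A := by exact_mod_cast hqY.trans hAY
      have e2 : ((A : ℝ) ^ (8 * d')) ≤ b := by exact_mod_cast hbn
      have e3 : (32 : ℝ) * r ≤ A := by exact_mod_cast h32
      have hApos : (0 : ℝ) < A := by linarith
      have hr' : (1 : ℝ) ≤ r := by exact_mod_cast hr1
      have e4 : (1 / (A : ℝ) ^ 3) ^ d' ≤ (1 / (32 * r * (A : ℝ) ^ 2)) ^ d' := by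
        refine pow_le_pow_left₀ (by positivity) ?_ _
        refine one_div_le_one_div_of_le (by positivity) ?_
        calc 32 * (r : ℝ) * (A : ℝ) ^ 2 ≤ A * (A : ℝ) ^ 2 :=
              mul_le_mul_of_nonneg_right e3 (by positivity)
          _ = (A : ℝ) ^ 3 := by ring
      calc 8 * (q : ℝ) ≤ A := e1
        _ = (A : ℝ) ^ 1 := (pow_one _).symm
        _ ≤ (A : ℝ) ^ (5 * d') := pow_le_pow_right₀ hAr (by omega)
        _ = (1 / (A : ℝ) ^ 3) ^ d' * (A : ℝ) ^ (8 * d') := by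
            rw [one_div, inv_pow, ← pow_mul, show 8 * d' = 5 * d' + 3 * d' by ring, pow_add]
            field_simp
        _ ≤ (1 / (32 * r * (A : ℝ) ^ 2)) ^ d' * b :=
            mul_le_mul e4 e2 (by positivity) (by positivity)
    have hsmall := small_of (t := t) (k := k) (τ := k + Nat.clog 2 t) (r := r) (d := d') (n := n)
      (b := b) (A := A) (by omega) hr1 h32 (by rw [← hG]; omega) (by omega) hA2 hbn le_rfl
    obtain ⟨M, hM⟩ : ∃ M, M = d' * (k + Nat.clog 2 t) + k * (Nat.clog 2 (s + 1) + 1) +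
      Nat.clog 2 t + Nat.clog 2 (q + 1) + 4 := ⟨_, rfl⟩
    obtain ⟨L, hL⟩ : ∃ L, L = M * 4 ^ q := ⟨_, rfl⟩
    obtain ⟨T, hT⟩ : ∃ T, T = L + (d' + 1 + q + Nat.clog 2 s + 1) := ⟨_, rfl⟩
    have hnr : 2 ^ (q + 1) * (16 * T + 1) ^ (d' + 1) * (T + L + 1) ≤ n := by
      refine (num_size hl1 hls hlt rfl hM hL hT).trans ?_
      refine le_trans (Nat.pow_le_pow_left (Nat.mul_le_mul_right _
        (Nat.mul_le_mul_right _ (by omega : 50 * (d' + 4) ≤ B))) _) ?_
      rw [← hY]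
      exact (Nat.pow_le_pow_right hY1 (by omega : d' + 3 ≤ E)).trans hcon.le
    have her : e * r < q := by omega
    exact core_mixed (by omega : m ≠ 0) C (fun i => (hC i).mono (by omega : d ≤ d')) H han
      (mpar_of hA0 hr1) hNA (by omega : 2 ≤ q) (by rw [← hu]; omega) her hqb hsmall hM hL hT hnr
  -- the final bound
  have hc₂1 : 1 ≤ c₂ := by
    rw [hc₂]
    exact Nat.one_le_pow _ _ (by omega)
  have hZB : ZB (w * (m * (D * r))) (D * r) u ≤ c₁ * (w ^ K + 1) := by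
    refine (ZB_le _ _ _).trans ?_
    rw [← hc₂]
    rcases Nat.eq_zero_or_pos w with rfl | hw
    · have e1 : ((0 * (m * (D * r)) + 1) * 2 ^ (D * r)) ^ c₂ ≤ c₁ := by
        rw [hc₁]
        exact Nat.pow_le_pow_left (Nat.mul_le_mul_right _ (by omega)) _
      refine e1.trans (Nat.le_mul_of_pos_right _ ?_)
      exact Nat.succ_pos _
    · have e1 : (w * (m * (D * r)) + 1) * 2 ^ (D * r) ≤
          (m * (D * r) + 1) * 2 ^ (D * r) * w := by
        have : w * (m * (D * r)) + 1 ≤ (m * (D * r) + 1) * w := by nlinarith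
        calc (w * (m * (D * r)) + 1) * 2 ^ (D * r) ≤ (m * (D * r) + 1) * w * 2 ^ (D * r) :=
              Nat.mul_le_mul_right _ this
          _ = _ := by ring
      calc ((w * (m * (D * r)) + 1) * 2 ^ (D * r)) ^ c₂ ≤
          ((m * (D * r) + 1) * 2 ^ (D * r) * w) ^ c₂ := Nat.pow_le_pow_left e1 _
        _ = c₁ * w ^ c₂ := by rw [mul_pow, hc₁]
        _ ≤ c₁ * (w ^ K + 1) := by
            refine Nat.mul_le_mul_left _ ?_
            have : w ^ c₂ ≤ w ^ K := Nat.pow_le_pow_right hw (by omega)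
            omega
  have hexp : 3 * B + 3 * q ≤ K * (w ^ K + e + 1) := by
    have e1 : 3 * q ≤ 3 * (c₁ * (w ^ K + 1)) + 3 * (e * r) + 6 := by omega
    have e2 : (3 * B + 3 * c₁ + 3 * r + 6) * (w ^ K + e + 1) ≤ K * (w ^ K + e + 1) :=
      Nat.mul_le_mul_right _ (by omega)
    have e3 : (3 * B + 3 * c₁ + 3 * r + 6) * (w ^ K + e + 1) =
        3 * B + 3 * (c₁ * (w ^ K + 1)) + 3 * (e * r) + 6 +
        (3 * B * (w ^ K + e) + 3 * c₁ * e + 3 * r * (w ^ K + 1) + 6 * (w ^ K + e)) := by ring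
    omega
  have hlog := clog_le_log (s + t)
  rw [← hl] at hlog
  push_cast at hlog
  have hlogpos : 0 < Real.log ((s : ℝ) + t + 2) := by
    refine Real.log_pos ?_
    have h1 : (0 : ℝ) ≤ s := Nat.cast_nonneg s
    have h2 : (0 : ℝ) ≤ t := Nat.cast_nonneg t
    linarith
  have hYr : (Y : ℝ) ≤ 2 ^ (K * (w ^ K + e + 1)) * (k + 1) * Real.log (s + t + 2) := by
    have e3 : 3 * B * (2 ^ q) ^ 3 ≤ 2 ^ (K * (w ^ K + e + 1)) := by
      calc 3 * B * (2 ^ q) ^ 3 ≤ 2 ^ (3 * B) * (2 ^ q) ^ 3 :=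
            Nat.mul_le_mul_right _ Nat.lt_two_pow_self.le
        _ = 2 ^ (3 * B + 3 * q) := by
            rw [← pow_mul, ← pow_add]
            congr 1
            ring
        _ ≤ 2 ^ (K * (w ^ K + e + 1)) := Nat.pow_le_pow_right (by norm_num) hexp
    have e4 : (3 * (B : ℝ) * (2 ^ q) ^ 3) ≤ 2 ^ (K * (w ^ K + e + 1)) := by exact_mod_cast e3
    calc (Y : ℝ) = B * (2 ^ q) ^ 3 * (k + 1) * l := by
          rw [hY]
          push_cast
          ring
      _ ≤ B * (2 ^ q) ^ 3 * (k + 1) * (3 * Real.log (s + t + 2)) :=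
          mul_le_mul_of_nonneg_left hlog (by positivity)
      _ = 3 * B * (2 ^ q) ^ 3 * ((k + 1) * Real.log (s + t + 2)) := by ring
      _ ≤ 2 ^ (K * (w ^ K + e + 1)) * ((k + 1) * Real.log (s + t + 2)) :=
          mul_le_mul_of_nonneg_right e4 (by positivity)
      _ = _ := by ring
  have hY1r : (1 : ℝ) ≤ Y := by exact_mod_cast hY1
  have hbase : (1 : ℝ) ≤ 2 ^ (K * (w ^ K + e + 1)) * (k + 1) * Real.log (s + t + 2) :=
    hY1r.trans hYr
  calc (min a b : ℝ) = ((n : ℕ) : ℝ) := by rw [hn]; push_cast; rfl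
    _ ≤ ((Y ^ E : ℕ) : ℝ) := by exact_mod_cast hmain
    _ = (Y : ℝ) ^ E := by push_cast; rfl
    _ ≤ (2 ^ (K * (w ^ K + e + 1)) * (k + 1) * Real.log (s + t + 2)) ^ E :=
        pow_le_pow_left₀ (Nat.cast_nonneg _) hYr _
    _ ≤ (2 ^ (K * (w ^ K + e + 1)) * (k + 1) * Real.log (s + t + 2)) ^ K :=
        pow_le_pow_right₀ hbase (by omega)

end Pool.Agent.KCL
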