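import Pool.Agent.KCL.ClosedCorr
import Pool.Agent.KCL.CorrK
import Pool.Agent.KCL.TreeCorr

/-!
# Majorities of constant depth circuits above closed sets
-/

set_option autoImplicit false
set_option linter.unusedSectionVars false

namespace Pool.Agent.KCL

open Finset Pool.Agent.SW

variable {q r : ℕ}

/-- Numbers: the bound for the box average. -/
lemma num_bound {d a s A L T : ℕ}
    (hT : T = L + (d + 1 + A + Nat.clog 2 s + 1))
    (ha : 2 ^ (A + 1) * (16 * T + 1) ^ (d + 1) * (T + L + 1) ≤ a) :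
    (d + 1 : ℕ) * (2 ^ A * s + 1 : ℕ) * (1 / 2) ^ (T + 1) +
        2 ^ T * (1 - (1 / ((16 * T + 1 : ℕ) : ℝ)) ^ (d + 1) / 2 / 2 ^ A) ^ a ≤
      (1 / 2 : ℝ) ^ L := by
  -- the first term
  have h2 : ((d + 1 : ℕ) : ℝ) * (2 ^ A * s + 1 : ℕ) * (1 / 2) ^ (T + 1) ≤ (1 / 2) ^ (L + 1) := by
    have e1 : (d + 1) * (2 ^ A * s + 1) ≤ 2 ^ (d + 1 + A + Nat.clog 2 s + 1) := by
      have e2 : d + 1 ≤ 2 ^ (d + 1) := Nat.lt_two_pow_self.le
      have e3 : s ≤ 2 ^ Nat.clog 2 s := Nat.le_pow_clog (by norm_num) s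
      have e4 : 2 ^ A * s + 1 ≤ 2 ^ (A + Nat.clog 2 s + 1) := by
        have e5 : 2 ^ A * s ≤ 2 ^ A * 2 ^ Nat.clog 2 s := Nat.mul_le_mul_left _ e3
        have e6 : 1 ≤ 2 ^ A * 2 ^ Nat.clog 2 s := Nat.mul_pos (by positivity) (by positivity)
        have e7 : 2 ^ (A + Nat.clog 2 s + 1) = 2 ^ A * 2 ^ Nat.clog 2 s * 2 := by
          rw [pow_succ, pow_add]
        omega
      calc (d + 1) * (2 ^ A * s + 1) ≤ 2 ^ (d + 1) * 2 ^ (A + Nat.clog 2 s + 1) :=
            Nat.mul_le_mul e2 e4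
        _ = 2 ^ (d + 1 + A + Nat.clog 2 s + 1) := by
            rw [← pow_add]
            congr 1
            ring
    have e2 : ((d + 1 : ℕ) : ℝ) * (2 ^ A * s + 1 : ℕ) ≤ 2 ^ (d + 1 + A + Nat.clog 2 s + 1) := by
      exact_mod_cast e1
    have e3 : T + 1 = (d + 1 + A + Nat.clog 2 s + 1) + (L + 1) := by
      rw [hT]
      ring
    calc ((d + 1 : ℕ) : ℝ) * (2 ^ A * s + 1 : ℕ) * (1 / 2) ^ (T + 1)
        ≤ 2 ^ (d + 1 + A + Nat.clog 2 s + 1) * (1 / 2) ^ (T + 1) :=
          mul_le_mul_of_nonneg_right e2 (by positivity)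
      _ = (1 / 2) ^ (L + 1) := by
          rw [e3, pow_add (1 / 2 : ℝ) (d + 1 + A + Nat.clog 2 s + 1), ← mul_assoc, ← mul_pow]
          norm_num
  -- the second term
  have h3 : (2 : ℝ) ^ T * (1 - (1 / ((16 * T + 1 : ℕ) : ℝ)) ^ (d + 1) / 2 / 2 ^ A) ^ a ≤
      (1 / 2) ^ (L + 1) := by
    set x : ℝ := (1 / ((16 * T + 1 : ℕ) : ℝ)) ^ (d + 1) / 2 / 2 ^ A with hx
    have hN : (0 : ℝ) < ((16 * T + 1 : ℕ) : ℝ) := by positivity
    have hx0 : 0 < x := by positivity
    have hx1 : x ≤ 1 := by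
      rw [hx, div_le_one (by positivity), div_le_iff₀ (by norm_num)]
      have e1 : (1 / ((16 * T + 1 : ℕ) : ℝ)) ^ (d + 1) ≤ 1 := by
        refine pow_le_one₀ (by positivity) ?_
        rw [div_le_one hN]
        push_cast
        linarith [(Nat.cast_nonneg T : (0 : ℝ) ≤ T)]
      have e2 : (1 : ℝ) ≤ 2 ^ A := one_le_pow₀ (by norm_num)
      linarith
    have e1 : ((T + L + 1 : ℕ) : ℝ) ≤ a * x := by
      have e2 : (2 : ℝ) ^ (A + 1) * ((16 * T + 1 : ℕ) : ℝ) ^ (d + 1) * ((T + L + 1 : ℕ) : ℝ) ≤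
          a := by exact_mod_cast ha
      have e3 : x = 1 / (2 ^ (A + 1) * ((16 * T + 1 : ℕ) : ℝ) ^ (d + 1)) := by
        rw [hx, one_div_pow, pow_succ 2 A]
        field_simp
      rw [e3, mul_one_div, le_div_iff₀ (by positivity)]
      linarith
    have e2 : (1 - x) ^ a ≤ (1 / 2) ^ (T + L + 1) := by
      calc (1 - x) ^ a ≤ Real.exp (-x) ^ a := by
            refine pow_le_pow_left₀ (by linarith) ?_ a
            have := Real.add_one_le_exp (-x)
            linarith
        _ = Real.exp (-(a * x)) := by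
            rw [← Real.exp_nat_mul]
            congr 1
            ring
        _ ≤ Real.exp (-((T + L + 1 : ℕ) : ℝ)) := Real.exp_le_exp.mpr (by linarith)
        _ = Real.exp (-1) ^ (T + L + 1) := by
            rw [← Real.exp_nat_mul]
            congr 1
            ring
        _ ≤ (1 / 2) ^ (T + L + 1) := by
            refine pow_le_pow_left₀ (Real.exp_pos _).le ?_ _
            rw [Real.exp_neg, ← one_div]
            refine one_div_le_one_div_of_le (by norm_num) ?_
            have := Real.add_one_le_exp (1 : ℝ)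
            linarith
    calc (2 : ℝ) ^ T * (1 - x) ^ a ≤ 2 ^ T * (1 / 2) ^ (T + L + 1) :=
          mul_le_mul_of_nonneg_left e2 (by positivity)
      _ = (1 / 2) ^ (L + 1) := by
          rw [add_assoc, pow_add (1 / 2 : ℝ) T, ← mul_assoc, ← mul_pow]
          norm_num
  have h4 : (1 / 2 : ℝ) ^ L = (1 / 2) ^ (L + 1) + (1 / 2) ^ (L + 1) := by
    rw [pow_succ]
    ring
  linarith

/-- The average of `gip` is small. -/
lemma gip_small {M : ℕ} (hq : 1 ≤ q) (hr : 2 ^ q * M ≤ r) :
    |∑ y : Fin q → Fin r → Bool, gip y| ≤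
      (1 / 2) ^ M * Fintype.card (Fin q → Fin r → Bool) := by
  have hN : (Fintype.card (Fin q → Fin r → Bool) : ℝ) = ((2 : ℝ) ^ q) ^ r := by
    rw [Fintype.card_fun, Fintype.card_fun, Fintype.card_bool, Fintype.card_fin,
      Fintype.card_fin]
    push_cast
    rw [← pow_mul, ← pow_mul, mul_comm]
  rw [sum_gip, Fintype.card_fin, hN]
  set X : ℝ := (2 : ℝ) ^ q with hX
  have hX2 : 2 ≤ X := by
    calc (2 : ℝ) = 2 ^ 1 := by norm_num
      _ ≤ 2 ^ q := pow_le_pow_right₀ (by norm_num) hq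
  have hX0 : 0 < X := by linarith
  have h3 : X - 2 = X * (1 - 2 / X) := by field_simp
  have h5 : 0 ≤ 1 - 2 / X := by
    rw [sub_nonneg, div_le_one hX0]
    exact hX2
  have h4 : (1 - 2 / X) ≤ Real.exp (-(2 / X)) := by
    have := Real.add_one_le_exp (-(2 / X))
    linarith
  have hr' : X * M ≤ r := by
    rw [hX]
    exact_mod_cast hr
  have h6 : (1 - 2 / X) ^ r ≤ (1 / 2) ^ M := by
    calc (1 - 2 / X) ^ r ≤ Real.exp (-(2 / X)) ^ r := pow_le_pow_left₀ h5 h4 r
      _ = Real.exp (-(r * (2 / X))) := by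
        rw [← Real.exp_nat_mul]
        congr 1
        ring
      _ ≤ Real.exp (-(M : ℝ)) := by
        refine Real.exp_le_exp.mpr ?_
        have h8 : (M : ℝ) ≤ r * (2 / X) := by
          rw [mul_div_assoc', le_div_iff₀ hX0]
          have : (0 : ℝ) ≤ r := Nat.cast_nonneg r
          linarith
        linarith
      _ = Real.exp (-1) ^ M := by
        rw [← Real.exp_nat_mul]
        congr 1
        ring
      _ ≤ (1 / 2) ^ M := by
        refine pow_le_pow_left₀ (Real.exp_pos _).le ?_ _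
        rw [Real.exp_neg, ← one_div]
        refine one_div_le_one_div_of_le (by norm_num) ?_
        have := Real.add_one_le_exp (1 : ℝ)
        linarith
  rw [abs_of_nonneg (pow_nonneg (by linarith) _), h3, mul_pow, mul_comm]
  exact mul_le_mul_of_nonneg_right h6 (by positivity)

/-- Constant depth circuits do not correlate with `gip` on closed sets. -/
lemma closed_circ {s d M L T : ℕ} (hq : 1 ≤ q)
    (hL : L = M * 4 ^ q) (hT : T = L + (d + 1 + q + Nat.clog 2 s + 1))
    (hr : 2 ^ (q + 1) * (16 * T + 1) ^ (d + 1) * (T + L + 1) ≤ r)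
    (C : (Fin q → Fin r → Bool) → Prop) (hC : SemC s d C)
    (S : (Fin q → Fin r → Bool) → Prop) (hS : BoxClosed S) :
    |∑ y, ind (S y) * (ind (C y) * gip y)| ≤
      (q + 1) * (1 / 2) ^ M * Fintype.card (Fin q → Fin r → Bool) := by
  classical
  have h0 := closed_corr S hS ((1 / 2) ^ M) (by positivity)
    (fun y => if C y then gip y else 0) ?_ ?_
  · have h1 : ∀ y, ind (S y) * (ind (C y) * gip y) =
        if S y then (if C y then gip y else 0) else 0 := by
      intro y
      by_cases c : S y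
      · rw [ind_pos c, one_mul, if_pos c]
        by_cases c2 : C y
        · rw [ind_pos c2, one_mul, if_pos c2]
        · rw [ind_neg c2, zero_mul, if_neg c2]
      · rw [ind_neg c, zero_mul, if_neg c]
    rw [Finset.sum_congr rfl fun y _ => h1 y]
    exact h0
  · intro y
    show |if C y then gip y else 0| ≤ 1
    split_ifs
    · rcases gip_pm y with h | h <;> rw [h] <;> norm_num
    · norm_num
  · have h1 := box_corr (κ := Fin q) (r := r) (T := T) (by omega) C hC ⟨0, hq⟩
    rw [Fintype.card_fin] at h1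
    refine h1.trans ((num_bound hT hr).trans (le_of_eq ?_))
    rw [← pow_mul, ← pow_mul, hL]
    congr 1
    rw [← mul_pow]
    norm_num

/-- **Majorities.** -/
theorem top_mixed {t k M : ℕ} (hq : 1 ≤ q) (hMr : 2 ^ q * M ≤ r) (A : ℝ)
    (hM1 : 16 * (t * (2 ^ k * A * (q + 1))) ≤ (2 : ℝ) ^ M) (hM2 : 8 * ((t : ℝ) + 1) ≤ 2 ^ M)
    (z : Fin t → (Fin q → Fin r → Bool) → Fin k → Bool)
    (C : Fin t → (Fin k → Bool) → (Fin q → Fin r → Bool) → Prop)
    (hcorr : ∀ i v, |∑ y, ind (z i y = v) * (ind (C i v y) * gip y)| ≤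
      A * ((q + 1) * (1 / 2) ^ M * Fintype.card (Fin q → Fin r → Bool))) (σ : Prop)
    (H : ∀ y : Fin q → Fin r → Bool, (t ≤ 2 * Nat.card {i // C i (z i y) y} ↔
      (Odd (rowsAll y) ↔ σ))) : False := by
  classical
  have hNpos : (0 : ℝ) < Fintype.card (Fin q → Fin r → Bool) := by
    exact_mod_cast Fintype.card_pos
  set N : ℝ := (Fintype.card (Fin q → Fin r → Bool) : ℝ) with hN
  -- the number of accepting circuits
  have hG : ∀ y : Fin q → Fin r → Bool, (Nat.card {i // C i (z i y) y} : ℝ) =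
      ∑ i : Fin t, ind (C i (z i y) y) := by
    intro y
    rw [Nat.card_eq_fintype_card, Fintype.card_subtype, ← Finset.sum_boole]
    refine Finset.sum_congr rfl fun i _ => ?_
    by_cases c : C i (z i y) y
    · rw [ind_pos c, if_pos c]
    · rw [ind_neg c, if_neg c]
  -- correlations
  have hcorr' : ∀ i : Fin t, |∑ y, ind (C i (z i y) y) * gip y| ≤
      2 ^ k * (A * ((q + 1) * (1 / 2) ^ M * N)) := by
    intro i
    have h1 : ∀ y, ind (C i (z i y) y) * gip y =
        ∑ v : Fin k → Bool, ind (z i y = v) * (ind (C i v y) * gip y) := by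
      intro y
      rw [Finset.sum_eq_single (z i y)]
      · rw [ind_pos rfl, one_mul]
      · intro v _ hv
        rw [ind_neg (fun h => hv h.symm), zero_mul]
      · intro h
        exact absurd (Finset.mem_univ _) h
    rw [Finset.sum_congr rfl fun y _ => h1 y, Finset.sum_comm]
    refine (Finset.abs_sum_le_sum_abs _ _).trans
      ((Finset.sum_le_sum fun v _ => hcorr i v).trans (le_of_eq ?_))
    rw [Finset.sum_const, Finset.card_univ, Fintype.card_fun, Fintype.card_bool,
      Fintype.card_fin, nsmul_eq_mul]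
    push_cast
    rfl
  have hgip : |∑ y : Fin q → Fin r → Bool, gip y| ≤ (1 / 2) ^ M * N := gip_small hq hMr
  -- the sign
  obtain ⟨ε, hε, hkey⟩ : ∃ ε : ℝ, |ε| = 1 ∧ ∀ y : Fin q → Fin r → Bool,
      1 / 2 ≤ ε * gip y * (2 * (Nat.card {i // C i (z i y) y} : ℝ) - t + 1 / 2) := by
    have hval : ∀ y : Fin q → Fin r → Bool,
        gip y = if Odd (rowsAll y) then -1 else 1 := by
      intro y
      by_cases h : Odd (rowsAll y)
      · rw [if_pos h, gip_rows, h.neg_one_pow]
      · rw [if_neg h]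
        exact (gip_eq_one y).mpr h
    have hint : ∀ y : Fin q → Fin r → Bool,
        (t ≤ 2 * Nat.card {i // C i (z i y) y} →
          1 / 2 ≤ (2 * (Nat.card {i // C i (z i y) y} : ℝ) - t + 1 / 2)) ∧
        (¬ t ≤ 2 * Nat.card {i // C i (z i y) y} →
          (2 * (Nat.card {i // C i (z i y) y} : ℝ) - t + 1 / 2) ≤ -(1 / 2)) := by
      intro y
      constructor
      · intro h
        have : (t : ℝ) ≤ 2 * (Nat.card {i // C i (z i y) y} : ℝ) := by
          exact_mod_cast h
        linarith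
      · intro h
        have h1 : 2 * Nat.card {i // C i (z i y) y} + 1 ≤ t := by omega
        have : 2 * (Nat.card {i // C i (z i y) y} : ℝ) + 1 ≤ t := by
          exact_mod_cast h1
        linarith
    by_cases hσ : σ
    · refine ⟨-1, by norm_num, fun y => ?_⟩
      rw [hval y]
      by_cases h : Odd (rowsAll y)
      · rw [if_pos h]
        have := (hint y).1 ((H y).mpr (by simp [h, hσ]))
        linarith
      · rw [if_neg h]
        have := (hint y).2 (fun h2 => h (((H y).mp h2).mpr hσ))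
        linarith
    · refine ⟨1, by norm_num, fun y => ?_⟩
      rw [hval y]
      by_cases h : Odd (rowsAll y)
      · rw [if_pos h]
        have := (hint y).2 (fun h2 => hσ (((H y).mp h2).mp h))
        linarith
      · rw [if_neg h]
        have := (hint y).1 ((H y).mpr (by simp [h, hσ]))
        linarith
  -- summing up
  have hsum : N / 2 ≤ ∑ y : Fin q → Fin r → Bool, ε * gip y *
      (2 * (Nat.card {i // C i (z i y) y} : ℝ) - t + 1 / 2) := by
    have h1 : ∑ _y : Fin q → Fin r → Bool, (1 / 2 : ℝ) = N / 2 := by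
      rw [Finset.sum_const, Finset.card_univ, nsmul_eq_mul]
      ring
    rw [← h1]
    exact Finset.sum_le_sum fun y _ => hkey y
  have hexp : ∑ y : Fin q → Fin r → Bool, ε * gip y *
      (2 * (Nat.card {i // C i (z i y) y} : ℝ) - t + 1 / 2) =
      2 * ε * ∑ i : Fin t, ∑ y, ind (C i (z i y) y) * gip y +
        ε * (1 / 2 - t) * ∑ y : Fin q → Fin r → Bool, gip y := by
    rw [Finset.sum_comm, Finset.mul_sum, Finset.mul_sum, ← Finset.sum_add_distrib]
    refine Finset.sum_congr rfl fun y _ => ?_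
    rw [hG y, ← Finset.sum_mul]
    ring
  have hb1 : |2 * ε * ∑ i : Fin t, ∑ y, ind (C i (z i y) y) * gip y| ≤
      2 * (t * (2 ^ k * (A * ((q + 1) * (1 / 2) ^ M * N)))) := by
    rw [abs_mul, abs_mul, hε, abs_of_pos (by norm_num : (0 : ℝ) < 2), mul_one]
    refine mul_le_mul_of_nonneg_left ?_ (by norm_num)
    refine (Finset.abs_sum_le_sum_abs _ _).trans
      ((Finset.sum_le_sum fun i _ => hcorr' i).trans (le_of_eq ?_))
    rw [Finset.sum_const, Finset.card_univ, Fintype.card_fin, nsmul_eq_mul]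
  have hb2 : |ε * (1 / 2 - t) * ∑ y : Fin q → Fin r → Bool, gip y| ≤
      (t + 1) * ((1 / 2) ^ M * N) := by
    rw [abs_mul, abs_mul, hε, one_mul]
    refine mul_le_mul ?_ hgip (abs_nonneg _) (by positivity)
    have : (0 : ℝ) ≤ t := Nat.cast_nonneg t
    rw [abs_le]
    constructor <;> linarith
  rw [hexp] at hsum
  have h5 : N / 2 ≤ 2 * (t * (2 ^ k * (A * ((q + 1) * (1 / 2) ^ M * N)))) +
      (t + 1) * ((1 / 2) ^ M * N) := by
    have := (le_abs_self _).trans (abs_add_le
      (2 * ε * ∑ i : Fin t, ∑ y, ind (C i (z i y) y) * gip y)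
      (ε * (1 / 2 - t) * ∑ y : Fin q → Fin r → Bool, gip y))
    linarith
  -- numbers
  have hMpos : (0 : ℝ) < 2 ^ M := by positivity
  have h8 : (1 / 2 : ℝ) ^ M = 1 / 2 ^ M := one_div_pow _ _
  rw [h8] at h5
  have h9 : 2 * (t * (2 ^ k * (A * ((q + 1) * (1 / 2 ^ M) * N)))) ≤ N / 8 := by
    have e1 : 2 * ((t : ℝ) * (2 ^ k * (A * ((q + 1) * (1 / 2 ^ M) * N)))) =
        (16 * (t * (2 ^ k * A * (q + 1)))) * ((1 / 2 ^ M) * N / 8) := by ring
    rw [e1]
    calc 16 * ((t : ℝ) * (2 ^ k * A * (q + 1))) * ((1 / 2 ^ M) * N / 8) ≤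
        2 ^ M * ((1 / 2 ^ M) * N / 8) := mul_le_mul_of_nonneg_right hM1 (by positivity)
      _ = N / 8 := by field_simp
  have h10 : ((t : ℝ) + 1) * (1 / 2 ^ M * N) ≤ N / 8 := by
    calc ((t : ℝ) + 1) * (1 / 2 ^ M * N) = 8 * ((t : ℝ) + 1) * (1 / 2 ^ M * N / 8) := by ring
      _ ≤ 2 ^ M * (1 / 2 ^ M * N / 8) := mul_le_mul_of_nonneg_right hM2 (by positivity)
      _ = N / 8 := by field_simp
  linarith

end Pool.Agent.KCL
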